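import Mathlib

/-! An abstract Brun-Hooley sieve (upper and lower bounds), with a general
level-of-distribution hypothesis. -/

namespace Pool.Agent.Work.MP_40574a_nt.BrunHooley

open Finset

noncomputable section

/-- elementary symmetric sum of `g` over the `k`-subsets of `B` -/
def es (g : ℕ → ℝ) (B : Finset ℕ) (k : ℕ) : ℝ := ∑ S ∈ B.powersetCard k, ∏ q ∈ S, g q

/-- truncated inclusion-exclusion sum -/
def T (g : ℕ → ℝ) (B : Finset ℕ) (m : ℕ) : ℝ := ∑ i ∈ range (m + 1), (-1 : ℝ) ^ i * es g B i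

/-- the full product -/
def V (g : ℕ → ℝ) (B : Finset ℕ) : ℝ := ∏ q ∈ B, (1 - g q)

lemma es_zero (g : ℕ → ℝ) (B : Finset ℕ) : es g B 0 = 1 := by
  simp [es]

lemma es_empty_succ (g : ℕ → ℝ) (k : ℕ) : es g ∅ (k + 1) = 0 := by
  unfold es
  rw [powersetCard_eq_empty.2 (by simp), sum_empty]

lemma es_insert_succ (g : ℕ → ℝ) {B : Finset ℕ} {q : ℕ} (hq : q ∉ B) (k : ℕ) :
    es g (insert q B) (k + 1) = es g B (k + 1) + g q * es g B k := by
  unfold es
  rw [powersetCard_succ_insert hq, sum_union]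
  · congr 1
    rw [sum_image, mul_sum]
    · refine sum_congr rfl fun S hS => ?_
      rw [prod_insert]
      intro h
      exact hq ((mem_powersetCard.1 hS).1 h)
    · intro S hS S' hS' h
      have h1 : q ∉ S := fun h => hq ((mem_powersetCard.1 hS).1 h)
      have h2 : q ∉ S' := fun h => hq ((mem_powersetCard.1 hS').1 h)
      have := congrArg (fun s => s.erase q) h
      simpa [erase_insert h1, erase_insert h2] using this
  · rw [disjoint_left]
    intro S hS hS'
    obtain ⟨S', _, rfl⟩ := mem_image.1 hS'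
    exact hq ((mem_powersetCard.1 hS).1 (mem_insert_self _ _))

lemma es_nonneg {g : ℕ → ℝ} {B : Finset ℕ} (hg : ∀ q ∈ B, 0 ≤ g q) (k : ℕ) : 0 ≤ es g B k := by
  unfold es
  refine sum_nonneg fun S hS => prod_nonneg fun q hq => hg q ((mem_powersetCard.1 hS).1 hq)

lemma es_le_pow {g : ℕ → ℝ} {B : Finset ℕ} (hg : ∀ q ∈ B, 0 ≤ g q) :
    ∀ k : ℕ, es g B k ≤ (∑ q ∈ B, g q) ^ k / (k.factorial : ℝ) := by
  induction B using Finset.induction_on with
  | empty =>
    intro k
    cases k with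
    | zero => simp [es_zero]
    | succ k => rw [es_empty_succ]; simp
  | insert q B hq ih =>
    intro k
    cases k with
    | zero => simp [es_zero]
    | succ k =>
      have hgB : ∀ q ∈ B, 0 ≤ g q := fun r hr => hg r (mem_insert_of_mem hr)
      have hgq : 0 ≤ g q := hg q (mem_insert_self _ _)
      have ih' := ih hgB
      rw [es_insert_succ g hq, sum_insert hq]
      set L := ∑ q ∈ B, g q with hL
      have hL0 : 0 ≤ L := sum_nonneg hgB
      have h1 := ih' (k + 1)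
      have h2 := ih' k
      have hk : (0 : ℝ) < (k.factorial : ℝ) := by exact_mod_cast k.factorial_pos
      have hk1 : ((k + 1).factorial : ℝ) = (k + 1) * k.factorial := by
        rw [Nat.factorial_succ]; push_cast; ring
      have h3 : L ^ (k + 1) + (k + 1) * (g q * L ^ k) ≤ (g q + L) ^ (k + 1) := by
        have := add_pow (g q) L (k + 1)
        rw [this]
        have hsub : ({0, 1} : Finset ℕ) ⊆ range (k + 1 + 1) := by
          intro i hi
          simp at hi
          rcases hi with rfl | rfl <;> simp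
        calc L ^ (k + 1) + (k + 1) * (g q * L ^ k)
            = ∑ m ∈ ({0, 1} : Finset ℕ), g q ^ m * L ^ (k + 1 - m) * ((k + 1).choose m : ℝ) := by
              rw [sum_pair (by norm_num)]
              simp
              ring
          _ ≤ _ := by
              refine sum_le_sum_of_subset_of_nonneg hsub fun i _ _ => ?_
              positivity
      calc es g B (k + 1) + g q * es g B k
          ≤ L ^ (k + 1) / ((k + 1).factorial : ℝ) + g q * (L ^ k / (k.factorial : ℝ)) := by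
            gcongr
        _ = (L ^ (k + 1) + (k + 1) * (g q * L ^ k)) / ((k + 1).factorial : ℝ) := by
            rw [hk1]; field_simp
        _ ≤ _ := by gcongr

lemma T_zero (g : ℕ → ℝ) (B : Finset ℕ) : T g B 0 = 1 := by
  simp [T, es_zero]

lemma T_insert_succ (g : ℕ → ℝ) {B : Finset ℕ} {q : ℕ} (hq : q ∉ B) (m : ℕ) :
    T g (insert q B) (m + 1) = T g B (m + 1) - g q * T g B m := by
  have h1 : ∀ B' : Finset ℕ, T g B' (m + 1) =
      1 + ∑ i ∈ range (m + 1), (-1 : ℝ) ^ (i + 1) * es g B' (i + 1) := by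
    intro B'
    unfold T
    rw [sum_range_succ']
    simp [es_zero]
    ring
  rw [h1, h1]
  unfold T
  rw [mul_sum, add_sub_assoc, ← sum_sub_distrib]
  congr 1
  refine sum_congr rfl fun i _ => ?_
  rw [es_insert_succ g hq]
  ring

lemma T_bounds {g : ℕ → ℝ} {B : Finset ℕ} (hg : ∀ q ∈ B, 0 ≤ g q) (hg1 : ∀ q ∈ B, g q ≤ 1) :
    (0 ≤ V g B ∧ V g B ≤ 1) ∧
    ∀ m : ℕ, 0 ≤ (-1 : ℝ) ^ m * (T g B m - V g B) ∧
      (-1 : ℝ) ^ m * (T g B m - V g B) ≤ es g B (m + 1) := by
  induction B using Finset.induction_on with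
  | empty =>
    refine ⟨by simp [V], fun m => ?_⟩
    have : T g ∅ m = 1 := by
      unfold T
      rw [sum_range_succ']
      simp only [es_empty_succ, es_zero]
      simp
    rw [this]
    simp [V, es_empty_succ]
  | insert q B hq ih =>
    have hgB : ∀ q ∈ B, 0 ≤ g q := fun r hr => hg r (mem_insert_of_mem hr)
    have hgB1 : ∀ q ∈ B, g q ≤ 1 := fun r hr => hg1 r (mem_insert_of_mem hr)
    have hgq : 0 ≤ g q := hg q (mem_insert_self _ _)
    have hgq1 : g q ≤ 1 := hg1 q (mem_insert_self _ _)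
    obtain ⟨⟨hV0, hV1⟩, ih'⟩ := ih hgB hgB1
    have hV : V g (insert q B) = (1 - g q) * V g B := by
      unfold V; rw [prod_insert hq]
    refine ⟨⟨?_, ?_⟩, fun m => ?_⟩
    · rw [hV]; exact mul_nonneg (by linarith) hV0
    · rw [hV]; nlinarith
    · cases m with
      | zero =>
        have h0 := ih' 0
        rw [T_zero] at h0 ⊢
        rw [hV, es_insert_succ g hq, es_zero]
        simp only [pow_zero, one_mul] at h0 ⊢
        constructor <;> nlinarith [h0.1, h0.2, mul_nonneg hgq hV0]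
      | succ m =>
        have h1 := ih' (m + 1)
        have h0 := ih' m
        have hkey : (-1 : ℝ) ^ (m + 1) * (T g (insert q B) (m + 1) - V g (insert q B)) =
            (-1 : ℝ) ^ (m + 1) * (T g B (m + 1) - V g B) +
              g q * ((-1 : ℝ) ^ m * (T g B m - V g B)) := by
          rw [hV, T_insert_succ g hq]
          ring
        rw [hkey, es_insert_succ g hq]
        constructor
        · have := mul_nonneg hgq h0.1
          linarith [h1.1]
        · have := mul_le_mul_of_nonneg_left h0.2 hgq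
          linarith [h1.2]

lemma T_even_bounds {g : ℕ → ℝ} {B : Finset ℕ} (hg : ∀ q ∈ B, 0 ≤ g q)
    (hg1 : ∀ q ∈ B, g q ≤ 1) (b : ℕ) :
    V g B ≤ T g B (2 * b) ∧ T g B (2 * b) ≤ V g B + es g B (2 * b + 1) := by
  have h := (T_bounds hg hg1).2 (2 * b)
  rw [pow_mul] at h
  norm_num at h
  constructor <;> linarith [h.1, h.2]

/-! ### Summing over a sifted family -/

section family

variable {α : Type*} (A : Finset α) (dv : ℕ → α → Prop) [∀ q m, Decidable (dv q m)]
  (Pr : ℕ → Prop) (g : ℕ → ℝ) (K X : ℝ)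

/-- `f` has the expected sums over all divisibility classes by sets of admissible
primes outside `Q`, with relative mean `M` and error size `N`. -/
def Good (Q : Finset ℕ) (f : α → ℝ) (M N : ℝ) : Prop :=
  ∀ S : Finset ℕ, (∀ q ∈ S, Pr q ∧ q ∉ Q) →
    |∑ m ∈ A with (∀ q ∈ S, dv q m), f m - X * (∏ q ∈ S, g q) * M| ≤ K ^ S.card * N

variable {A dv Pr g K X}

lemma Good.sub {Q : Finset ℕ} {f f' : α → ℝ} {M N M' N' : ℝ}
    (h : Good A dv Pr g K X Q f M N) (h' : Good A dv Pr g K X Q f' M' N') :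
    Good A dv Pr g K X Q (fun m => f m - f' m) (M - M') (N + N') := by
  intro S hS
  have h1 := h S hS
  have h2 := h' S hS
  rw [sum_sub_distrib, abs_le] at *
  constructor <;> nlinarith [h1.1, h1.2, h2.1, h2.2]

/-- multiply by a divisor-sum supported on `B` -/
lemma Good.step {Q B : Finset ℕ} {f : α → ℝ} {M N : ℝ}
    (h : Good A dv Pr g K X Q f M N) (hB : ∀ q ∈ B, Pr q ∧ q ∉ Q) (𝒮 : Finset (Finset ℕ))
    (h𝒮 : ∀ S ∈ 𝒮, S ⊆ B) (c : Finset ℕ → ℝ) :
    Good A dv Pr g K X (Q ∪ B)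
      (fun m => f m * ∑ S ∈ 𝒮 with (∀ q ∈ S, dv q m), c S)
      (M * ∑ S ∈ 𝒮, c S * ∏ q ∈ S, g q) (N * ∑ S ∈ 𝒮, |c S| * K ^ S.card) := by
  classical
  intro S₀ hS₀
  have hdis : ∀ S ∈ 𝒮, Disjoint S₀ S := by
    intro S hS
    rw [disjoint_left]
    intro q hq hq'
    exact (hS₀ q hq).2 (mem_union_right _ (h𝒮 S hS hq'))
  have hcl : ∀ S ∈ 𝒮, ∀ q ∈ S₀ ∪ S, Pr q ∧ q ∉ Q := by
    intro S hS q hq
    rcases mem_union.1 hq with hq | hq
    · exact ⟨(hS₀ q hq).1, fun h => (hS₀ q hq).2 (mem_union_left _ h)⟩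
    · exact hB q (h𝒮 S hS hq)
  have hsum : ∑ m ∈ A with (∀ q ∈ S₀, dv q m),
      f m * ∑ S ∈ 𝒮 with (∀ q ∈ S, dv q m), c S =
      ∑ S ∈ 𝒮, c S * ∑ m ∈ A with (∀ q ∈ S₀ ∪ S, dv q m), f m := by
    have h1 : ∀ m, f m * ∑ S ∈ 𝒮 with (∀ q ∈ S, dv q m), c S =
        ∑ S ∈ 𝒮, if (∀ q ∈ S, dv q m) then c S * f m else 0 := by
      intro m
      rw [mul_sum, sum_filter]
      refine sum_congr rfl fun S _ => ?_
      split_ifs
      · ring
      · rfl
    simp_rw [h1]
    rw [sum_comm]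
    refine sum_congr rfl fun S _ => ?_
    rw [← sum_filter, mul_sum, filter_filter]
    refine sum_congr ?_ fun _ _ => rfl
    ext m
    simp only [mem_filter, mem_union]
    constructor
    · rintro ⟨hm, h1, h2⟩
      exact ⟨hm, fun q hq => hq.elim (h1 q) (h2 q)⟩
    · rintro ⟨hm, h1⟩
      exact ⟨hm, fun q hq => h1 q (Or.inl hq), fun q hq => h1 q (Or.inr hq)⟩
  have hmain : X * (∏ q ∈ S₀, g q) * (M * ∑ S ∈ 𝒮, c S * ∏ q ∈ S, g q) =
      ∑ S ∈ 𝒮, c S * (X * (∏ q ∈ S₀ ∪ S, g q) * M) := by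
    rw [mul_sum, mul_sum]
    refine sum_congr rfl fun S hS => ?_
    rw [prod_union (hdis S hS)]
    ring
  have herr : K ^ S₀.card * (N * ∑ S ∈ 𝒮, |c S| * K ^ S.card) =
      ∑ S ∈ 𝒮, |c S| * (K ^ (S₀ ∪ S).card * N) := by
    rw [mul_sum, mul_sum]
    refine sum_congr rfl fun S hS => ?_
    rw [card_union_of_disjoint (hdis S hS), pow_add]
    ring
  rw [hsum, hmain, herr, ← sum_sub_distrib]
  refine (abs_sum_le_sum_abs _ _).trans (sum_le_sum fun S hS => ?_)
  rw [← mul_sub, abs_mul]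
  exact mul_le_mul_of_nonneg_left (h _ (hcl S hS)) (abs_nonneg _)

end family

/-! ### Truncation families -/

/-- subsets of `B` of size at most `m` -/
def TS (B : Finset ℕ) (m : ℕ) : Finset (Finset ℕ) := B.powerset.filter (fun S => S.card ≤ m)

lemma sum_TS (f : Finset ℕ → ℝ) (B : Finset ℕ) (m : ℕ) :
    ∑ S ∈ TS B m, f S = ∑ i ∈ range (m + 1), ∑ S ∈ B.powersetCard i, f S := by
  unfold TS
  rw [← sum_fiberwise_of_maps_to (g := fun S : Finset ℕ => S.card) (t := range (m + 1))]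
  · refine sum_congr rfl fun i hi => sum_congr ?_ fun _ _ => rfl
    ext S
    simp only [mem_filter, mem_powerset, mem_powersetCard]
    have := mem_range.1 hi
    constructor
    · rintro ⟨⟨h1, _⟩, h2⟩; exact ⟨h1, h2⟩
    · rintro ⟨h1, h2⟩; exact ⟨⟨h1, by omega⟩, h2⟩
  · intro S hS
    have := (mem_filter.1 hS).2
    simp only [mem_range]
    omega

lemma T_eq_sum_TS (g : ℕ → ℝ) (B : Finset ℕ) (m : ℕ) :
    T g B m = ∑ S ∈ TS B m, (-1 : ℝ) ^ S.card * ∏ q ∈ S, g q := by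
  rw [sum_TS]
  unfold T es
  refine sum_congr rfl fun i _ => ?_
  rw [mul_sum]
  refine sum_congr rfl fun S hS => ?_
  rw [(mem_powersetCard.1 hS).2]

lemma filter_TS (B : Finset ℕ) (m : ℕ) (P : ℕ → Prop) [DecidablePred P] :
    (TS B m).filter (fun S => ∀ q ∈ S, P q) = TS (B.filter P) m := by
  ext S
  simp only [TS, mem_filter, mem_powerset, subset_iff]
  constructor
  · rintro ⟨⟨h1, h2⟩, h3⟩
    exact ⟨fun q hq => ⟨h1 hq, h3 q hq⟩, h2⟩
  · rintro ⟨h1, h2⟩
    exact ⟨⟨fun q hq => (h1 hq).1, h2⟩, fun q hq => (h1 hq).2⟩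

lemma filter_powersetCard' (B : Finset ℕ) (m : ℕ) (P : ℕ → Prop) [DecidablePred P] :
    (B.powersetCard m).filter (fun S => ∀ q ∈ S, P q) = (B.filter P).powersetCard m := by
  ext S
  simp only [mem_filter, mem_powersetCard, subset_iff]
  constructor
  · rintro ⟨⟨h1, h2⟩, h3⟩
    exact ⟨fun q hq => ⟨h1 hq, h3 q hq⟩, h2⟩
  · rintro ⟨h1, h2⟩
    exact ⟨⟨fun q hq => (h1 hq).1, h2⟩, fun q hq => (h1 hq).2⟩

/-- pointwise truncated sum -/
lemma sum_filter_TS (B : Finset ℕ) (m : ℕ) (P : ℕ → Prop) [DecidablePred P] :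
    ∑ S ∈ TS B m with (∀ q ∈ S, P q), (-1 : ℝ) ^ S.card = T (fun _ => 1) (B.filter P) m := by
  rw [filter_TS, T_eq_sum_TS]
  simp

lemma sum_filter_powersetCard (B : Finset ℕ) (m : ℕ) (P : ℕ → Prop) [DecidablePred P] :
    ∑ S ∈ B.powersetCard m with (∀ q ∈ S, P q), (1 : ℝ) = es (fun _ => 1) (B.filter P) m := by
  rw [filter_powersetCard']
  simp [es]

lemma err_TS_le {K : ℝ} (hK : 0 ≤ K) (B : Finset ℕ) (m : ℕ) :
    ∑ S ∈ TS B m, |(-1 : ℝ) ^ S.card| * K ^ S.card ≤ (1 + K * B.card) ^ m := by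
  have h1 : ∑ S ∈ TS B m, |(-1 : ℝ) ^ S.card| * K ^ S.card =
      ∑ i ∈ range (m + 1), (B.card.choose i : ℝ) * K ^ i := by
    rw [sum_TS]
    refine sum_congr rfl fun i _ => ?_
    rw [sum_congr rfl (g := fun _ => K ^ i)]
    · rw [sum_const, card_powersetCard, nsmul_eq_mul]
    · intro S hS
      rw [(mem_powersetCard.1 hS).2, abs_pow, abs_neg, abs_one, one_pow, one_mul]
  rw [h1, add_comm (1 : ℝ), add_pow]
  refine sum_le_sum fun i hi => ?_
  have hi' : i ≤ m := by have := mem_range.1 hi; omega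
  rw [one_pow, mul_one, mul_pow]
  have h2 : ((B.card.choose i : ℕ) : ℝ) ≤ (B.card : ℝ) ^ i := by
    exact_mod_cast Nat.choose_le_pow _ _
  have h3 : (1 : ℝ) ≤ (m.choose i : ℝ) := by exact_mod_cast Nat.choose_pos hi'
  calc (B.card.choose i : ℝ) * K ^ i ≤ (B.card : ℝ) ^ i * K ^ i := by gcongr
    _ = K ^ i * (B.card : ℝ) ^ i * 1 := by ring
    _ ≤ K ^ i * (B.card : ℝ) ^ i * (m.choose i : ℝ) := by gcongr

lemma err_TS_le' {K : ℝ} (hK : 0 ≤ K) (B : Finset ℕ) (m : ℕ) :
    ∑ S ∈ TS B m, |(-1 : ℝ) ^ S.card| * K ^ S.card ≤ (1 + K) ^ B.card := by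
  have h1 : ∑ S ∈ B.powerset, |(-1 : ℝ) ^ S.card| * K ^ S.card = (1 + K) ^ B.card := by
    have := sum_pow_mul_eq_add_pow K (1 : ℝ) B
    rw [add_comm (1 : ℝ), ← this]
    refine sum_congr rfl fun S _ => ?_
    simp
  rw [← h1]
  refine sum_le_sum_of_subset_of_nonneg (filter_subset _ _) fun S _ _ => by positivity

lemma err_powersetCard_le {K : ℝ} (hK : 0 ≤ K) (B : Finset ℕ) (m : ℕ) :
    ∑ S ∈ B.powersetCard m, |(1 : ℝ)| * K ^ S.card ≤ (1 + K * B.card) ^ m := by
  have h1 : ∑ S ∈ B.powersetCard m, |(1 : ℝ)| * K ^ S.card = (B.card.choose m : ℝ) * K ^ m := by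
    rw [sum_congr rfl (g := fun _ => K ^ m)]
    · rw [sum_const, card_powersetCard, nsmul_eq_mul]
    · intro S hS
      rw [(mem_powersetCard.1 hS).2, abs_one, one_mul]
  rw [h1]
  have h2 : ((B.card.choose m : ℕ) : ℝ) ≤ (B.card : ℝ) ^ m := by
    exact_mod_cast Nat.choose_le_pow _ _
  calc (B.card.choose m : ℝ) * K ^ m ≤ (B.card : ℝ) ^ m * K ^ m := by gcongr
    _ = (K * B.card) ^ m := by ring
    _ ≤ (1 + K * B.card) ^ m := by
      gcongr
      linarith

/-! ### The sieve -/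

section sieve

variable {α : Type*} (A : Finset α) (dv : ℕ → α → Prop) [∀ q m, Decidable (dv q m)]
  (Pr : ℕ → Prop) (g : ℕ → ℝ) (K X : ℝ) (B : ℕ → Finset ℕ) (b : ℕ → ℕ)

/-- union of the first `t` blocks -/
def Qs (t : ℕ) : Finset ℕ := (range t).biUnion B

/-- pointwise upper and lower functions -/
def UL : ℕ → α → ℝ × ℝ
  | 0, _ => (1, 1)
  | t + 1, m =>
    ((UL t m).1 * T (fun _ => 1) ((B t).filter (fun q => dv q m)) (2 * b t),
     (UL t m).2 * T (fun _ => 1) ((B t).filter (fun q => dv q m)) (2 * b t) -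
      (UL t m).1 * es (fun _ => 1) ((B t).filter (fun q => dv q m)) (2 * b t + 1))

/-- main terms -/
def MUL : ℕ → ℝ × ℝ
  | 0 => (1, 1)
  | t + 1 =>
    ((MUL t).1 * T g (B t) (2 * b t),
     (MUL t).2 * T g (B t) (2 * b t) - (MUL t).1 * es g (B t) (2 * b t + 1))

/-- error terms -/
def NUL : ℕ → ℝ × ℝ
  | 0 => (1, 1)
  | t + 1 =>
    ((NUL t).1 * ∑ S ∈ TS (B t) (2 * b t), |(-1 : ℝ) ^ S.card| * K ^ S.card,
     (NUL t).2 * ∑ S ∈ TS (B t) (2 * b t), |(-1 : ℝ) ^ S.card| * K ^ S.card +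
      (NUL t).1 * ∑ S ∈ (B t).powersetCard (2 * b t + 1), |(1 : ℝ)| * K ^ S.card)

/-- `m` survives the first `t` blocks -/
def Sifted (t : ℕ) (m : α) : Prop := ∀ q ∈ Qs B t, ¬ dv q m

variable {A dv Pr g K X B b}

lemma UL_bounds (t : ℕ) (m : α) :
    (Sifted dv B t m → (UL dv B b t m).2 ≤ 1 ∧ 1 ≤ (UL dv B b t m).1) ∧
    (¬ Sifted dv B t m → (UL dv B b t m).2 ≤ 0 ∧ 0 ≤ (UL dv B b t m).1) := by
  induction t with
  | zero =>
    refine ⟨fun _ => by simp [UL], fun h => ?_⟩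
    exact absurd (by simp [Sifted, Qs]) h
  | succ t ih =>
    have hb := T_even_bounds (g := fun _ => (1 : ℝ)) (B := (B t).filter (fun q => dv q m))
      (fun _ _ => zero_le_one) (fun _ _ => le_rfl) (b t)
    have he : 0 ≤ es (fun _ => 1) ((B t).filter (fun q => dv q m)) (2 * b t + 1) :=
      es_nonneg (fun _ _ => zero_le_one) _
    have hQ : Sifted dv B (t + 1) m ↔
        Sifted dv B t m ∧ (B t).filter (fun q => dv q m) = ∅ := by
      unfold Sifted Qs
      rw [range_add_one, biUnion_insert]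
      constructor
      · intro h
        refine ⟨fun q hq => h q (mem_union_right _ hq), ?_⟩
        rw [filter_eq_empty_iff]
        intro q hq
        exact h q (mem_union_left _ hq)
      · rintro ⟨h1, h2⟩ q hq
        rcases mem_union.1 hq with hq | hq
        · exact (filter_eq_empty_iff.1 h2) hq
        · exact h1 q hq
    simp only [UL]
    set y := T (fun _ => (1 : ℝ)) ((B t).filter (fun q => dv q m)) (2 * b t) with hy
    set e := es (fun _ => (1 : ℝ)) ((B t).filter (fun q => dv q m)) (2 * b t + 1) with he'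
    set x := V (fun _ => (1 : ℝ)) ((B t).filter (fun q => dv q m)) with hx
    have hx1 : (B t).filter (fun q => dv q m) = ∅ → x = 1 := by
      intro h; rw [hx, h]; simp [V]
    have hx0 : (B t).filter (fun q => dv q m) ≠ ∅ → x = 0 := by
      intro h
      obtain ⟨q, hq⟩ := nonempty_iff_ne_empty.2 h
      rw [hx]; unfold V
      exact prod_eq_zero hq (by simp)
    obtain ⟨hb1, hb2⟩ := hb
    by_cases hs : Sifted dv B t m
    · obtain ⟨ih1, ih2⟩ := ih.1 hs
      by_cases hf : (B t).filter (fun q => dv q m) = ∅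
      · rw [hQ]
        have := hx1 hf
        refine ⟨fun _ => ⟨?_, ?_⟩, fun h => absurd ⟨hs, hf⟩ h⟩
        · have h1 : (UL dv B b t m).2 * y ≤ 1 * y :=
            mul_le_mul_of_nonneg_right ih1 (by linarith)
          have h2 : 1 * e ≤ (UL dv B b t m).1 * e := mul_le_mul_of_nonneg_right ih2 he
          linarith
        · nlinarith
      · rw [hQ]
        have := hx0 hf
        refine ⟨fun h => absurd h.2 hf, fun _ => ⟨?_, ?_⟩⟩
        · have h1 : (UL dv B b t m).2 * y ≤ 1 * y :=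
            mul_le_mul_of_nonneg_right ih1 (by linarith)
          have h2 : 1 * e ≤ (UL dv B b t m).1 * e := mul_le_mul_of_nonneg_right ih2 he
          linarith
        · exact mul_nonneg (by linarith) (by linarith)
    · obtain ⟨ih1, ih2⟩ := ih.2 hs
      rw [hQ]
      refine ⟨fun h => absurd h.1 hs, fun _ => ?_⟩
      have hx' : 0 ≤ x := by
        rcases eq_or_ne ((B t).filter (fun q => dv q m)) ∅ with h | h
        · rw [hx1 h]; norm_num
        · rw [hx0 h]
      refine ⟨?_, mul_nonneg ih2 (by linarith)⟩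
      have h1 : (UL dv B b t m).2 * y ≤ 0 := mul_nonpos_of_nonpos_of_nonneg ih1 (by linarith)
      have h2 : 0 ≤ (UL dv B b t m).1 * e := mul_nonneg ih2 he
      linarith

lemma UL_good (h0 : Good A dv Pr g K X ∅ (fun _ => (1 : ℝ)) 1 1)
    (hPr : ∀ j, ∀ q ∈ B j, Pr q) (hdis : ∀ i j, i < j → Disjoint (B i) (B j)) (t : ℕ) :
    Good A dv Pr g K X (Qs B t) (fun m => (UL dv B b t m).1)
      (MUL g B b t).1 (NUL K B b t).1 ∧
    Good A dv Pr g K X (Qs B t) (fun m => (UL dv B b t m).2)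
      (MUL g B b t).2 (NUL K B b t).2 := by
  induction t with
  | zero =>
    simp only [UL, MUL, NUL, Qs, range_zero, biUnion_empty]
    exact ⟨h0, h0⟩
  | succ t ih =>
    have hQ : Qs B (t + 1) = Qs B t ∪ B t := by
      unfold Qs
      rw [range_add_one, biUnion_insert, union_comm]
    have hB : ∀ q ∈ B t, Pr q ∧ q ∉ Qs B t := by
      intro q hq
      refine ⟨hPr t q hq, fun h => ?_⟩
      obtain ⟨i, hi, hq'⟩ := mem_biUnion.1 h
      exact (disjoint_left.1 (hdis i t (mem_range.1 hi)) hq') hq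
    have hTS : ∀ S ∈ TS (B t) (2 * b t), S ⊆ B t := fun S hS =>
      mem_powerset.1 (mem_filter.1 hS).1
    have hPC : ∀ S ∈ (B t).powersetCard (2 * b t + 1), S ⊆ B t := fun S hS =>
      (mem_powersetCard.1 hS).1
    have g1 := ih.1.step hB _ hTS (fun S => (-1 : ℝ) ^ S.card)
    have g2 := ih.2.step hB _ hTS (fun S => (-1 : ℝ) ^ S.card)
    have g3 := ih.1.step hB _ hPC (fun _ => (1 : ℝ))
    simp only [sum_filter_TS, sum_filter_powersetCard, ← T_eq_sum_TS] at g1 g2 g3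
    rw [hQ]
    refine ⟨?_, ?_⟩
    · simpa only [UL, MUL, NUL] using g1
    · have g4 := g2.sub g3
      simp only [UL, MUL, NUL]
      have hes : ∑ S ∈ (B t).powersetCard (2 * b t + 1), (1 : ℝ) * ∏ q ∈ S, g q =
          es g (B t) (2 * b t + 1) := by simp [es]
      rw [hes] at g4
      exact g4

/-- Upper bound for the sifted elements divisible by all elements of `S`. -/
theorem upper_bound (h0 : Good A dv Pr g K X ∅ (fun _ => (1 : ℝ)) 1 1)
    (hPr : ∀ j, ∀ q ∈ B j, Pr q) (hdis : ∀ i j, i < j → Disjoint (B i) (B j)) (t : ℕ)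
    (C : Finset α) (hC : C ⊆ A) (S : Finset ℕ) (hS : ∀ q ∈ S, Pr q ∧ q ∉ Qs B t)
    (hCs : ∀ m ∈ C, Sifted dv B t m ∧ ∀ q ∈ S, dv q m) :
    (C.card : ℝ) ≤ X * (∏ q ∈ S, g q) * (MUL g B b t).1 + K ^ S.card * (NUL K B b t).1 := by
  classical
  have h := (UL_good (b := b) h0 hPr hdis t).1 S hS
  have h1 : (C.card : ℝ) ≤ ∑ m ∈ A with (∀ q ∈ S, dv q m), (UL dv B b t m).1 := by
    have hsub : C ⊆ A.filter (fun m => ∀ q ∈ S, dv q m) := fun m hm =>
      mem_filter.2 ⟨hC hm, (hCs m hm).2⟩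
    calc (C.card : ℝ) = ∑ m ∈ C, (1 : ℝ) := by simp
      _ ≤ ∑ m ∈ C, (UL dv B b t m).1 :=
        sum_le_sum fun m hm => ((UL_bounds t m).1 (hCs m hm).1).2
      _ ≤ _ := by
        refine sum_le_sum_of_subset_of_nonneg hsub fun m _ _ => ?_
        by_cases hs : Sifted dv B t m
        · linarith [((UL_bounds (b := b) t m).1 hs).2]
        · exact ((UL_bounds t m).2 hs).2
  linarith [(abs_le.1 h).2]

/-- Lower bound for the number of sifted elements. -/
theorem lower_bound (h0 : Good A dv Pr g K X ∅ (fun _ => (1 : ℝ)) 1 1)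
    (hPr : ∀ j, ∀ q ∈ B j, Pr q) (hdis : ∀ i j, i < j → Disjoint (B i) (B j)) (t : ℕ)
    (C : Finset α) (hCs : ∀ m ∈ A, Sifted dv B t m → m ∈ C) :
    X * (MUL g B b t).2 - (NUL K B b t).2 ≤ (C.card : ℝ) := by
  classical
  have h := (UL_good (b := b) h0 hPr hdis t).2 ∅ (by simp)
  simp only [notMem_empty, false_imp_iff, implies_true, filter_true, prod_empty, mul_one,
    card_empty, pow_zero, one_mul] at h
  have h1 : ∑ m ∈ A, (UL dv B b t m).2 ≤ (C.card : ℝ) := by
    calc ∑ m ∈ A, (UL dv B b t m).2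
        ≤ ∑ m ∈ A, (if m ∈ C then (1 : ℝ) else 0) := by
          refine sum_le_sum fun m hm => ?_
          by_cases hs : Sifted dv B t m
          · rw [if_pos (hCs m hm hs)]
            exact ((UL_bounds t m).1 hs).1
          · have := ((UL_bounds (b := b) t m).2 hs).1
            split_ifs <;> linarith
      _ = ((A.filter (fun m => m ∈ C)).card : ℝ) := by
          rw [← sum_filter]; simp
      _ ≤ _ := by
          exact_mod_cast card_le_card fun m hm => (mem_filter.1 hm).2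
  linarith [(abs_le.1 h).1]

/-! ### Main and error term estimates -/

lemma MUL_fst_pos (hg : ∀ j, ∀ q ∈ B j, 0 ≤ g q) (hg1 : ∀ j, ∀ q ∈ B j, g q < 1) (t : ℕ) :
    0 < (MUL g B b t).1 := by
  induction t with
  | zero => simp [MUL]
  | succ t ih =>
    simp only [MUL]
    refine mul_pos ih ?_
    have h := (T_even_bounds (hg t) (fun q hq => (hg1 t q hq).le) (b t)).1
    have hV : 0 < V g (B t) := by
      unfold V
      exact prod_pos fun q hq => by linarith [hg1 t q hq]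
    linarith

/-- The lower main term in terms of the upper one. -/
lemma MUL_snd_ge (hg : ∀ j, ∀ q ∈ B j, 0 ≤ g q) (hg1 : ∀ j, ∀ q ∈ B j, g q < 1)
    (τ : ℕ → ℝ) (hτ : ∀ j, es g (B j) (2 * b j + 1) ≤ τ j * V g (B j)) (t : ℕ) :
    (1 - ∑ j ∈ range t, τ j) * (MUL g B b t).1 ≤ (MUL g B b t).2 := by
  induction t with
  | zero => simp [MUL]
  | succ t ih =>
    have hpos := MUL_fst_pos (b := b) hg hg1 t
    have h := (T_even_bounds (hg t) (fun q hq => (hg1 t q hq).le) (b t)).1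
    have hV : 0 < V g (B t) := by
      unfold V
      exact prod_pos fun q hq => by linarith [hg1 t q hq]
    have hT : 0 < T g (B t) (2 * b t) := by linarith
    have hτ0 : 0 ≤ τ t := by
      have h1 := es_nonneg (hg t) (2 * b t + 1)
      have h2 := hτ t
      by_contra hneg
      push Not at hneg
      nlinarith
    simp only [MUL]
    rw [sum_range_succ]
    have h2 : es g (B t) (2 * b t + 1) ≤ τ t * T g (B t) (2 * b t) :=
      (hτ t).trans (mul_le_mul_of_nonneg_left h hτ0)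
    have h3 : (MUL g B b t).1 * es g (B t) (2 * b t + 1) ≤
        (MUL g B b t).1 * (τ t * T g (B t) (2 * b t)) :=
      mul_le_mul_of_nonneg_left h2 hpos.le
    have h4 := mul_le_mul_of_nonneg_right ih hT.le
    nlinarith

lemma MUL_fst_ge (hg : ∀ j, ∀ q ∈ B j, 0 ≤ g q) (hg1 : ∀ j, ∀ q ∈ B j, g q < 1) (t : ℕ) :
    ∏ j ∈ range t, V g (B j) ≤ (MUL g B b t).1 := by
  induction t with
  | zero => simp [MUL]
  | succ t ih =>
    have h := (T_even_bounds (hg t) (fun q hq => (hg1 t q hq).le) (b t)).1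
    have hV : 0 < V g (B t) := by
      unfold V
      exact prod_pos fun q hq => by linarith [hg1 t q hq]
    simp only [MUL]
    rw [prod_range_succ]
    exact mul_le_mul ih h hV.le (MUL_fst_pos hg hg1 t).le

lemma MUL_fst_le (hg : ∀ j, ∀ q ∈ B j, 0 ≤ g q) (hg1 : ∀ j, ∀ q ∈ B j, g q < 1)
    (τ : ℕ → ℝ) (hτ : ∀ j, es g (B j) (2 * b j + 1) ≤ τ j * V g (B j)) (t : ℕ) :
    (MUL g B b t).1 ≤ ∏ j ∈ range t, ((1 + τ j) * V g (B j)) := by
  induction t with
  | zero => simp [MUL]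
  | succ t ih =>
    have h := (T_even_bounds (hg t) (fun q hq => (hg1 t q hq).le) (b t))
    have hV : 0 < V g (B t) := by
      unfold V
      exact prod_pos fun q hq => by linarith [hg1 t q hq]
    simp only [MUL]
    rw [prod_range_succ]
    have h5 := hτ t
    refine mul_le_mul ih ?_ (by linarith [h.1]) ?_
    · nlinarith [h.2]
    · exact (MUL_fst_pos hg hg1 t).le.trans ih

/-- Error terms are bounded by the product of block bounds. -/
lemma NUL_le (hK : 0 ≤ K) (n r : ℕ → ℝ) (hn0 : ∀ j, 0 ≤ n j) (hr0 : ∀ j, 0 ≤ r j)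
    (hn : ∀ j, ∑ S ∈ TS (B j) (2 * b j), |(-1 : ℝ) ^ S.card| * K ^ S.card ≤ n j)
    (hr : ∀ j, ∑ S ∈ (B j).powersetCard (2 * b j + 1), |(1 : ℝ)| * K ^ S.card ≤ r j * n j)
    (t : ℕ) :
    (0 ≤ (NUL K B b t).1 ∧ (NUL K B b t).1 ≤ ∏ j ∈ range t, n j) ∧
    (0 ≤ (NUL K B b t).2 ∧
      (NUL K B b t).2 ≤ (1 + ∑ j ∈ range t, r j) * ∏ j ∈ range t, n j) := by
  induction t with
  | zero => simp [NUL]
  | succ t ih =>
    obtain ⟨⟨a1, a2⟩, a3, a4⟩ := ih
    have e1 : 0 ≤ ∑ S ∈ TS (B t) (2 * b t), |(-1 : ℝ) ^ S.card| * K ^ S.card :=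
      sum_nonneg fun S _ => by positivity
    have e2 : 0 ≤ ∑ S ∈ (B t).powersetCard (2 * b t + 1), |(1 : ℝ)| * K ^ S.card :=
      sum_nonneg fun S _ => by positivity
    simp only [NUL]
    rw [prod_range_succ, sum_range_succ]
    have hP : 0 ≤ ∏ j ∈ range t, n j := prod_nonneg fun j _ => hn0 j
    refine ⟨⟨mul_nonneg a1 e1, mul_le_mul a2 (hn t) e1 hP⟩, by positivity, ?_⟩
    have h1 : (NUL K B b t).2 * ∑ S ∈ TS (B t) (2 * b t), |(-1 : ℝ) ^ S.card| * K ^ S.card ≤
        ((1 + ∑ j ∈ range t, r j) * ∏ j ∈ range t, n j) * n t :=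
      mul_le_mul a4 (hn t) e1 (mul_nonneg (by
        have := sum_nonneg (fun j (_ : j ∈ range t) => hr0 j); linarith) hP)
    have h2 : (NUL K B b t).1 * ∑ S ∈ (B t).powersetCard (2 * b t + 1), |(1 : ℝ)| * K ^ S.card ≤
        (∏ j ∈ range t, n j) * (r t * n t) := mul_le_mul a2 (hr t) e2 hP
    nlinarith

end sieve

end

end Pool.Agent.Work.MP_40574a_nt.BrunHooley
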