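import Mathlib
import Pool.Agent.Work.MP_40574a_nt.BrunHooley

/-! Counting integers of an interval in prescribed residue classes (level of distribution). -/

namespace Pool.Agent.Work.MP_40574a_nt.Count

open Finset BrunHooley

noncomputable section

lemma card_modEq_approx (a b : ℕ) (hab : a ≤ b) {D : ℕ} (hD : 0 < D) (r : ℕ) :
    |(((Ico a b).filter (fun m => m ≡ r [MOD D])).card : ℝ) - ((b : ℝ) - a) / D| ≤ 1 := by
  have h := Nat.Ico_filter_modEq_card a b hD r
  have hDq : (0 : ℚ) < D := by exact_mod_cast hD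
  have habq : ((a : ℚ) - r) / D ≤ ((b : ℚ) - r) / D := by
    have : (a : ℚ) ≤ b := by exact_mod_cast hab
    gcongr
  have h0 : (0 : ℤ) ≤ ⌈((b : ℚ) - r) / D⌉ - ⌈((a : ℚ) - r) / D⌉ :=
    sub_nonneg.2 (Int.ceil_le_ceil habq)
  rw [max_eq_left h0] at h
  have h1 := Int.le_ceil (((b : ℚ) - r) / D)
  have h2 := Int.ceil_lt_add_one (((b : ℚ) - r) / D)
  have h3 := Int.le_ceil (((a : ℚ) - r) / D)
  have h4 := Int.ceil_lt_add_one (((a : ℚ) - r) / D)
  have hc : (((Ico a b).filter (fun m => m ≡ r [MOD D])).card : ℚ) =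
      (⌈((b : ℚ) - r) / D⌉ : ℚ) - (⌈((a : ℚ) - r) / D⌉ : ℚ) := by
    exact_mod_cast h
  have hd : ((b : ℚ) - r) / D - ((a : ℚ) - r) / D = ((b : ℚ) - a) / D := by ring
  have h5 : |(((Ico a b).filter (fun m => m ≡ r [MOD D])).card : ℚ) - ((b : ℚ) - a) / D| ≤ 1 := by
    rw [hc, ← hd, abs_le]
    constructor <;> linarith
  have h6 := (Rat.cast_le (K := ℝ)).2 h5
  rw [Rat.cast_abs] at h6
  push_cast at h6
  exact h6

variable (dv : ℕ → ℕ → Prop) [∀ q m, Decidable (dv q m)]

/-- residues mod `q` -/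
def R (q : ℕ) : Finset ℕ := (range q).filter (fun r => dv q r)

/-- density -/
def dens (q : ℕ) : ℝ := ((R dv q).card : ℝ) / q

variable {dv}

lemma count_classes (hper : ∀ q m, dv q m ↔ dv q (m % q)) (a b : ℕ) (hab : a ≤ b) (S : Finset ℕ) :
    (∀ q ∈ S, q.Prime) → ∀ D : ℕ, 0 < D → (∀ q ∈ S, Nat.Coprime D q) → ∀ r : ℕ,
    |(((Ico a b).filter (fun m => m ≡ r [MOD D] ∧ ∀ q ∈ S, dv q m)).card : ℝ) -
      ((b : ℝ) - a) / D * ∏ q ∈ S, dens dv q| ≤ ∏ q ∈ S, ((R dv q).card : ℝ) := by
  induction S using Finset.induction_on with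
  | empty =>
    intro _ D hD _ r
    simpa using card_modEq_approx a b hab hD r
  | insert q S hq ih =>
    intro hS D hD hco r
    have hSp : ∀ q ∈ S, q.Prime := fun q' h => hS q' (mem_insert_of_mem h)
    have hqp : q.Prime := hS q (mem_insert_self _ _)
    have hcoq : Nat.Coprime D q := hco q (mem_insert_self _ _)
    have hDq : 0 < D * q := Nat.mul_pos hD hqp.pos
    have hcoS : ∀ q' ∈ S, Nat.Coprime (D * q) q' := by
      intro q' h
      refine Nat.Coprime.mul_left (hco q' (mem_insert_of_mem h)) ?_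
      rw [Nat.coprime_primes hqp (hSp q' h)]
      rintro rfl
      exact hq h
    -- split according to the residue mod `q`
    have hsplit : ((Ico a b).filter (fun m => m ≡ r [MOD D] ∧ ∀ q' ∈ insert q S, dv q' m)).card =
        ∑ ρ ∈ R dv q, ((Ico a b).filter (fun m =>
          m ≡ (Nat.chineseRemainder hcoq r ρ : ℕ) [MOD (D * q)] ∧ ∀ q' ∈ S, dv q' m)).card := by
      rw [card_eq_sum_card_fiberwise (f := fun m => m % q) (t := R dv q)]
      · refine sum_congr rfl fun ρ hρ => ?_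
        congr 1
        ext m
        have hρlt : ρ < q := mem_range.1 (mem_filter.1 hρ).1
        have hρd : dv q ρ := (mem_filter.1 hρ).2
        have hcr := (Nat.chineseRemainder hcoq r ρ).2
        simp only [mem_filter, mem_insert, forall_eq_or_imp]
        rw [← Nat.modEq_and_modEq_iff_modEq_mul hcoq]
        constructor
        · rintro ⟨⟨hm, h1, h2, h3⟩, h4⟩
          refine ⟨hm, ⟨h1.trans hcr.1.symm, ?_⟩, h3⟩
          have : m ≡ ρ [MOD q] := by
            unfold Nat.ModEq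
            rw [h4, Nat.mod_eq_of_lt hρlt]
          exact this.trans hcr.2.symm
        · rintro ⟨hm, ⟨h1, h2⟩, h3⟩
          have h4 : m ≡ ρ [MOD q] := h2.trans hcr.2
          have h5 : m % q = ρ := by
            have : m % q = ρ % q := h4
            rw [this, Nat.mod_eq_of_lt hρlt]
          refine ⟨⟨hm, h1.trans hcr.1, ?_, h3⟩, h5⟩
          rw [hper, h5]
          exact hρd
      · intro m hm
        have hm' := (mem_filter.1 hm).2
        have h1 := hm'.2 q (mem_insert_self _ _)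
        unfold R
        simp only [coe_filter, mem_range, Set.mem_ofPred_eq]
        exact ⟨Nat.mod_lt _ hqp.pos, (hper q m).1 h1⟩
    rw [hsplit, prod_insert hq, prod_insert hq]
    push_cast
    have hmain : ((b : ℝ) - a) / D * (dens dv q * ∏ q ∈ S, dens dv q) =
        ∑ ρ ∈ R dv q, ((b : ℝ) - a) / ((D * q : ℕ) : ℝ) * ∏ q ∈ S, dens dv q := by
      rw [sum_const, nsmul_eq_mul]
      have hq0 : (q : ℝ) ≠ 0 := by exact_mod_cast hqp.ne_zero
      have hD0 : (D : ℝ) ≠ 0 := by exact_mod_cast hD.ne'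
      have hdq : dens dv q = ((R dv q).card : ℝ) / q := rfl
      generalize ∏ q ∈ S, dens dv q = P
      rw [hdq]
      generalize ((R dv q).card : ℝ) = c
      rw [Nat.cast_mul]
      field_simp
    have herr : ((R dv q).card : ℝ) * ∏ q ∈ S, ((R dv q).card : ℝ) =
        ∑ ρ ∈ R dv q, ∏ q ∈ S, ((R dv q).card : ℝ) := by
      rw [sum_const, nsmul_eq_mul]
    rw [hmain, herr, ← sum_sub_distrib]
    refine (abs_sum_le_sum_abs _ _).trans (sum_le_sum fun ρ _ => ?_)
    exact ih hSp (D * q) hDq hcoS _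

theorem good_interval (hper : ∀ q m, dv q m ↔ dv q (m % q)) {K : ℝ}
    (hK : ∀ q : ℕ, q.Prime → ((R dv q).card : ℝ) ≤ K) (a b : ℕ) (hab : a ≤ b) :
    Good (Ico a b) dv Nat.Prime (dens dv) K ((b : ℝ) - a) ∅ (fun _ => (1 : ℝ)) 1 1 := by
  intro S hS
  have hSp : ∀ q ∈ S, q.Prime := fun q hq => (hS q hq).1
  have h := count_classes hper a b hab S hSp 1 one_pos (fun q _ => Nat.coprime_one_left q) 0
  have h1 : ((Ico a b).filter (fun m => m ≡ 0 [MOD 1] ∧ ∀ q ∈ S, dv q m)) =
      (Ico a b).filter (fun m => ∀ q ∈ S, dv q m) := by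
    refine filter_congr fun m _ => ?_
    simp [Nat.modEq_one]
  rw [h1, Nat.cast_one, div_one] at h
  rw [sum_const, nsmul_eq_mul, mul_one, mul_one, mul_one]
  refine h.trans ?_
  have : ∏ q ∈ S, ((R dv q).card : ℝ) ≤ ∏ _q ∈ S, K :=
    prod_le_prod (fun _ _ => Nat.cast_nonneg _) fun q hq => hK q (hSp q hq)
  simpa using this

/-! ### The quadruple polynomial -/

/-- `(m-2) m (m+4) (m+10)` as an integer -/
def F (m : ℕ) : ℤ := ((m : ℤ) - 2) * m * (m + 4) * (m + 10)

/-- divisibility of `F m` by `q` -/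
def dq (q m : ℕ) : Prop := (q : ℤ) ∣ F m

instance (q m : ℕ) : Decidable (dq q m) := by unfold dq; infer_instance

lemma dq_per (q m : ℕ) : dq q m ↔ dq q (m % q) := by
  unfold dq
  have h : F m ≡ F (m % q) [ZMOD q] := by
    unfold F
    have h1 : (m : ℤ) ≡ ((m % q : ℕ) : ℤ) [ZMOD q] := by
      push_cast
      exact (Int.mod_modEq _ _).symm
    gcongr
  exact Int.ModEq.dvd_iff h

lemma R_card_le {q : ℕ} (hq : q.Prime) : (R dq q).card ≤ 4 := by
  have hsub : R dq q ⊆ ({2, 0, -4, -10} : Finset ℤ).image (fun c => (c % (q : ℤ)).toNat) := by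
    intro r hr
    obtain ⟨hr1, hr2⟩ := mem_filter.1 hr
    have hr1 := mem_range.1 hr1
    have hqp : Prime (q : ℤ) := Nat.prime_iff_prime_int.1 hq
    have key : ∀ c : ℤ, (q : ℤ) ∣ (r : ℤ) - c → (c % (q : ℤ)).toNat = r := by
      intro c hc
      have h1 : (r : ℤ) % q = c % q := ((Int.modEq_iff_dvd).2 hc).symm
      rw [← h1, Int.emod_eq_of_lt (by positivity) (by exact_mod_cast hr1)]
      simp
    unfold dq F at hr2
    rw [mem_image]
    rcases hqp.dvd_or_dvd hr2 with h | h
    · rcases hqp.dvd_or_dvd h with h | h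
      · rcases hqp.dvd_or_dvd h with h | h
        · exact ⟨2, by simp, key 2 h⟩
        · exact ⟨0, by simp, key 0 (by simpa using h)⟩
      · exact ⟨-4, by simp, key (-4) (by simpa using h)⟩
    · exact ⟨-10, by simp, key (-10) (by simpa using h)⟩
  calc (R dq q).card ≤ _ := card_le_card hsub
    _ ≤ _ := card_image_le
    _ ≤ 4 := by decide

lemma R_card_lt {q : ℕ} (hq : q.Prime) : (R dq q).card < q := by
  by_cases h : q < 5
  · have h2 := hq.two_le
    interval_cases q
    · decide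
    · decide
    · exact absurd hq (by norm_num)
  · have := R_card_le hq
    omega

/-- the sieve density -/
def gd (q : ℕ) : ℝ := dens dq q

lemma gd_nonneg (q : ℕ) : 0 ≤ gd q := by
  unfold gd dens; positivity

lemma gd_lt_one {q : ℕ} (hq : q.Prime) : gd q < 1 := by
  unfold gd dens
  have h0 : (0 : ℝ) < q := by exact_mod_cast hq.pos
  rw [div_lt_one h0]
  exact_mod_cast R_card_lt hq

lemma gd_le {q : ℕ} (hq : q.Prime) : gd q ≤ 4 * (1 / q) := by
  unfold gd dens
  have h0 : (0 : ℝ) < q := by exact_mod_cast hq.pos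
  rw [mul_one_div]
  gcongr
  exact_mod_cast R_card_le hq

theorem good_quad (a b : ℕ) (hab : a ≤ b) :
    Good (Ico a b) dq Nat.Prime gd 4 ((b : ℝ) - a) ∅ (fun _ => (1 : ℝ)) 1 1 :=
  good_interval dq_per (fun _ hq => by exact_mod_cast R_card_le hq) a b hab

end

end Pool.Agent.Work.MP_40574a_nt.Count
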