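import Mathlib

/-! Mertens' first theorem and the upper bound in Mertens' second theorem. -/

namespace Pool.Agent.Work.MP_40574a_nt.Mertens

open Finset Real

noncomputable section

/-- `log p / p` on primes -/
def lc (n : ℕ) : ℝ := if n.Prime then Real.log n / n else 0

lemma lc_nonneg (n : ℕ) : 0 ≤ lc n := by
  unfold lc
  split_ifs
  · positivity
  · exact le_rfl

/-- `∑_{p ≤ x} log p / p` -/
def A (x : ℝ) : ℝ := ∑ n ∈ Icc 0 ⌊x⌋₊, lc n

lemma A_nat (N : ℕ) : A (N : ℝ) = ∑ p ∈ (Icc 0 N).filter Nat.Prime, Real.log p / p := by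
  unfold A lc
  rw [Nat.floor_natCast, sum_filter]

lemma log_factorial_eq (N : ℕ) : Real.log (N.factorial : ℝ) =
    ∑ p ∈ (Icc 0 N).filter Nat.Prime, (padicValNat p N.factorial : ℝ) * Real.log p := by
  rw [Real.log_nat_eq_sum_factorization]
  rw [Finsupp.sum_of_support_subset (s := (Icc 0 N).filter Nat.Prime)]
  · refine sum_congr rfl fun p hp => ?_
    rw [Nat.factorization_def _ (mem_filter.1 hp).2]
  · intro p hp
    rw [Nat.support_factorization, Nat.mem_primeFactors] at hp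
    rw [mem_filter, mem_Icc]
    exact ⟨⟨Nat.zero_le _, (hp.1.dvd_factorial).1 hp.2.1⟩, hp.1⟩
  · simp

lemma div_le_padicValNat {p N : ℕ} (hp : p.Prime) : N / p ≤ padicValNat p N.factorial := by
  haveI := Fact.mk hp
  rw [padicValNat_factorial (b := Nat.log p N + 2) (by omega)]
  have : (1 : ℕ) ∈ Ico 1 (Nat.log p N + 2) := by simp
  calc N / p = N / p ^ 1 := by rw [pow_one]
    _ ≤ _ := single_le_sum (f := fun i => N / p ^ i) (fun _ _ => Nat.zero_le _) this

lemma upper_nat {N : ℕ} (hN : 1 ≤ N) : A (N : ℝ) ≤ Real.log N + Real.log 4 := by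
  have hNpos : (0 : ℝ) < N := by exact_mod_cast hN
  have h1 : (N : ℝ) * A N ≤ Real.log (N.factorial : ℝ) + Chebyshev.theta N := by
    rw [A_nat, log_factorial_eq, mul_sum]
    have hth : Chebyshev.theta (N : ℝ) = ∑ p ∈ (Icc 0 N).filter Nat.Prime, Real.log p := by
      rw [Chebyshev.theta_eq_sum_Icc, Nat.floor_natCast]
    rw [hth, ← sum_add_distrib]
    refine sum_le_sum fun p hp => ?_
    have hp' := (mem_filter.1 hp).2
    have hp0 : (0 : ℝ) < p := by exact_mod_cast hp'.pos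
    have hlog : 0 ≤ Real.log p := Real.log_natCast_nonneg p
    have h2 : (N : ℝ) / p ≤ (padicValNat p N.factorial : ℝ) + 1 := by
      have h3 : (N : ℝ) / p < (N / p : ℕ) + 1 := by
        rw [← Nat.floor_div_eq_div (K := ℝ)]
        exact Nat.lt_floor_add_one _
      have h4 : ((N / p : ℕ) : ℝ) ≤ (padicValNat p N.factorial : ℝ) := by
        exact_mod_cast div_le_padicValNat hp'
      linarith
    calc (N : ℝ) * (Real.log p / p) = (N / p) * Real.log p := by field_simp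
      _ ≤ ((padicValNat p N.factorial : ℝ) + 1) * Real.log p := by gcongr
      _ = _ := by ring
  have h2 : Real.log (N.factorial : ℝ) ≤ N * Real.log N := by
    have : (N.factorial : ℝ) ≤ (N : ℝ) ^ N := by exact_mod_cast Nat.factorial_le_pow N
    calc Real.log (N.factorial : ℝ) ≤ Real.log ((N : ℝ) ^ N) :=
          Real.log_le_log (by exact_mod_cast N.factorial_pos) this
      _ = _ := Real.log_pow _ _
  have h3 := Chebyshev.theta_le_log4_mul_x hNpos.le
  have h4 : (N : ℝ) * A N ≤ N * (Real.log N + Real.log 4) := by nlinarith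
  exact le_of_mul_le_mul_left h4 hNpos

/-- the convergent correction -/
lemma corr_bound : ∃ C : ℝ, 0 ≤ C ∧ ∀ N : ℕ,
    ∑ p ∈ (Icc 0 N).filter Nat.Prime, Real.log p / (p * (p - 1)) ≤ C := by
  have hs : Summable (fun n : ℕ => 4 * (1 / (n : ℝ) ^ (3 / 2 : ℝ))) :=
    (Real.summable_one_div_nat_rpow.2 (by norm_num)).mul_left 4
  refine ⟨∑' n : ℕ, 4 * (1 / (n : ℝ) ^ (3 / 2 : ℝ)), tsum_nonneg fun n => by positivity,
    fun N => ?_⟩
  refine le_trans (sum_le_sum fun p hp => ?_) (hs.sum_le_tsum _ fun n _ => by positivity)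
  have hp' := (mem_filter.1 hp).2
  have hp2 : (2 : ℝ) ≤ p := by exact_mod_cast hp'.two_le
  have h1 : Real.log p ≤ (p : ℝ) ^ (1 / 2 : ℝ) / (1 / 2) := Real.log_le_rpow_div (by linarith)
    (by norm_num)
  have h2 : (p : ℝ) ^ (2 : ℕ) / 2 ≤ p * (p - 1) := by nlinarith
  have h3 : (p : ℝ) ^ (1 / 2 : ℝ) * (p : ℝ) ^ (3 / 2 : ℝ) = (p : ℝ) ^ (2 : ℕ) := by
    rw [← Real.rpow_add (by linarith), ← Real.rpow_natCast]
    norm_num
  have h4 : 0 < (p : ℝ) ^ (3 / 2 : ℝ) := Real.rpow_pos_of_pos (by linarith) _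
  have h5 : 0 < (p : ℝ) ^ (1 / 2 : ℝ) := Real.rpow_pos_of_pos (by linarith) _
  rw [div_le_iff₀ (by nlinarith), mul_one_div, div_mul_eq_mul_div, le_div_iff₀ h4]
  calc Real.log p * (p : ℝ) ^ (3 / 2 : ℝ) ≤ ((p : ℝ) ^ (1 / 2 : ℝ) / (1 / 2)) *
        (p : ℝ) ^ (3 / 2 : ℝ) := by gcongr
    _ = 2 * (p : ℝ) ^ (2 : ℕ) := by rw [← h3]; ring
    _ = 4 * ((p : ℝ) ^ (2 : ℕ) / 2) := by ring
    _ ≤ 4 * (p * (p - 1)) := by gcongr

lemma lower_nat : ∃ C : ℝ, 0 ≤ C ∧ ∀ N : ℕ, 1 ≤ N → Real.log N - C ≤ A (N : ℝ) := by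
  obtain ⟨C, hC, hcorr⟩ := corr_bound
  refine ⟨C + 1, by linarith, fun N hN => ?_⟩
  have hNpos : (0 : ℝ) < N := by exact_mod_cast hN
  have h1 : Real.log (N.factorial : ℝ) ≤
      N * ∑ p ∈ (Icc 0 N).filter Nat.Prime, Real.log p / (p - 1) := by
    rw [log_factorial_eq, mul_sum]
    refine sum_le_sum fun p hp => ?_
    have hp' := (mem_filter.1 hp).2
    haveI := Fact.mk hp'
    have hp2 : (2 : ℝ) ≤ p := by exact_mod_cast hp'.two_le
    have hlog : 0 ≤ Real.log p := Real.log_natCast_nonneg p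
    have h2 : ((p : ℝ) - 1) * (padicValNat p N.factorial : ℝ) ≤ N := by
      have h3 := sub_one_mul_padicValNat_factorial (p := p) N
      have h4 : (p - 1) * padicValNat p N.factorial ≤ N := by omega
      have h5 : (((p - 1) * padicValNat p N.factorial : ℕ) : ℝ) ≤ (N : ℝ) := by
        exact_mod_cast h4
      rw [Nat.cast_mul, Nat.cast_sub hp'.one_le] at h5
      simpa using h5
    have h6 : (padicValNat p N.factorial : ℝ) ≤ N / (p - 1) := by
      rw [le_div_iff₀ (by linarith)]; linarith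
    calc (padicValNat p N.factorial : ℝ) * Real.log p ≤ (N / (p - 1)) * Real.log p := by gcongr
      _ = N * (Real.log p / (p - 1)) := by ring
  have h2 : (N : ℝ) * Real.log N - N ≤ Real.log (N.factorial : ℝ) := by
    have := Stirling.le_log_factorial_stirling (n := N) (by omega)
    have h3 : 0 ≤ Real.log N := Real.log_natCast_nonneg N
    have h4 : 0 ≤ Real.log (2 * π) := Real.log_nonneg (by linarith [Real.pi_gt_three])
    linarith
  have h3 : ∑ p ∈ (Icc 0 N).filter Nat.Prime, Real.log p / (p - 1) ≤ A N + C := by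
    have h4 : ∀ p ∈ (Icc 0 N).filter Nat.Prime, Real.log p / ((p : ℝ) - 1) =
        Real.log p / p + Real.log p / (p * (p - 1)) := by
      intro p hp
      have hp' := (mem_filter.1 hp).2
      have hp2 : (2 : ℝ) ≤ p := by exact_mod_cast hp'.two_le
      have h5 : (p : ℝ) - 1 ≠ 0 := by linarith
      have h6 : (p : ℝ) ≠ 0 := by linarith
      field_simp
      ring
    rw [sum_congr rfl h4, sum_add_distrib, A_nat]
    linarith [hcorr N]
  have h4 : (N : ℝ) * (Real.log N - 1) ≤ N * (A N + C) := by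
    have := mul_le_mul_of_nonneg_left h3 hNpos.le
    linarith
  have h5 := le_of_mul_le_mul_left h4 hNpos
  linarith

/-- **Mertens' first theorem**. -/
theorem mertens_first : ∃ C : ℝ, 0 < C ∧ ∀ x : ℝ, 1 ≤ x → |A x - Real.log x| ≤ C := by
  obtain ⟨C, hC, hlow⟩ := lower_nat
  have hlog4 : 0 ≤ Real.log 4 := Real.log_nonneg (by norm_num)
  have hlog2 : 0 ≤ Real.log 2 := Real.log_nonneg (by norm_num)
  refine ⟨C + Real.log 4 + Real.log 2 + 1, by linarith, fun x hx => ?_⟩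
  have hN : 1 ≤ ⌊x⌋₊ := by rwa [Nat.one_le_floor_iff]
  have hNr : (1 : ℝ) ≤ ⌊x⌋₊ := by exact_mod_cast hN
  have hA : A x = A (⌊x⌋₊ : ℝ) := by
    unfold A
    rw [Nat.floor_natCast]
  have h1 : Real.log (⌊x⌋₊ : ℝ) ≤ Real.log x :=
    Real.log_le_log (by linarith) (Nat.floor_le (by linarith))
  have h2 : Real.log x ≤ Real.log (⌊x⌋₊ : ℝ) + Real.log 2 := by
    rw [← Real.log_mul (by linarith) (by norm_num)]
    refine Real.log_le_log (by linarith) ?_
    have := (Nat.lt_floor_add_one x).le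
    linarith
  rw [hA, abs_le]
  constructor
  · linarith [hlow _ hN]
  · linarith [upper_nat hN]

/-- primes in `(a, b]` -/
def PB (a b : ℝ) : Finset ℕ := (Ioc ⌊a⌋₊ ⌊b⌋₊).filter Nat.Prime

lemma mem_PB {a b : ℝ} (ha : 0 ≤ a) (hb : 0 ≤ b) {p : ℕ} :
    p ∈ PB a b ↔ p.Prime ∧ a < p ∧ (p : ℝ) ≤ b := by
  unfold PB
  rw [mem_filter, mem_Ioc, Nat.floor_lt ha, Nat.le_floor_iff hb]
  tauto

lemma sum_PB_eq (f : ℕ → ℝ) (a b : ℝ) :
    ∑ p ∈ PB a b, f p = ∑ n ∈ Ioc ⌊a⌋₊ ⌊b⌋₊, if n.Prime then f n else 0 := by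
  unfold PB
  rw [sum_filter]

lemma sum_log_PB {a b : ℝ} (hab : a ≤ b) :
    ∑ p ∈ PB a b, Real.log p / p = A b - A a := by
  rw [sum_PB_eq]
  unfold A lc
  have h1 : (Icc 0 ⌊b⌋₊) = (Icc 0 ⌊a⌋₊) ∪ (Ioc ⌊a⌋₊ ⌊b⌋₊) := by
    ext n
    have := Nat.floor_le_floor hab
    simp only [mem_Icc, mem_union, mem_Ioc]
    omega
  rw [h1, sum_union]
  · ring
  · rw [disjoint_left]
    intro n hn hn'
    simp only [mem_Icc, mem_Ioc] at hn hn'
    omega

/-- lower (and upper) bound for `∑_{a<p≤b} log p / p` -/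
theorem sum_log_bounds : ∃ C : ℝ, 0 < C ∧ ∀ a b : ℝ, 1 ≤ a → a ≤ b →
    |∑ p ∈ PB a b, Real.log p / p - (Real.log b - Real.log a)| ≤ C := by
  obtain ⟨C, hC, h⟩ := mertens_first
  refine ⟨2 * C, by linarith, fun a b ha hab => ?_⟩
  rw [sum_log_PB hab]
  have h1 := abs_le.1 (h a ha)
  have h2 := abs_le.1 (h b (by linarith))
  rw [abs_le]
  constructor <;> linarith [h1.1, h1.2, h2.1, h2.2]

/-- **Mertens' second theorem** (in the form of a two-sided estimate on `(a,b]`). -/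
theorem mertens_second : ∃ C : ℝ, 0 < C ∧ ∀ a b : ℝ, 2 ≤ a → a ≤ b →
    ∑ p ∈ PB a b, (1 : ℝ) / p ≤ Real.log (Real.log b / Real.log a) + C / Real.log a := by
  obtain ⟨C, hC, h⟩ := mertens_first
  refine ⟨2 * C, by linarith, fun a b ha hab => ?_⟩
  have hla : 0 < Real.log a := Real.log_pos (by linarith)
  have hlb : 0 < Real.log b := Real.log_pos (by linarith)
  have hlab : Real.log a ≤ Real.log b := Real.log_le_log (by linarith) hab
  have hder : ∀ t ∈ Set.Icc a b, HasDerivAt (fun t => (Real.log t)⁻¹)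
      (-(t⁻¹) / (Real.log t) ^ 2) t := by
    intro t ht
    have ht1 : 1 < t := by linarith [ht.1]
    exact (Real.hasDerivAt_log (by linarith)).inv (Real.log_pos ht1).ne'
  have hcontlog : ContinuousOn Real.log (Set.Icc a b) :=
    Real.continuousOn_log.mono (fun t ht => by
      simp only [Set.mem_compl_iff, Set.mem_singleton_iff]; linarith [ht.1])
  have hlogne : ∀ t ∈ Set.Icc a b, Real.log t ≠ 0 := fun t ht =>
    (Real.log_pos (by linarith [ht.1])).ne'
  have htne : ∀ t ∈ Set.Icc a b, t ≠ 0 := fun t ht => by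
    have := ht.1; intro h0; linarith
  have hcont1 : ContinuousOn (fun t : ℝ => -(t⁻¹) / (Real.log t) ^ 2) (Set.Icc a b) :=
    (continuousOn_id.inv₀ htne).neg.div (hcontlog.pow 2) (fun t ht => pow_ne_zero 2 (hlogne t ht))
  have hcont2 : ContinuousOn (fun t : ℝ => t⁻¹ / Real.log t) (Set.Icc a b) :=
    (continuousOn_id.inv₀ htne).div hcontlog hlogne
  have hcont3 : ContinuousOn (fun t : ℝ => t⁻¹ / (Real.log t) ^ 2) (Set.Icc a b) :=
    (continuousOn_id.inv₀ htne).div (hcontlog.pow 2) (fun t ht => pow_ne_zero 2 (hlogne t ht))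
  have hderiv : ∀ t ∈ Set.Icc a b, deriv (fun t => (Real.log t)⁻¹) t =
      -(t⁻¹) / (Real.log t) ^ 2 := fun t ht => (hder t ht).deriv
  have hint : MeasureTheory.IntegrableOn (deriv (fun t => (Real.log t)⁻¹)) (Set.Icc a b) := by
    have := hcont1.integrableOn_Icc (μ := MeasureTheory.volume)
    refine this.congr_fun (fun t ht => (hderiv t ht).symm) measurableSet_Icc
  have habel := sum_mul_eq_sub_sub_integral_mul lc (f := fun t => (Real.log t)⁻¹)
    (by linarith : 0 ≤ a) hab (fun t ht => (hder t ht).differentiableAt) hint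
  have hL : ∑ p ∈ PB a b, (1 : ℝ) / p =
      ∑ k ∈ Ioc ⌊a⌋₊ ⌊b⌋₊, (Real.log (k : ℝ))⁻¹ * lc k := by
    rw [sum_PB_eq]
    refine sum_congr rfl fun n _ => ?_
    unfold lc
    split_ifs with hn
    · have h1 : Real.log n ≠ 0 := (Real.log_pos (by exact_mod_cast hn.one_lt)).ne'
      field_simp
    · simp
  rw [hL, habel]
  -- the integral
  have hI : -∫ t in Set.Ioc a b, deriv (fun t => (Real.log t)⁻¹) t * ∑ k ∈ Icc 0 ⌊t⌋₊, lc k ≤
      (Real.log (Real.log b) - Real.log (Real.log a)) +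
        C * ((Real.log a)⁻¹ - (Real.log b)⁻¹) := by
    rw [← MeasureTheory.integral_neg]
    have hint2 : MeasureTheory.IntegrableOn
        (fun t => t⁻¹ / Real.log t + C * (t⁻¹ / (Real.log t) ^ 2)) (Set.Ioc a b) :=
      ((hcont2.integrableOn_Icc).add (hcont3.integrableOn_Icc.const_mul C)).mono_set
        Set.Ioc_subset_Icc_self
    have hint1 : MeasureTheory.IntegrableOn
        (fun t => -(deriv (fun t => (Real.log t)⁻¹) t * ∑ k ∈ Icc 0 ⌊t⌋₊, lc k))
        (Set.Ioc a b) := by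
      have := integrableOn_mul_sum_Icc lc (m := 0) (by linarith : 0 ≤ a) hint
      exact (this.neg).mono_set Set.Ioc_subset_Icc_self
    have hle : ∫ t in Set.Ioc a b,
        -(deriv (fun t => (Real.log t)⁻¹) t * ∑ k ∈ Icc 0 ⌊t⌋₊, lc k) ≤
        ∫ t in Set.Ioc a b, (t⁻¹ / Real.log t + C * (t⁻¹ / (Real.log t) ^ 2)) := by
      refine MeasureTheory.setIntegral_mono_on hint1 hint2 measurableSet_Ioc fun t ht => ?_
      have ht' : t ∈ Set.Icc a b := ⟨ht.1.le, ht.2⟩
      have ht0 : 0 < t := by linarith [ht.1]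
      have hlt : 0 < Real.log t := Real.log_pos (by linarith [ht.1])
      rw [hderiv t ht']
      have hAt : ∑ k ∈ Icc 0 ⌊t⌋₊, lc k ≤ Real.log t + C := by
        have := (abs_le.1 (h t (by linarith [ht.1]))).2
        unfold A at this
        linarith
      have hpos : 0 ≤ t⁻¹ / (Real.log t) ^ 2 := by positivity
      calc -(-(t⁻¹) / (Real.log t) ^ 2 * ∑ k ∈ Icc 0 ⌊t⌋₊, lc k)
          = t⁻¹ / (Real.log t) ^ 2 * ∑ k ∈ Icc 0 ⌊t⌋₊, lc k := by ring
        _ ≤ t⁻¹ / (Real.log t) ^ 2 * (Real.log t + C) := by gcongr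
        _ = t⁻¹ / Real.log t + C * (t⁻¹ / (Real.log t) ^ 2) := by
            field_simp
    refine hle.trans (le_of_eq ?_)
    rw [← intervalIntegral.integral_of_le hab]
    have hder2 : ∀ t ∈ Set.uIcc a b, HasDerivAt
        (fun t => Real.log (Real.log t) - C * (Real.log t)⁻¹)
        (t⁻¹ / Real.log t + C * (t⁻¹ / (Real.log t) ^ 2)) t := by
      intro t ht
      rw [Set.uIcc_of_le hab] at ht
      have ht0 : t ≠ 0 := htne t ht
      have h1 := (Real.hasDerivAt_log ht0).log (hlogne t ht)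
      have h2 := ((hder t ht).const_mul C)
      convert! h1.sub h2 using 1
      ring
    rw [intervalIntegral.integral_eq_sub_of_hasDerivAt hder2]
    · ring
    · rw [intervalIntegrable_iff_integrableOn_Ioc_of_le hab]
      exact hint2
  have hAb : (Real.log b)⁻¹ * (∑ k ∈ Icc 0 ⌊b⌋₊, lc k) ≤ 1 + C * (Real.log b)⁻¹ := by
    have := (abs_le.1 (h b (by linarith))).2
    unfold A at this
    calc (Real.log b)⁻¹ * (∑ k ∈ Icc 0 ⌊b⌋₊, lc k) ≤ (Real.log b)⁻¹ * (Real.log b + C) := by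
          gcongr; linarith
      _ = _ := by field_simp
  have hAa : 1 - C * (Real.log a)⁻¹ ≤ (Real.log a)⁻¹ * (∑ k ∈ Icc 0 ⌊a⌋₊, lc k) := by
    have := (abs_le.1 (h a (by linarith))).1
    unfold A at this
    calc 1 - C * (Real.log a)⁻¹ = (Real.log a)⁻¹ * (Real.log a - C) := by field_simp
      _ ≤ _ := by gcongr; linarith
  have hlogdiv : Real.log (Real.log b / Real.log a) =
      Real.log (Real.log b) - Real.log (Real.log a) := Real.log_div hlb.ne' hla.ne'
  rw [hlogdiv]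
  have : 2 * C / Real.log a = 2 * C * (Real.log a)⁻¹ := by rw [div_eq_mul_inv]
  rw [this]
  linarith [hI, hAb, hAa]

end

end Pool.Agent.Work.MP_40574a_nt.Mertens
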