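import Mathlib
import Pool.Agent.Work.MP_40574a_nt.BrunHooley
import Pool.Agent.Work.MP_40574a_nt.Mertens
import Pool.Agent.Work.MP_40574a_nt.Count

/-! Density estimates on blocks of primes, for the sieve of dimension four. -/

namespace Pool.Agent.Work.MP_40574a_nt.Params

open Finset BrunHooley Mertens _root_.Pool.Agent.Work.MP_40574a_nt.Count

noncomputable section

lemma log_five_thirds : Real.log (5 / 3) ≤ 0.511 := by
  rw [Real.log_le_iff_le_exp (by norm_num)]
  refine le_trans ?_ (Real.sum_le_exp_of_nonneg (by norm_num : (0 : ℝ) ≤ 0.511) 7)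
  norm_num [Finset.sum_range_succ, Nat.factorial]

lemma sum_gd_le {s : Finset ℕ} (hs : ∀ q ∈ s, q.Prime) :
    ∑ q ∈ s, gd q ≤ 4 * ∑ q ∈ s, (1 : ℝ) / q := by
  rw [mul_sum]
  exact sum_le_sum fun q hq => gd_le (hs q hq)

lemma block_sum : ∃ w0 : ℝ, 2 ≤ w0 ∧ ∀ w, w0 ≤ w → ∀ a b : ℝ, w ≤ a → a ≤ b →
    Real.log b ≤ (5 / 3) * Real.log a → ∑ q ∈ PB a b, gd q ≤ 2.05 := by
  obtain ⟨C, hC, h⟩ := mertens_second
  refine ⟨max 2 (Real.exp (800 * C)), le_max_left _ _, fun w hw a b ha hab hlog => ?_⟩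
  have hw2 : 2 ≤ w := (le_max_left _ _).trans hw
  have hw3 : Real.exp (800 * C) ≤ w := (le_max_right _ _).trans hw
  have ha2 : 2 ≤ a := hw2.trans ha
  have hla : 800 * C ≤ Real.log a := by
    rw [Real.le_log_iff_exp_le (by linarith)]
    exact hw3.trans ha
  have hla0 : 0 < Real.log a := Real.log_pos (by linarith)
  have h1 := sum_gd_le (s := PB a b) (fun q hq => (mem_filter.1 hq).2)
  have h2 := h a b ha2 hab
  have h3 : Real.log (Real.log b / Real.log a) ≤ 0.511 := by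
    refine le_trans (Real.log_le_log ?_ ?_) log_five_thirds
    · exact div_pos (Real.log_pos (by linarith)) hla0
    · rw [div_le_iff₀ hla0]; exact hlog
  have h4 : C / Real.log a ≤ 1 / 800 := by
    rw [div_le_div_iff₀ hla0 (by norm_num)]
    linarith
  norm_num at h4 ⊢
  linarith

/-- `1 - x ≥ exp (-x - 2x²)` for `0 ≤ x ≤ 1/2`. -/
lemma exp_le_one_sub {x : ℝ} (hx : 0 ≤ x) (hx1 : x ≤ 1 / 2) :
    Real.exp (-(x + 2 * x ^ 2)) ≤ 1 - x := by
  have hpos : 0 < 1 - x := by linarith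
  rw [← Real.le_log_iff_exp_le hpos]
  have h1 := Real.one_sub_inv_le_log_of_pos hpos
  have h2 : (1 - x)⁻¹ ≤ 1 + x + 2 * x ^ 2 := by
    rw [inv_le_comm₀ hpos (by positivity)]
    rw [inv_le_iff_one_le_mul₀ (by positivity)]
    nlinarith [mul_nonneg hx hx, mul_nonneg (mul_nonneg hx hx) (by linarith : 0 ≤ 1 - 2 * x)]
  linarith

lemma V_ge_exp {s : Finset ℕ} (hs : ∀ q ∈ s, q.Prime ∧ 8 ≤ q) :
    Real.exp (-(∑ q ∈ s, gd q + 2 * ∑ q ∈ s, gd q ^ 2)) ≤ V gd s := by
  unfold V
  have : -(∑ q ∈ s, gd q + 2 * ∑ q ∈ s, gd q ^ 2) = ∑ q ∈ s, (-(gd q + 2 * gd q ^ 2)) := by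
    rw [sum_neg_distrib, sum_add_distrib, mul_sum]
  rw [this, Real.exp_sum]
  refine prod_le_prod (fun q _ => (Real.exp_pos _).le) fun q hq => ?_
  refine exp_le_one_sub (gd_nonneg q) ((gd_le (hs q hq).1).trans ?_)
  have : (8 : ℝ) ≤ q := by exact_mod_cast (hs q hq).2
  rw [mul_one_div, div_le_div_iff₀ (by linarith) (by norm_num)]
  linarith

lemma V_pos {s : Finset ℕ} (hs : ∀ q ∈ s, q.Prime) : 0 < V gd s := by
  unfold V
  exact prod_pos fun q hq => by linarith [gd_lt_one (hs q hq)]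

lemma PB_prime {a b : ℝ} : ∀ q ∈ PB a b, q.Prime := fun _ hq => (mem_filter.1 hq).2

lemma block_V {w a b : ℝ} (hw : 2000 ≤ w) (ha : w ≤ a) (hab : a ≤ b)
    (hsum : ∑ q ∈ PB a b, gd q ≤ 2.05) : Real.exp (-2.06) ≤ V gd (PB a b) := by
  have hmem : ∀ q ∈ PB a b, q.Prime ∧ a < q := fun q hq =>
    ⟨PB_prime q hq, ((mem_PB (by linarith) (by linarith)).1 hq).2.1⟩
  refine le_trans ?_ (V_ge_exp fun q hq => ⟨(hmem q hq).1, ?_⟩)
  · rw [Real.exp_le_exp]
    have h1 : ∑ q ∈ PB a b, gd q ^ 2 ≤ (1 / 500) * ∑ q ∈ PB a b, gd q := by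
      rw [mul_sum]
      refine sum_le_sum fun q hq => ?_
      have h0 := gd_nonneg q
      have h2 : gd q ≤ 1 / 500 := by
        refine (gd_le (hmem q hq).1).trans ?_
        have : (2000 : ℝ) ≤ q := by linarith [(hmem q hq).2]
        rw [mul_one_div, div_le_div_iff₀ (by linarith) (by norm_num)]
        linarith
      nlinarith
    norm_num at hsum ⊢
    linarith
  · have : (8 : ℝ) < q := by linarith [(hmem q hq).2]
    exact_mod_cast this.le

/-- few primes up to `x` -/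
lemma card_PB_le : ∃ w0 : ℝ, ∀ a x : ℝ, w0 ≤ x → 1 + 4 * ((PB a x).card : ℝ) ≤ x := by
  have h1 := Chebyshev.eventually_primeCounting_le (ε := 1) one_pos
  have h2 : ∀ᶠ x : ℝ in Filter.atTop, 8 * (Real.log 4 + 1) ≤ Real.log x :=
    Real.tendsto_log_atTop.eventually_ge_atTop _
  obtain ⟨w0, hw0⟩ := Filter.eventually_atTop.1 (h1.and h2)
  refine ⟨max w0 2, fun a x hx => ?_⟩
  obtain ⟨h3, h4⟩ := hw0 x ((le_max_left _ _).trans hx)
  have hx2 : 2 ≤ x := (le_max_right _ _).trans hx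
  have h5 : ((PB a x).card : ℝ) ≤ Nat.primeCounting ⌊x⌋₊ := by
    have : (PB a x).card ≤ Nat.primeCounting ⌊x⌋₊ := by
      rw [Nat.primeCounting, Nat.primeCounting', Nat.count_eq_card_filter_range]
      refine card_le_card fun q hq => ?_
      unfold PB at hq
      rw [mem_filter, mem_Ioc] at hq
      rw [mem_filter, mem_range]
      exact ⟨by omega, hq.2⟩
    exact_mod_cast this
  have hl4 : 0 ≤ Real.log 4 := Real.log_nonneg (by norm_num)
  have hlx : 0 < Real.log x := by linarith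
  have h6 : (Real.log 4 + 1) * x / Real.log x ≤ x / 8 := by
    rw [div_le_div_iff₀ hlx (by norm_num)]
    nlinarith
  linarith

/-- lower bound for the full product -/
lemma V_lower {w : ℝ} (hw : 8 ≤ w) : ∃ c : ℝ, 0 < c ∧ ∀ z : ℝ, w ≤ z →
    c / (Real.log z) ^ 4 ≤ V gd (PB w z) := by
  obtain ⟨C, hC, h⟩ := mertens_second
  have hs : Summable (fun n : ℕ => 1 / (n : ℝ) ^ 2) := Real.summable_one_div_nat_pow.2 (by norm_num)
  set T := ∑' n : ℕ, 1 / (n : ℝ) ^ 2 with hT
  have hlw : 0 < Real.log w := Real.log_pos (by linarith)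
  refine ⟨(Real.log w) ^ 4 * Real.exp (-(4 * (C / Real.log w) + 32 * T)), by positivity,
    fun z hz => ?_⟩
  have hlz : 0 < Real.log z := Real.log_pos (by linarith)
  have hmem : ∀ q ∈ PB w z, q.Prime ∧ w < q := fun q hq =>
    ⟨PB_prime q hq, ((mem_PB (by linarith) (by linarith)).1 hq).2.1⟩
  refine le_trans ?_ (V_ge_exp fun q hq => ⟨(hmem q hq).1, ?_⟩)
  · have h1 := sum_gd_le (s := PB w z) PB_prime
    have h2 := h w z (by linarith) hz
    have h3 : ∑ q ∈ PB w z, gd q ^ 2 ≤ 16 * T := by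
      calc ∑ q ∈ PB w z, gd q ^ 2 ≤ ∑ q ∈ PB w z, 16 * (1 / (q : ℝ) ^ 2) := by
            refine sum_le_sum fun q hq => ?_
            have h4 := gd_le (hmem q hq).1
            have h5 := gd_nonneg q
            calc gd q ^ 2 ≤ (4 * (1 / (q : ℝ))) ^ 2 := by gcongr
              _ = _ := by ring
        _ = 16 * ∑ q ∈ PB w z, 1 / (q : ℝ) ^ 2 := by rw [mul_sum]
        _ ≤ 16 * T := by
            gcongr
            exact hs.sum_le_tsum _ fun n _ => by positivity
    have h6 : Real.exp (-(4 * Real.log (Real.log z / Real.log w) +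
        (4 * (C / Real.log w) + 32 * T))) =
        (Real.log w) ^ 4 * Real.exp (-(4 * (C / Real.log w) + 32 * T)) / (Real.log z) ^ 4 := by
      rw [neg_add, Real.exp_add]
      have h7 : Real.exp (-(4 * Real.log (Real.log z / Real.log w))) =
          (Real.log w) ^ 4 / (Real.log z) ^ 4 := by
        have h8 : -(4 * Real.log (Real.log z / Real.log w)) =
            Real.log ((Real.log w / Real.log z) ^ 4) := by
          rw [Real.log_pow, ← inv_div (Real.log z) (Real.log w), Real.log_inv]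
          push_cast
          ring
        rw [h8, Real.exp_log (by positivity), div_pow]
      rw [h7]
      ring
    rw [← h6, Real.exp_le_exp]
    linarith
  · have : (8 : ℝ) < q := by linarith [(hmem q hq).2]
    exact_mod_cast this.le

end

end Pool.Agent.Work.MP_40574a_nt.Params
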