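import Mathlib
import Pool.Agent.Work.MP_40574a_nt.Params

/-! The sieve of dimension four with explicit parameters. -/

namespace Pool.Agent.Work.MP_40574a_nt.SieveMain

open Finset BrunHooley Mertens _root_.Pool.Agent.Work.MP_40574a_nt.Count Params

noncomputable section

/-- block boundaries -/
def Z (z : ℝ) (j : ℕ) : ℝ := Real.exp ((3 / 5 : ℝ) ^ j * Real.log z)

/-- blocks of primes -/
def Blk (w z : ℝ) (J j : ℕ) : Finset ℕ :=
  if j < J then PB (max w (Z z (j + 1))) (Z z j) else if j = J then PB 1 w else ∅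

/-- truncation parameters -/
def bb (w : ℝ) (J j : ℕ) : ℕ := if j < J then 4 + j / 3 else (PB 1 w).card

lemma Z_zero {z : ℝ} (hz : 0 < z) : Z z 0 = z := by
  simp [Z, Real.exp_log hz]

lemma Z_pos (z : ℝ) (j : ℕ) : 0 < Z z j := Real.exp_pos _

lemma log_Z (z : ℝ) (j : ℕ) : Real.log (Z z j) = (3 / 5 : ℝ) ^ j * Real.log z := by
  simp [Z]

lemma Z_anti {z : ℝ} (hz : 1 ≤ z) {i j : ℕ} (hij : i ≤ j) : Z z j ≤ Z z i := by
  unfold Z
  rw [Real.exp_le_exp]
  have h1 : (3 / 5 : ℝ) ^ j ≤ (3 / 5 : ℝ) ^ i := pow_le_pow_of_le_one (by norm_num) (by norm_num) hij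
  exact mul_le_mul_of_nonneg_right h1 (Real.log_nonneg hz)

lemma exists_J {w : ℝ} (z : ℝ) (hw : 2 ≤ w) : ∃ J : ℕ, Z z J ≤ w ∧ ∀ j < J, w < Z z j := by
  classical
  have hlw : 0 < Real.log w := Real.log_pos (by linarith)
  have hex : ∃ j : ℕ, Z z j ≤ w := by
    have h1 : Filter.Tendsto (fun j : ℕ => (3 / 5 : ℝ) ^ j * Real.log z) Filter.atTop
        (nhds (0 * Real.log z)) :=
      (tendsto_pow_atTop_nhds_zero_of_lt_one (by norm_num) (by norm_num)).mul_const _
    rw [zero_mul] at h1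
    obtain ⟨j, hj⟩ := (h1.eventually (gt_mem_nhds hlw)).exists
    refine ⟨j, ?_⟩
    unfold Z
    rw [← Real.le_log_iff_exp_le (by linarith)]
    exact hj.le
  refine ⟨Nat.find hex, Nat.find_spec hex, fun j hj => ?_⟩
  exact not_le.1 (Nat.find_min hex hj)

lemma J_le {w z : ℝ} (hw : 2000 ≤ w) (hz : w ≤ z) {J : ℕ} (hJ : ∀ j < J, w < Z z j) :
    (J : ℝ) ≤ z := by
  rcases Nat.eq_zero_or_pos J with rfl | hpos
  · simp; linarith
  obtain ⟨k, rfl⟩ : ∃ k, J = k + 1 := ⟨J - 1, by omega⟩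
  have h1 := hJ k (by omega)
  have hz0 : 0 < z := by linarith
  have hlw : 1 ≤ Real.log w := by
    rw [Real.le_log_iff_exp_le (by linarith)]
    linarith [Real.exp_one_lt_d9]
  have h2 : 1 < (3 / 5 : ℝ) ^ k * Real.log z := by
    have := Real.log_lt_log (by linarith) h1
    rw [log_Z] at this
    linarith
  have h3 : 1 + (k : ℝ) * (2 / 3) ≤ (5 / 3 : ℝ) ^ k := by
    have := one_add_mul_le_pow (a := (2 / 3 : ℝ)) (by norm_num) k
    norm_num at this ⊢
    linarith
  have h4 : (5 / 3 : ℝ) ^ k < Real.log z := by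
    have h5 : (5 / 3 : ℝ) ^ k * (3 / 5 : ℝ) ^ k = 1 := by
      rw [← mul_pow]; norm_num
    have h6 : 0 < (5 / 3 : ℝ) ^ k := by positivity
    calc (5 / 3 : ℝ) ^ k = (5 / 3 : ℝ) ^ k * 1 := by ring
      _ < (5 / 3 : ℝ) ^ k * ((3 / 5 : ℝ) ^ k * Real.log z) := by gcongr
      _ = Real.log z := by rw [← mul_assoc, h5, one_mul]
  have h5 : Real.log z ≤ z / 2 := by
    have h7 := Real.log_le_rpow_div (x := z) hz0.le (ε := 1 / 2) (by norm_num)
    have h8 : (z ^ (1 / 2 : ℝ)) ^ 2 = z := by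
      rw [← Real.rpow_natCast, ← Real.rpow_mul hz0.le]
      norm_num
    have h9 : 4 ≤ z ^ (1 / 2 : ℝ) := by
      by_contra hcon
      push Not at hcon
      have h10 : 0 ≤ z ^ (1 / 2 : ℝ) := Real.rpow_nonneg hz0.le _
      nlinarith
    nlinarith
  push_cast
  nlinarith

/-! ### Numerical sums -/

lemma sum_three (h : ℕ → ℝ) (k : ℕ) : ∑ j ∈ range (3 * k), h j =
    ∑ i ∈ range k, (h (3 * i) + h (3 * i + 1) + h (3 * i + 2)) := by
  induction k with
  | zero => simp
  | succ k ih =>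
    rw [show 3 * (k + 1) = 3 * k + 1 + 1 + 1 by ring, sum_range_succ, sum_range_succ,
      sum_range_succ, ih, sum_range_succ]
    ring

lemma sum_U (J : ℕ) : ∑ j ∈ range J, (2 * ((4 + j / 3 : ℕ) : ℝ)) * (3 / 5 : ℝ) ^ j ≤ 21.378 := by
  have h1 : ∑ j ∈ range J, (2 * ((4 + j / 3 : ℕ) : ℝ)) * (3 / 5 : ℝ) ^ j ≤
      ∑ j ∈ range (3 * J), (2 * ((4 + j / 3 : ℕ) : ℝ)) * (3 / 5 : ℝ) ^ j :=
    sum_le_sum_of_subset_of_nonneg (range_subset_range.2 (by omega)) fun j _ _ => by positivity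
  refine h1.trans ?_
  rw [sum_three]
  have h2 : ∀ k : ℕ, ∑ i ∈ range k, ((2 * ((4 + 3 * i / 3 : ℕ) : ℝ)) * (3 / 5 : ℝ) ^ (3 * i) +
      (2 * ((4 + (3 * i + 1) / 3 : ℕ) : ℝ)) * (3 / 5 : ℝ) ^ (3 * i + 1) +
      (2 * ((4 + (3 * i + 2) / 3 : ℕ) : ℝ)) * (3 / 5 : ℝ) ^ (3 * i + 2)) ≤
      21.378 - (27 / 125 : ℝ) ^ k * (21.378 + 5 * k) := by
    intro k
    induction k with
    | zero => norm_num
    | succ k ih =>
      rw [sum_range_succ]
      have e1 : 3 * k / 3 = k := by omega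
      have e2 : (3 * k + 1) / 3 = k := by omega
      have e3 : (3 * k + 2) / 3 = k := by omega
      rw [e1, e2, e3]
      have e4 : (3 / 5 : ℝ) ^ (3 * k) = (27 / 125 : ℝ) ^ k := by
        rw [pow_mul]; norm_num
      have e5 : (3 / 5 : ℝ) ^ (3 * k + 1) = (27 / 125 : ℝ) ^ k * (3 / 5) := by
        rw [pow_succ, e4]
      have e6 : (3 / 5 : ℝ) ^ (3 * k + 2) = (27 / 125 : ℝ) ^ k * (9 / 25) := by
        rw [show 3 * k + 2 = 3 * k + 1 + 1 by ring, pow_succ, e5]; ring
      rw [e4, e5, e6, pow_succ]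
      have hp : 0 < (27 / 125 : ℝ) ^ k := by positivity
      push_cast at ih ⊢
      set s := (27 / 125 : ℝ) ^ k
      have hkey : 2 * (4 + (k : ℝ)) * s + 2 * (4 + (k : ℝ)) * (s * (3 / 5)) +
          2 * (4 + (k : ℝ)) * (s * (9 / 25)) ≤
          s * (21.378 + 5 * k) - s * (27 / 125) * (21.378 + 5 * (k + 1)) := by
        have : s * (21.378 + 5 * k) - s * (27 / 125) * (21.378 + 5 * (k + 1)) -
            (2 * (4 + (k : ℝ)) * s + 2 * (4 + (k : ℝ)) * (s * (3 / 5)) +
            2 * (4 + (k : ℝ)) * (s * (9 / 25))) = s * 0.000352 := by ring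
        nlinarith
      linarith
  refine (h2 J).trans ?_
  have : 0 ≤ (27 / 125 : ℝ) ^ J * (21.378 + 5 * J) := by positivity
  linarith

/-- the ratio -/
def rho : ℝ := (2.05) ^ 2 / 110

/-- the leading coefficient -/
def c9 : ℝ := 7.87 * ((2.05) ^ 9 / 362880)

lemma sum_tau (J : ℕ) : ∑ j ∈ range J, c9 * rho ^ (j / 3) ≤ 0.044 := by
  have hr : 0 ≤ rho := by unfold rho; positivity
  have hc : 0 ≤ c9 := by unfold c9; positivity
  have h1 : ∑ j ∈ range J, c9 * rho ^ (j / 3) ≤ ∑ j ∈ range (3 * J), c9 * rho ^ (j / 3) :=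
    sum_le_sum_of_subset_of_nonneg (range_subset_range.2 (by omega)) fun j _ _ => by positivity
  refine h1.trans ?_
  rw [sum_three]
  have h2 : ∀ k : ℕ, ∑ i ∈ range k, (c9 * rho ^ (3 * i / 3) + c9 * rho ^ ((3 * i + 1) / 3) +
      c9 * rho ^ ((3 * i + 2) / 3)) ≤ 0.044 - 0.044 * rho ^ k := by
    intro k
    induction k with
    | zero => norm_num
    | succ k ih =>
      rw [sum_range_succ]
      have e1 : 3 * k / 3 = k := by omega
      have e2 : (3 * k + 1) / 3 = k := by omega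
      have e3 : (3 * k + 2) / 3 = k := by omega
      rw [e1, e2, e3, pow_succ]
      have hp : 0 ≤ rho ^ k := by positivity
      have h3 : 3 * c9 + 0.044 * rho ≤ 0.044 := by
        unfold c9 rho
        norm_num
      nlinarith
  refine (h2 J).trans ?_
  have : 0 ≤ rho ^ J := by positivity
  linarith

lemma exp_206 : Real.exp 2.06 ≤ 7.87 := by
  have h1 : Real.exp 2.06 = Real.exp 1 * Real.exp 1 * Real.exp 0.06 := by
    rw [← Real.exp_add, ← Real.exp_add]; norm_num
  have h2 : Real.exp 0.06 ≤ 1 / (1 - 0.06) :=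
    (Real.exp_bound_div_one_sub_of_interval' (by norm_num) (by norm_num)).le
  have h3 := Real.exp_one_lt_d9
  have h4 : 0 < Real.exp 1 := Real.exp_pos 1
  have h5 : 0 < Real.exp 0.06 := Real.exp_pos _
  rw [h1]
  calc Real.exp 1 * Real.exp 1 * Real.exp 0.06 ≤ 2.7182818286 * 2.7182818286 * (1 / (1 - 0.06)) := by
        gcongr
    _ ≤ 7.87 := by norm_num

lemma pow_div_factorial_le (i : ℕ) :
    (2.05 : ℝ) ^ (2 * (4 + i) + 1) / ((2 * (4 + i) + 1).factorial : ℝ) ≤
      ((2.05) ^ 9 / 362880) * rho ^ i := by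
  induction i with
  | zero => norm_num [Nat.factorial]
  | succ i ih =>
    have e1 : 2 * (4 + (i + 1)) + 1 = (2 * (4 + i) + 1) + 1 + 1 := by ring
    rw [e1, Nat.factorial_succ, Nat.factorial_succ, pow_succ, pow_succ, pow_succ rho]
    have hpos : (0 : ℝ) < ((2 * (4 + i) + 1).factorial : ℝ) := by
      exact_mod_cast Nat.factorial_pos _
    have hi : (0 : ℝ) ≤ i := Nat.cast_nonneg i
    have h1 : (2.05 : ℝ) ^ (2 * (4 + i) + 1) * 2.05 * 2.05 /
        (((2 * (4 + i) + 1 + 1 + 1 : ℕ) * ((2 * (4 + i) + 1 + 1 : ℕ) *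
          (2 * (4 + i) + 1).factorial) : ℕ) : ℝ) =
        ((2.05 : ℝ) ^ (2 * (4 + i) + 1) / ((2 * (4 + i) + 1).factorial : ℝ)) *
          (2.05 ^ 2 / ((2 * (4 + i) + 1 + 1 + 1 : ℕ) * (2 * (4 + i) + 1 + 1 : ℕ))) := by
      push_cast
      field_simp
    rw [h1]
    have h2 : (2.05 : ℝ) ^ 2 / ((2 * (4 + i) + 1 + 1 + 1 : ℕ) * (2 * (4 + i) + 1 + 1 : ℕ)) ≤
        rho := by
      unfold rho
      refine div_le_div_of_nonneg_left (by positivity) (by norm_num) ?_
      push_cast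
      nlinarith
    have h3 : 0 ≤ rho := by unfold rho; positivity
    have h4 : (0 : ℝ) ≤ ((2.05) ^ 9 / 362880) * rho ^ i := by positivity
    rw [← mul_assoc]
    exact mul_le_mul ih h2 (by positivity) h4

/-! ### Block properties -/

section blocks

variable {w z : ℝ} {J : ℕ}

lemma Blk_lt {j : ℕ} (h : j < J) : Blk w z J j = PB (max w (Z z (j + 1))) (Z z j) := by
  simp [Blk, h]

lemma Blk_eq : Blk w z J J = PB 1 w := by simp [Blk]

lemma Blk_gt {j : ℕ} (h : J < j) : Blk w z J j = ∅ := by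
  unfold Blk
  rw [if_neg (by omega), if_neg (by omega)]

lemma Blk_prime (j : ℕ) : ∀ q ∈ Blk w z J j, q.Prime := by
  intro q hq
  unfold Blk at hq
  split_ifs at hq
  · exact PB_prime q hq
  · exact PB_prime q hq
  · simp at hq

lemma mem_Blk_lt (hw : 0 ≤ w) {j : ℕ} (h : j < J) {q : ℕ} :
    q ∈ Blk w z J j ↔ q.Prime ∧ (w < q ∧ Z z (j + 1) < q) ∧ (q : ℝ) ≤ Z z j := by
  rw [Blk_lt h, mem_PB (hw.trans (le_max_left _ _)) (Z_pos z j).le, max_lt_iff]

lemma mem_Blk_eq (hw : 0 ≤ w) {q : ℕ} : q ∈ Blk w z J J ↔ q.Prime ∧ 1 < (q : ℝ) ∧ (q : ℝ) ≤ w := by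
  rw [Blk_eq, mem_PB zero_le_one hw]

lemma Blk_disj (hw : 0 ≤ w) (hz : 1 ≤ z) : ∀ i j, i < j → Disjoint (Blk w z J i) (Blk w z J j) := by
  intro i j hij
  rw [disjoint_left]
  intro q hqi hqj
  rcases lt_trichotomy j J with h | h | h
  · rw [mem_Blk_lt hw h] at hqj
    rw [mem_Blk_lt hw (hij.trans h)] at hqi
    have := Z_anti hz (show i + 1 ≤ j by omega)
    linarith [hqi.2.1.2, hqj.2.2]
  · subst h
    rw [mem_Blk_eq hw] at hqj
    rw [mem_Blk_lt hw hij] at hqi
    linarith [hqi.2.1.1, hqj.2.2]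
  · rw [Blk_gt h] at hqj
    simp at hqj

lemma Qs_eq (hw : 1 ≤ w) (hz : w ≤ z) (hJ : Z z J ≤ w) :
    Qs (Blk w z J) (J + 1) = PB 1 z := by
  have hw0 : 0 ≤ w := by linarith
  have hz1 : 1 ≤ z := by linarith
  have hz0 : 0 < z := by linarith
  ext q
  unfold Qs
  rw [mem_biUnion, mem_PB zero_le_one hz0.le]
  constructor
  · rintro ⟨j, hj, hq⟩
    have hj := mem_range.1 hj
    rcases Nat.lt_or_ge j J with h | h
    · rw [mem_Blk_lt hw0 h] at hq
      refine ⟨hq.1, by linarith [hq.2.1.1], ?_⟩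
      have := Z_anti hz1 (Nat.zero_le j)
      rw [Z_zero hz0] at this
      linarith [hq.2.2]
    · have : j = J := by omega
      subst this
      rw [mem_Blk_eq hw0] at hq
      exact ⟨hq.1, hq.2.1, by linarith [hq.2.2]⟩
  · rintro ⟨hqp, hq1, hqz⟩
    by_cases hqw : (q : ℝ) ≤ w
    · exact ⟨J, mem_range.2 (by omega), (mem_Blk_eq hw0).2 ⟨hqp, hq1, hqw⟩⟩
    · push Not at hqw
      have claim : ∀ k ≤ J, (q : ℝ) ≤ Z z k ∨ ∃ j < k, Z z (j + 1) < q ∧ (q : ℝ) ≤ Z z j := by
        intro k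
        induction k with
        | zero => intro _; left; rw [Z_zero hz0]; exact hqz
        | succ k ih =>
          intro hk
          rcases ih (by omega) with h | ⟨j, hj, h1, h2⟩
          · rcases le_or_gt (q : ℝ) (Z z (k + 1)) with h' | h'
            · exact Or.inl h'
            · exact Or.inr ⟨k, by omega, h', h⟩
          · exact Or.inr ⟨j, by omega, h1, h2⟩
      rcases claim J le_rfl with h | ⟨j, hj, h1, h2⟩
      · linarith
      · exact ⟨j, mem_range.2 (by omega), (mem_Blk_lt hw0 hj).2 ⟨hqp, ⟨hqw, h1⟩, h2⟩⟩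

lemma prod_V_eq (hw : 1 ≤ w) (hz : w ≤ z) (hJ : Z z J ≤ w) :
    ∏ j ∈ range (J + 1), V gd (Blk w z J j) = V gd (PB 1 w) * V gd (PB w z) := by
  have h1 : ∏ j ∈ range (J + 1), V gd (Blk w z J j) = V gd (Qs (Blk w z J) (J + 1)) := by
    unfold V Qs
    rw [prod_biUnion]
    intro i _ j _ hij
    rcases lt_or_gt_of_ne hij with h | h
    · exact Blk_disj (by linarith) (by linarith) i j h
    · exact (Blk_disj (by linarith) (by linarith) j i h).symm
  rw [h1, Qs_eq hw hz hJ]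
  unfold V
  have h2 : PB 1 z = PB 1 w ∪ PB w z := by
    ext q
    rw [mem_union, mem_PB zero_le_one (by linarith), mem_PB zero_le_one (by linarith),
      mem_PB (by linarith) (by linarith)]
    constructor
    · rintro ⟨h, h1, h2⟩
      rcases le_or_gt (q : ℝ) w with h3 | h3
      · exact Or.inl ⟨h, h1, h3⟩
      · exact Or.inr ⟨h, h3, h2⟩
    · rintro (⟨h, h1, h2⟩ | ⟨h, h1, h2⟩)
      · exact ⟨h, h1, by linarith⟩
      · exact ⟨h, by linarith, h2⟩
  rw [h2, prod_union]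
  rw [disjoint_left]
  intro q hq hq'
  rw [mem_PB zero_le_one (by linarith)] at hq
  rw [mem_PB (by linarith) (by linarith)] at hq'
  linarith [hq.2.2, hq'.2.1]

end blocks

/-- survive the sieve up to `z` -/
def Sft (z : ℝ) (m : ℕ) : Prop := ∀ q : ℕ, q.Prime → (q : ℝ) ≤ z → ¬ dq q m

lemma sifted_iff {w z : ℝ} {J : ℕ} (hw : 1 ≤ w) (hz : w ≤ z) (hJ : Z z J ≤ w) (m : ℕ) :
    Sifted dq (Blk w z J) (J + 1) m ↔ Sft z m := by
  unfold Sifted Sft
  rw [Qs_eq hw hz hJ]
  constructor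
  · intro h q hq hqz
    refine h q ((mem_PB zero_le_one (by linarith)).2 ⟨hq, ?_, hqz⟩)
    exact_mod_cast hq.one_lt
  · intro h q hq
    rw [mem_PB zero_le_one (by linarith)] at hq
    exact h q hq.1 hq.2.2

/-- The two-sided sieve estimate. -/
theorem sieve_main : ∃ c C z0 : ℝ, 0 < c ∧ 0 < C ∧ 2 ≤ z0 ∧ ∀ z : ℝ, z0 ≤ z → ∃ MU : ℝ,
    c / (Real.log z) ^ 4 ≤ MU ∧ ∀ a b : ℕ, a ≤ b →
    (∀ S : Finset ℕ, (∀ m ∈ Ico a b, Sft z m → m ∈ S) →
      0.956 * ((b : ℝ) - a) * MU - C * z ^ 24 ≤ (S.card : ℝ)) ∧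
    (∀ q : ℕ, q.Prime → z < q → ∀ S : Finset ℕ, S ⊆ Ico a b → (∀ m ∈ S, Sft z m ∧ dq q m) →
      (S.card : ℝ) ≤ ((b : ℝ) - a) * gd q * MU + C * Real.exp (21.378 * Real.log z)) := by
  obtain ⟨w1, hw1, hblock⟩ := block_sum
  obtain ⟨w2, hcard⟩ := card_PB_le
  set w := max 2000 (max w1 w2) with hw
  have hw2000 : 2000 ≤ w := le_max_left _ _
  have hww1 : w1 ≤ w := (le_max_left _ _).trans (le_max_right _ _)
  have hww2 : w2 ≤ w := (le_max_right _ _).trans (le_max_right _ _)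
  obtain ⟨c, hc, hV⟩ := V_lower (w := w) (by linarith)
  set D : ℝ := (1 + 4) ^ (PB 1 w).card with hD
  have hDpos : 0 < D := by positivity
  have hVw : 0 < V gd (PB 1 w) := V_pos PB_prime
  refine ⟨V gd (PB 1 w) * c, 2 * D + 4 * D, w, by positivity, by positivity, by linarith,
    fun z hz => ?_⟩
  have hz1 : 1 ≤ z := by linarith
  have hz0 : 0 < z := by linarith
  have hlz : 0 < Real.log z := Real.log_pos (by linarith)
  obtain ⟨J, hJ1, hJ2⟩ := exists_J z (show 2 ≤ w by linarith)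
  set B := Blk w z J with hB
  set b' := bb w J with hb'
  have hg : ∀ j, ∀ q ∈ B j, 0 ≤ gd q := fun j q _ => gd_nonneg q
  have hg1 : ∀ j, ∀ q ∈ B j, gd q < 1 := fun j q hq => gd_lt_one (Blk_prime j q hq)
  have hdis := Blk_disj (w := w) (z := z) (J := J) (by linarith) hz1
  have hbj : ∀ j, J ≤ j → b' j = (PB 1 w).card := by
    intro j hj; rw [hb']; unfold bb; rw [if_neg (by omega)]
  have hbj' : ∀ j, j < J → b' j = 4 + j / 3 := by
    intro j hj; rw [hb']; unfold bb; rw [if_pos hj]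
  have hcardJ : ∀ j, J ≤ j → (B j).card < 2 * b' j + 1 := by
    intro j hj
    rw [hbj j hj]
    rcases Nat.eq_or_lt_of_le hj with h | h
    · subst h
      rw [hB, Blk_eq]; omega
    · rw [hB, Blk_gt h]; simp
  -- block sums for the large blocks
  have hsum : ∀ j < J, ∑ q ∈ B j, gd q ≤ 2.05 := by
    intro j hj
    rw [hB, Blk_lt hj]
    refine hblock w hww1 _ _ (le_max_left _ _) (max_le (hJ2 j hj).le (Z_anti hz1 (by omega))) ?_
    have h1 : Real.log (Z z (j + 1)) ≤ Real.log (max w (Z z (j + 1))) :=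
      Real.log_le_log (Z_pos _ _) (le_max_right _ _)
    rw [log_Z] at h1 ⊢
    rw [pow_succ] at h1
    nlinarith
  have hVj : ∀ j < J, Real.exp (-2.06) ≤ V gd (B j) := by
    intro j hj
    have := hsum j hj
    rw [hB, Blk_lt hj] at this ⊢
    exact block_V hw2000 (le_max_left _ _) (max_le (hJ2 j hj).le (Z_anti hz1 (by omega))) this
  -- the tau's
  set τ : ℕ → ℝ := fun j => if j < J then c9 * rho ^ (j / 3) else 0 with hτdef
  have hτ : ∀ j, es gd (B j) (2 * b' j + 1) ≤ τ j * V gd (B j) := by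
    intro j
    by_cases hj : j < J
    · simp only [hτdef, if_pos hj]
      rw [hbj' j hj]
      have h1 := es_le_pow (hg j) (2 * (4 + j / 3) + 1)
      have hs0 : 0 ≤ ∑ q ∈ B j, gd q := sum_nonneg (hg j)
      have h2 : (∑ q ∈ B j, gd q) ^ (2 * (4 + j / 3) + 1) ≤ (2.05 : ℝ) ^ (2 * (4 + j / 3) + 1) :=
        pow_le_pow_left₀ hs0 (hsum j hj) _
      have hfpos : (0 : ℝ) < ((2 * (4 + j / 3) + 1).factorial : ℝ) := by
        exact_mod_cast Nat.factorial_pos _
      have h3 : es gd (B j) (2 * (4 + j / 3) + 1) ≤ ((2.05) ^ 9 / 362880) * rho ^ (j / 3) := by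
        refine h1.trans ((div_le_div_of_nonneg_right h2 hfpos.le).trans ?_)
        exact pow_div_factorial_le (j / 3)
      have h4 := hVj j hj
      have h5 : 1 ≤ 7.87 * V gd (B j) := by
        have h6 : Real.exp 2.06 * Real.exp (-2.06) = 1 := by
          rw [← Real.exp_add]; norm_num
        calc 1 = Real.exp 2.06 * Real.exp (-2.06) := h6.symm
          _ ≤ 7.87 * V gd (B j) := by
            have := exp_206
            gcongr
      have h7 : (0 : ℝ) ≤ ((2.05) ^ 9 / 362880) * rho ^ (j / 3) := by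
        unfold rho; positivity
      calc es gd (B j) (2 * (4 + j / 3) + 1) ≤ ((2.05) ^ 9 / 362880) * rho ^ (j / 3) * 1 := by
            linarith
        _ ≤ ((2.05) ^ 9 / 362880) * rho ^ (j / 3) * (7.87 * V gd (B j)) := by gcongr
        _ = c9 * rho ^ (j / 3) * V gd (B j) := by unfold c9; ring
    · simp only [hτdef, if_neg hj, zero_mul]
      unfold es
      rw [powersetCard_eq_empty.2 (hcardJ j (by omega)), sum_empty]
  have hτsum : ∑ j ∈ range (J + 1), τ j ≤ 0.044 := by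
    rw [sum_range_succ]
    have h1 : τ J = 0 := by simp [hτdef]
    rw [h1, add_zero]
    have h2 : ∑ j ∈ range J, τ j = ∑ j ∈ range J, c9 * rho ^ (j / 3) :=
      sum_congr rfl fun j hj => by simp [hτdef, mem_range.1 hj]
    rw [h2]
    exact sum_tau J
  -- error terms
  set n : ℕ → ℝ := fun j => if j < J then (Z z j) ^ (2 * b' j) else (1 + 4) ^ (B j).card with hn
  set r : ℕ → ℝ := fun j => if j < J then Z z j else 0 with hr
  have hn0 : ∀ j, 0 ≤ n j := by
    intro j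
    simp only [hn]
    split_ifs
    · exact pow_nonneg (Z_pos _ _).le _
    · positivity
  have hr0 : ∀ j, 0 ≤ r j := by
    intro j
    simp only [hr]
    split_ifs
    · exact (Z_pos _ _).le
    · exact le_rfl
  have hcj : ∀ j < J, 1 + 4 * ((B j).card : ℝ) ≤ Z z j := by
    intro j hj
    rw [hB, Blk_lt hj]
    exact hcard _ _ (hww2.trans (hJ2 j hj).le)
  have hn' : ∀ j, ∑ S ∈ TS (B j) (2 * b' j), |(-1 : ℝ) ^ S.card| * 4 ^ S.card ≤ n j := by
    intro j
    by_cases hj : j < J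
    · simp only [hn, if_pos hj]
      refine (err_TS_le (by norm_num) (B j) (2 * b' j)).trans ?_
      exact pow_le_pow_left₀ (by positivity) (hcj j hj) _
    · simp only [hn, if_neg hj]
      exact err_TS_le' (by norm_num) _ _
  have hr' : ∀ j, ∑ S ∈ (B j).powersetCard (2 * b' j + 1), |(1 : ℝ)| * 4 ^ S.card ≤
      r j * n j := by
    intro j
    by_cases hj : j < J
    · simp only [hn, hr, if_pos hj]
      refine (err_powersetCard_le (by norm_num) (B j) (2 * b' j + 1)).trans ?_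
      refine (pow_le_pow_left₀ (by positivity) (hcj j hj) _).trans (le_of_eq ?_)
      rw [pow_succ]; ring
    · simp only [hn, hr, if_neg hj, zero_mul]
      rw [powersetCard_eq_empty.2 (hcardJ j (by omega)), sum_empty]
  have hN := NUL_le (K := 4) (B := B) (b := b') (by norm_num) n r hn0 hr0 hn' hr' (J + 1)
  have hprod : ∏ j ∈ range (J + 1), n j ≤ D * Real.exp (21.378 * Real.log z) := by
    rw [prod_range_succ]
    have h1 : n J = D := by
      simp only [hn, lt_irrefl, if_false, hB, Blk_eq]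
      rfl
    have h2 : ∏ j ∈ range J, n j =
        Real.exp ((∑ j ∈ range J, (2 * ((4 + j / 3 : ℕ) : ℝ)) * (3 / 5 : ℝ) ^ j) *
          Real.log z) := by
      rw [sum_mul, Real.exp_sum]
      refine prod_congr rfl fun j hj => ?_
      have hj' := mem_range.1 hj
      simp only [hn, if_pos hj']
      rw [hbj' j hj']
      unfold Z
      rw [← Real.exp_nat_mul]
      congr 1
      push_cast
      ring
    rw [h1, h2, mul_comm]
    have h3 := sum_U J
    gcongr
  have hrsum : ∑ j ∈ range (J + 1), r j ≤ z * z := by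
    rw [sum_range_succ]
    have h1 : r J = 0 := by simp [hr]
    rw [h1, add_zero]
    calc ∑ j ∈ range J, r j ≤ ∑ _j ∈ range J, z := by
          refine sum_le_sum fun j hj => ?_
          simp only [hr, if_pos (mem_range.1 hj)]
          have := Z_anti hz1 (Nat.zero_le j)
          rwa [Z_zero hz0] at this
      _ = J * z := by simp
      _ ≤ z * z := by
          gcongr
          exact J_le hw2000 hz hJ2
  have hE0 : 0 < Real.exp (21.378 * Real.log z) := Real.exp_pos _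
  have hexp : Real.exp (21.378 * Real.log z) ≤ z ^ 22 := by
    have h1 : z ^ 22 = Real.exp (22 * Real.log z) := by
      rw [show (22 : ℝ) * Real.log z = ((22 : ℕ) : ℝ) * Real.log z by norm_num,
        Real.exp_nat_mul, Real.exp_log hz0]
    rw [h1, Real.exp_le_exp]
    nlinarith
  have hMUpos := MUL_fst_pos (b := b') hg hg1 (J + 1)
  refine ⟨(MUL gd B b' (J + 1)).1, ?_, fun a b hab => ⟨fun S hS => ?_, fun q hq hqz S hS hSm => ?_⟩⟩
  · refine le_trans ?_ (MUL_fst_ge hg hg1 (J + 1))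
    rw [hB, prod_V_eq (by linarith) hz hJ1, mul_div_assoc]
    exact mul_le_mul_of_nonneg_left (hV z hz) hVw.le
  · have h1 := lower_bound (b := b') (good_quad a b hab) Blk_prime hdis (J + 1) S
      (fun m hm hs => hS m hm ((sifted_iff (by linarith) hz hJ1 m).1 hs))
    have h2 := MUL_snd_ge (b := b') hg hg1 τ hτ (J + 1)
    have hab' : (0 : ℝ) ≤ (b : ℝ) - a := by
      have : (a : ℝ) ≤ b := by exact_mod_cast hab
      linarith
    have h3 : 0.956 * (MUL gd B b' (J + 1)).1 ≤ (MUL gd B b' (J + 1)).2 := by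
      refine le_trans ?_ h2
      have : 0.956 ≤ 1 - ∑ j ∈ range (J + 1), τ j := by linarith
      gcongr
    have h4 : (NUL 4 B b' (J + 1)).2 ≤ (2 * D + 4 * D) * z ^ 24 := by
      refine hN.2.2.trans ?_
      have h5 : 1 + ∑ j ∈ range (J + 1), r j ≤ 2 * z ^ 2 := by nlinarith
      have h6 : 0 ≤ ∏ j ∈ range (J + 1), n j := prod_nonneg fun j _ => hn0 j
      calc (1 + ∑ j ∈ range (J + 1), r j) * ∏ j ∈ range (J + 1), n j
          ≤ (2 * z ^ 2) * (D * z ^ 22) := by
            refine mul_le_mul h5 (hprod.trans ?_) h6 (by positivity)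
            gcongr
        _ = 2 * D * z ^ 24 := by ring
        _ ≤ (2 * D + 4 * D) * z ^ 24 := by
            have : 0 ≤ 4 * D * z ^ 24 := by positivity
            linarith
    have h5 := mul_le_mul_of_nonneg_left h3 hab'
    calc 0.956 * ((b : ℝ) - a) * (MUL gd B b' (J + 1)).1 - (2 * D + 4 * D) * z ^ 24
        ≤ ((b : ℝ) - a) * (MUL gd B b' (J + 1)).2 - (NUL 4 B b' (J + 1)).2 := by linarith
      _ ≤ _ := h1
  · have h1 := upper_bound (b := b') (good_quad a b hab) Blk_prime hdis (J + 1) S hS {q}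
      (by
        intro q' hq'
        rw [mem_singleton] at hq'
        subst hq'
        refine ⟨hq, ?_⟩
        rw [Qs_eq (by linarith) hz hJ1, mem_PB zero_le_one (by linarith)]
        rintro ⟨_, _, h⟩
        linarith)
      (fun m hm => ⟨(sifted_iff (by linarith) hz hJ1 m).2 (hSm m hm).1, by
        intro q' hq'
        rw [mem_singleton] at hq'
        subst hq'
        exact (hSm m hm).2⟩)
    rw [prod_singleton, card_singleton, pow_one] at h1
    refine h1.trans ?_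
    have h2 : 4 * (NUL 4 B b' (J + 1)).1 ≤
        (2 * D + 4 * D) * Real.exp (21.378 * Real.log z) := by
      have h3 := hN.1.2.trans hprod
      have h4 : 0 ≤ D * Real.exp (21.378 * Real.log z) := by positivity
      linarith
    linarith

end

end Pool.Agent.Work.MP_40574a_nt.SieveMain
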