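import Mathlib
import Pool.Agent.Work.MP_40574a_nt.SieveMain

/-! Richert-type weights: few prime factors. -/

namespace Pool.Agent.Work.MP_40574a_nt.Weighted

open Finset BrunHooley Mertens _root_.Pool.Agent.Work.MP_40574a_nt.Count Params SieveMain

noncomputable section

open Classical in
/-- sifted elements -/
def Cz (z : ℝ) (a b : ℕ) : Finset ℕ := (Ico a b).filter (fun m => Sft z m)

/-- the primes in `(z,y]` dividing `F m` -/
def Dzy (z y : ℝ) (m : ℕ) : Finset ℕ := (PB z y).filter (fun q => dq q m)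

/-- the weight -/
def W (z y : ℝ) (m : ℕ) : ℝ :=
  1 - (20 / 179) * ∑ q ∈ Dzy z y m, (1 - Real.log q / Real.log y)

lemma log_21_5 : Real.log 21.5 ≤ 3.07 := by
  rw [Real.log_le_iff_le_exp (by norm_num)]
  have h1 : Real.exp 3.07 = Real.exp 1 * Real.exp 1 * Real.exp 1 * Real.exp 0.07 := by
    rw [← Real.exp_add, ← Real.exp_add, ← Real.exp_add]; norm_num
  have h2 := Real.exp_one_gt_d9
  have h3 : 1 + 0.07 + 0.07 ^ 2 / 2 ≤ Real.exp 0.07 := by
    have := Real.quadratic_le_exp_of_nonneg (show (0 : ℝ) ≤ 0.07 by norm_num)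
    linarith
  rw [h1]
  calc (21.5 : ℝ) ≤ 2.7182818283 * 2.7182818283 * 2.7182818283 * (1 + 0.07 + 0.07 ^ 2 / 2) := by
        norm_num
    _ ≤ _ := by gcongr

/-- the weighted density sum -/
lemma weight_sum : ∃ t0 : ℝ, 1 ≤ t0 ∧ ∀ t : ℝ, t0 ≤ t →
    ∑ q ∈ PB (Real.exp (t / 86)) (Real.exp (t / 4)),
      gd q * (1 - Real.log q / Real.log (Real.exp (t / 4))) ≤ 8.5 := by
  obtain ⟨C1, hC1, h1⟩ := sum_log_bounds
  obtain ⟨C2, hC2, h2⟩ := mertens_second
  refine ⟨max 86 (100000 * (C1 + C2)), (by norm_num : (1 : ℝ) ≤ 86).trans (le_max_left _ _),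
    fun t ht => ?_⟩
  have ht86 : 86 ≤ t := (le_max_left _ _).trans ht
  have htC : 100000 * (C1 + C2) ≤ t := (le_max_right _ _).trans ht
  set z := Real.exp (t / 86) with hz
  set y := Real.exp (t / 4) with hy
  have hlz : Real.log z = t / 86 := Real.log_exp _
  have hly : Real.log y = t / 4 := Real.log_exp _
  have hz2 : 2 ≤ z := by
    have := Real.add_one_le_exp (t / 86)
    have : 1 ≤ t / 86 := by rw [le_div_iff₀ (by norm_num)]; linarith
    linarith
  have hzy : z ≤ y := by
    rw [hz, hy, Real.exp_le_exp]; linarith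
  have e1 := (abs_le.1 (h1 z y (by linarith) hzy)).1
  have e2 := h2 z y hz2 hzy
  rw [hlz, hly] at e1 e2
  rw [hly]
  have hlogdiv : t / 4 / (t / 86) = 21.5 := by
    have : t ≠ 0 := by linarith
    field_simp
    norm_num
  rw [hlogdiv] at e2
  have e3 := log_21_5
  have hmain : ∑ q ∈ PB z y, gd q * (1 - Real.log q / (t / 4)) ≤
      4 * (∑ q ∈ PB z y, (1 : ℝ) / q - (4 / t) * ∑ q ∈ PB z y, Real.log q / q) := by
    rw [mul_sum, ← sum_sub_distrib, mul_sum]
    refine sum_le_sum fun q hq => ?_
    have hqm := (mem_PB (by linarith) (by linarith)).1 hq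
    have hq0 : (0 : ℝ) < q := by linarith [hqm.2.1]
    have h5 : Real.log q ≤ t / 4 := by
      rw [← hly]; exact Real.log_le_log hq0 hqm.2.2
    have h6 : 0 ≤ 1 - Real.log q / (t / 4) := by
      rw [sub_nonneg, div_le_one (by linarith)]; exact h5
    calc gd q * (1 - Real.log q / (t / 4)) ≤ (4 * (1 / q)) * (1 - Real.log q / (t / 4)) :=
          mul_le_mul_of_nonneg_right (gd_le hqm.1) h6
      _ = 4 * (1 / (q : ℝ) - 4 / t * (Real.log q / q)) := by
          have : t ≠ 0 := by linarith
          field_simp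
  refine hmain.trans ?_
  have h7 : (4 / t) * (t / 4 - t / 86 - C1) ≤ (4 / t) * ∑ q ∈ PB z y, Real.log q / q := by
    have : 0 < 4 / t := by positivity
    exact mul_le_mul_of_nonneg_left (by linarith) this.le
  have h8 : (4 / t) * (t / 4 - t / 86 - C1) = 1 - 4 / 86 - 4 * (C1 / t) := by
    have : t ≠ 0 := by linarith
    field_simp
  have h9 : C2 / (t / 86) = 86 * (C2 / t) := by
    have : t ≠ 0 := by linarith
    field_simp
  have h10 : C1 / t ≤ 1 / 100000 := by
    rw [div_le_div_iff₀ (by linarith) (by norm_num)]; nlinarith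
  have h11 : C2 / t ≤ 1 / 100000 := by
    rw [div_le_div_iff₀ (by linarith) (by norm_num)]; nlinarith
  rw [h8] at h7
  rw [h9] at e2
  norm_num at e2 e3 h7 h10 h11 ⊢
  linarith

/-- The sum of weights over sifted elements. -/
theorem weighted_sum_ge : ∃ c C t0 : ℝ, 0 < c ∧ 0 < C ∧ 1 ≤ t0 ∧ ∀ t : ℝ, t0 ≤ t →
    ∀ a b : ℕ, a ≤ b →
    c * ((b : ℝ) - a) / t ^ 4 - C * Real.exp (0.4987 * t) ≤
      ∑ m ∈ Cz (Real.exp (t / 86)) a b, W (Real.exp (t / 86)) (Real.exp (t / 4)) m := by
  classical
  obtain ⟨c, C, z0, hc, hC, hz0, hmain⟩ := sieve_main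
  obtain ⟨t1, ht1, hws⟩ := weight_sum
  refine ⟨0.006 * c, 2 * C, max t1 (max (86 * Real.log z0) 86), by positivity, by positivity,
    ht1.trans (le_max_left _ _), fun t ht a b hab => ?_⟩
  have htt1 : t1 ≤ t := (le_max_left _ _).trans ht
  have htz0 : 86 * Real.log z0 ≤ t := ((le_max_left _ _).trans (le_max_right _ _)).trans ht
  have ht86 : 86 ≤ t := ((le_max_right _ _).trans (le_max_right _ _)).trans ht
  set z := Real.exp (t / 86) with hz
  set y := Real.exp (t / 4) with hy
  have hzz0 : z0 ≤ z := by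
    rw [hz, ← Real.log_le_iff_le_exp (by linarith)]; linarith
  have hlz : Real.log z = t / 86 := Real.log_exp _
  have hly : Real.log y = t / 4 := Real.log_exp _
  have hz2 : 2 ≤ z := hz0.trans hzz0
  have hzy : z ≤ y := by rw [hz, hy, Real.exp_le_exp]; linarith
  obtain ⟨MU, hMU, h2⟩ := hmain z hzz0
  obtain ⟨hlow, hup⟩ := h2 a b hab
  have hX : (0 : ℝ) ≤ (b : ℝ) - a := by
    have : (a : ℝ) ≤ b := by exact_mod_cast hab
    linarith
  have hlzpos : 0 < Real.log z := by rw [hlz]; positivity
  have hMU0 : 0 < MU := lt_of_lt_of_le (by positivity) hMU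
  -- expand the sum
  have hexp : ∑ m ∈ Cz z a b, W z y m = ((Cz z a b).card : ℝ) -
      (20 / 179) * ∑ q ∈ PB z y, (1 - Real.log q / Real.log y) *
        (((Cz z a b).filter (fun m => dq q m)).card : ℝ) := by
    unfold W
    rw [sum_sub_distrib, sum_const, nsmul_eq_mul, mul_one, ← mul_sum]
    congr 2
    unfold Dzy
    simp_rw [sum_filter]
    rw [sum_comm]
    refine sum_congr rfl fun q _ => ?_
    rw [← sum_filter, sum_const, nsmul_eq_mul, mul_comm]
  rw [hexp]
  have hl := hlow (Cz z a b) (fun m hm hs => mem_filter.2 ⟨hm, hs⟩)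
  set E := Real.exp (21.378 * Real.log z) with hE
  have hEpos : 0 < E := Real.exp_pos _
  have hu : ∑ q ∈ PB z y, (1 - Real.log q / Real.log y) *
        (((Cz z a b).filter (fun m => dq q m)).card : ℝ) ≤
      8.5 * (((b : ℝ) - a) * MU) + C * E * y := by
    calc ∑ q ∈ PB z y, (1 - Real.log q / Real.log y) *
        (((Cz z a b).filter (fun m => dq q m)).card : ℝ)
        ≤ ∑ q ∈ PB z y, ((gd q * (1 - Real.log q / Real.log y)) * (((b : ℝ) - a) * MU) +
            C * E) := by
          refine sum_le_sum fun q hq => ?_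
          have hqm := (mem_PB (by linarith) (by linarith)).1 hq
          have hq0 : (0 : ℝ) < q := by linarith [hqm.2.1]
          have hq1 : 0 ≤ Real.log q := Real.log_natCast_nonneg q
          have h5 : Real.log q ≤ Real.log y := Real.log_le_log hq0 hqm.2.2
          have hly0 : 0 < Real.log y := by rw [hly]; positivity
          have h6 : 0 ≤ 1 - Real.log q / Real.log y := by
            rw [sub_nonneg, div_le_one hly0]; exact h5
          have h7 : 1 - Real.log q / Real.log y ≤ 1 := by
            have : 0 ≤ Real.log q / Real.log y := by positivity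
            linarith
          have h8 := hup q hqm.1 hqm.2.1 ((Cz z a b).filter (fun m => dq q m))
            (fun m hm => (mem_filter.1 (mem_filter.1 hm).1).1)
            (fun m hm => ⟨(mem_filter.1 (mem_filter.1 hm).1).2, (mem_filter.1 hm).2⟩)
          calc (1 - Real.log q / Real.log y) *
                (((Cz z a b).filter (fun m => dq q m)).card : ℝ)
              ≤ (1 - Real.log q / Real.log y) * (((b : ℝ) - a) * gd q * MU + C * E) :=
                mul_le_mul_of_nonneg_left h8 h6
            _ = (gd q * (1 - Real.log q / Real.log y)) * (((b : ℝ) - a) * MU) +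
                (1 - Real.log q / Real.log y) * (C * E) := by ring
            _ ≤ _ := by
                have : 0 ≤ C * E := by positivity
                nlinarith
      _ = (∑ q ∈ PB z y, gd q * (1 - Real.log q / Real.log y)) * (((b : ℝ) - a) * MU) +
            ((PB z y).card : ℝ) * (C * E) := by
          rw [sum_add_distrib, ← sum_mul, sum_const, nsmul_eq_mul]
      _ ≤ 8.5 * (((b : ℝ) - a) * MU) + y * (C * E) := by
          have h9 := hws t htt1
          have h10 : ((PB z y).card : ℝ) ≤ y := by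
            have h11 : (PB z y).card ≤ ⌊y⌋₊ := by
              unfold PB
              refine (card_filter_le _ _).trans ?_
              rw [Nat.card_Ioc]
              omega
            calc ((PB z y).card : ℝ) ≤ (⌊y⌋₊ : ℝ) := by exact_mod_cast h11
              _ ≤ y := Nat.floor_le (by linarith)
          have h12 : 0 ≤ ((b : ℝ) - a) * MU := by positivity
          have h13 : 0 ≤ C * E := by positivity
          gcongr
      _ = _ := by ring
  have hXM : 0 ≤ ((b : ℝ) - a) * MU := by positivity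
  have hEy : E * y ≤ Real.exp (0.4987 * t) := by
    rw [hE, hy, hlz, ← Real.exp_add, Real.exp_le_exp]
    nlinarith
  have hz24 : z ^ 24 ≤ Real.exp (0.4987 * t) := by
    rw [hz, ← Real.exp_nat_mul, Real.exp_le_exp]
    push_cast
    nlinarith
  have hfin : c * ((b : ℝ) - a) / t ^ 4 ≤ ((b : ℝ) - a) * MU := by
    have h14 : c / t ^ 4 ≤ MU := by
      refine le_trans ?_ hMU
      rw [hlz]
      have : (t / 86) ^ 4 ≤ t ^ 4 := by
        have : t / 86 ≤ t := by linarith
        gcongr
      exact div_le_div_of_nonneg_left hc.le (by positivity) this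
    calc c * ((b : ℝ) - a) / t ^ 4 = ((b : ℝ) - a) * (c / t ^ 4) := by ring
      _ ≤ _ := by gcongr
  have h15 : C * z ^ 24 ≤ C * Real.exp (0.4987 * t) := by gcongr
  have h16 : C * E * y ≤ C * Real.exp (0.4987 * t) := by
    rw [mul_assoc]; gcongr
  have h17 : 0.006 * c * ((b : ℝ) - a) / t ^ 4 = 0.006 * (c * ((b : ℝ) - a) / t ^ 4) := by ring
  rw [h17]
  have h18 : (20 / 179 : ℝ) * (8.5 * (((b : ℝ) - a) * MU)) ≤ 0.95 * (((b : ℝ) - a) * MU) := by
    nlinarith
  have h19 : 0 ≤ C * E * y := by positivity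
  have h20 := mul_le_mul_of_nonneg_left hu (by norm_num : (0 : ℝ) ≤ 20 / 179)
  have h21 : 0.956 * ((b : ℝ) - a) * MU = 0.956 * (((b : ℝ) - a) * MU) := by ring
  have h22 : (20 / 179 : ℝ) * (8.5 * (((b : ℝ) - a) * MU) + C * E * y) ≤
      0.95 * (((b : ℝ) - a) * MU) + C * E * y := by
    rw [mul_add]; linarith
  rw [h21] at hl
  have h23 : 0.006 * (c * ((b : ℝ) - a) / t ^ 4) ≤ 0.006 * (((b : ℝ) - a) * MU) := by linarith
  linarith

end

end Pool.Agent.Work.MP_40574a_nt.Weighted
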