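import Mathlib
import Pool.Agent.Work.MP_40574a_nt.Weighted

/-! Few prime factors: assembling the weighted sieve. -/

namespace Pool.Agent.Work.MP_40574a_nt.Almost

open Finset BrunHooley Mertens _root_.Pool.Agent.Work.MP_40574a_nt.Count Params SieveMain Weighted

noncomputable section

/-- natural number version of `F` -/
def G (m : ℕ) : ℕ := (m - 2) * m * (m + 4) * (m + 10)

lemma G_cast {m : ℕ} (hm : 3 ≤ m) : (G m : ℤ) = F m := by
  unfold G F
  push_cast [Nat.cast_sub (show 2 ≤ m by omega)]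
  ring

lemma G_pos {m : ℕ} (hm : 3 ≤ m) : 0 < G m := by
  unfold G
  have : 0 < m - 2 := by omega
  positivity

lemma dq_iff {m : ℕ} (hm : 3 ≤ m) (q : ℕ) : dq q m ↔ q ∣ G m := by
  unfold dq
  rw [← G_cast hm, Int.natCast_dvd_natCast]

lemma G_le {m : ℕ} : (G m : ℝ) ≤ ((m : ℝ) + 10) ^ 4 := by
  have h : G m ≤ (m + 10) ^ 4 := by
    unfold G
    calc (m - 2) * m * (m + 4) * (m + 10) ≤ (m + 10) * (m + 10) * (m + 10) * (m + 10) := by
          gcongr <;> omega
      _ = _ := by ring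
  exact_mod_cast h

lemma cardFactors_eq {n : ℕ} (hn : Squarefree n) :
    ArithmeticFunction.cardFactors n = n.primeFactors.card := by
  have h0 : n ≠ 0 := hn.ne_zero
  rw [ArithmeticFunction.cardFactors_apply, Nat.primeFactors]
  rw [List.card_toFinset, List.dedup_eq_self.2 ((Nat.squarefree_iff_nodup_primeFactorsList h0).1 hn)]

/-- Positive weight and no large square divisor imply few prime factors. -/
lemma few_factors {t : ℝ} (ht : 720 ≤ t) {m : ℕ} (hm : 3 ≤ m)
    (hmle : (m : ℝ) + 10 ≤ 6 * Real.exp (t / 2)) (hs : Sft (Real.exp (t / 86)) m)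
    (hsq : ∀ q : ℕ, q.Prime → Real.exp (t / 86) < q → ¬ q * q ∣ G m)
    (hW : 0 < W (Real.exp (t / 86)) (Real.exp (t / 4)) m) :
    Squarefree (G m) ∧ ArithmeticFunction.cardFactors (G m) ≤ 16 ∧
      ∀ q : ℕ, q.Prime → q ∣ G m → Real.exp (t / 86) < q := by
  set z := Real.exp (t / 86) with hz
  set y := Real.exp (t / 4) with hy
  have hly : Real.log y = t / 4 := Real.log_exp _
  have hzpos : 0 < z := Real.exp_pos _
  have hypos : 0 < y := Real.exp_pos _
  have hbig : ∀ q : ℕ, q.Prime → q ∣ G m → z < q := by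
    intro q hq hqd
    by_contra hcon
    exact hs q hq (not_lt.1 hcon) ((dq_iff hm q).2 hqd)
  have hsf : Squarefree (G m) := by
    rw [Nat.squarefree_iff_prime_squarefree]
    intro q hq hqd
    exact hsq q hq (hbig q hq (dvd_of_mul_left_dvd hqd)) hqd
  refine ⟨hsf, ?_, hbig⟩
  rw [cardFactors_eq hsf]
  -- the sum over all prime factors
  have hGpos : (0 : ℝ) < G m := by exact_mod_cast G_pos hm
  have hlogG : Real.log (G m) = ∑ q ∈ (G m).primeFactors, Real.log q := by
    conv_lhs => rw [← Nat.prod_primeFactors_of_squarefree hsf]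
    rw [Nat.cast_prod, Real.log_prod]
    intro q hq
    exact_mod_cast (Nat.prime_of_mem_primeFactors hq).ne_zero
  have hsum : ∑ q ∈ (G m).primeFactors, (1 - Real.log q / Real.log y) =
      ((G m).primeFactors.card : ℝ) - Real.log (G m) / Real.log y := by
    rw [sum_sub_distrib, sum_const, nsmul_eq_mul, mul_one, hlogG, sum_div]
  have hD : Dzy z y m = (G m).primeFactors.filter (fun q : ℕ => (q : ℝ) ≤ y) := by
    ext q
    unfold Dzy
    rw [mem_filter, mem_filter, mem_PB hzpos.le hypos.le, Nat.mem_primeFactors, dq_iff hm]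
    constructor
    · rintro ⟨⟨h1, h2, h3⟩, h4⟩
      exact ⟨⟨h1, h4, (G_pos hm).ne'⟩, h3⟩
    · rintro ⟨⟨h1, h4, _⟩, h3⟩
      exact ⟨⟨h1, hbig q h1 h4, h3⟩, h4⟩
  have hle : ∑ q ∈ (G m).primeFactors, (1 - Real.log q / Real.log y) ≤
      ∑ q ∈ Dzy z y m, (1 - Real.log q / Real.log y) := by
    rw [hD, ← sum_filter_add_sum_filter_not (G m).primeFactors (fun q : ℕ => (q : ℝ) ≤ y)]
    have : ∑ q ∈ (G m).primeFactors.filter (fun q : ℕ => ¬ (q : ℝ) ≤ y),
        (1 - Real.log q / Real.log y) ≤ 0 := by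
      refine sum_nonpos fun q hq => ?_
      have hq2 := (mem_filter.1 hq).2
      push Not at hq2
      have h1 : Real.log y ≤ Real.log q := Real.log_le_log hypos hq2.le
      have h2 : 0 < Real.log y := by rw [hly]; positivity
      rw [sub_nonpos, le_div_iff₀ h2]
      linarith
    linarith
  have hW' : ∑ q ∈ Dzy z y m, (1 - Real.log q / Real.log y) < 8.95 := by
    unfold W at hW
    norm_num at hW ⊢
    linarith
  have hlogGle : Real.log (G m) ≤ 2 * t + 7.2 := by
    have h1 : Real.log (G m) ≤ Real.log ((6 * Real.exp (t / 2)) ^ 4) := by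
      refine Real.log_le_log hGpos (G_le.trans ?_)
      gcongr
    have h2 : Real.log ((6 * Real.exp (t / 2)) ^ 4) = 4 * (Real.log 6 + t / 2) := by
      rw [Real.log_pow, Real.log_mul (by norm_num) (Real.exp_pos _).ne', Real.log_exp]
      norm_num
    have h3 : Real.log 6 ≤ 1.8 := by
      rw [Real.log_le_iff_le_exp (by norm_num)]
      have h4 : Real.exp 1.8 = Real.exp 1 * Real.exp 0.8 := by
        rw [← Real.exp_add]; norm_num
      have h5 := Real.exp_one_gt_d9
      have h6 : (2.22 : ℝ) ≤ Real.exp 0.8 := by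
        refine le_trans ?_ (Real.sum_le_exp_of_nonneg (by norm_num : (0 : ℝ) ≤ 0.8) 6)
        norm_num [Finset.sum_range_succ, Nat.factorial]
      rw [h4]
      calc (6 : ℝ) ≤ 2.7182818283 * 2.22 := by norm_num
        _ ≤ _ := by gcongr
    rw [h2] at h1
    linarith
  have hratio : Real.log (G m) / Real.log y ≤ 8.04 := by
    rw [hly, div_le_iff₀ (by positivity)]
    linarith
  rw [hsum] at hle
  have hlt : ((G m).primeFactors.card : ℝ) < 17 := by
    have e1 : (8.95 : ℝ) + 8.04 < 17 := by norm_num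
    linarith
  have : (G m).primeFactors.card < 17 := by exact_mod_cast hlt
  omega

/-! ### Large square divisors -/

/-- elements with a large prime square divisor -/
def Bad (z : ℝ) (a b : ℕ) : Finset ℕ := by
  classical
  exact (Ico a b).filter (fun m => ∃ q : ℕ, q.Prime ∧ z < q ∧ q * q ∣ G m)

lemma sq_dvd_factor {q m : ℕ} (hq : q.Prime) (hq12 : 12 < q) (hm : 3 ≤ m) (h : q * q ∣ G m) :
    q * q ∣ (m - 2) ∨ q * q ∣ m ∨ q * q ∣ (m + 4) ∨ q * q ∣ (m + 10) := by
  have key : ∀ u v : ℕ, q ∣ u → u < v → v ≤ u + 12 → ¬ q ∣ v := by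
    intro u v hu huv hv hv'
    have h1 : q ∣ v - u := Nat.dvd_sub hv' hu
    have h2 := Nat.le_of_dvd (by omega) h1
    omega
  have cop : ∀ u : ℕ, ¬ q ∣ u → Nat.Coprime (q * q) u := by
    intro u hu
    have := (Nat.Prime.coprime_iff_not_dvd hq).2 hu
    exact Nat.Coprime.mul_left this this
  unfold G at h
  have hqd : q ∣ (m - 2) * m * (m + 4) * (m + 10) := dvd_of_mul_left_dvd h
  rcases (Nat.Prime.dvd_mul hq).1 hqd with h1 | h1
  · rcases (Nat.Prime.dvd_mul hq).1 h1 with h2 | h2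
    · rcases (Nat.Prime.dvd_mul hq).1 h2 with h3 | h3
      · left
        have c1 := cop m (key (m - 2) m h3 (by omega) (by omega))
        have c2 := cop (m + 4) (key (m - 2) (m + 4) h3 (by omega) (by omega))
        have c3 := cop (m + 10) (key (m - 2) (m + 10) h3 (by omega) (by omega))
        exact c1.dvd_of_dvd_mul_right (c2.dvd_of_dvd_mul_right (c3.dvd_of_dvd_mul_right h))
      · right; left
        have c1 := cop (m - 2) (fun h' => key (m - 2) m h' (by omega) (by omega) h3)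
        have c2 := cop (m + 4) (key m (m + 4) h3 (by omega) (by omega))
        have c3 := cop (m + 10) (key m (m + 10) h3 (by omega) (by omega))
        exact c1.dvd_of_dvd_mul_left (c2.dvd_of_dvd_mul_right (c3.dvd_of_dvd_mul_right h))
    · right; right; left
      have c1 := cop (m - 2) (fun h' => key (m - 2) (m + 4) h' (by omega) (by omega) h2)
      have c2 := cop m (fun h' => key m (m + 4) h' (by omega) (by omega) h2)
      have c3 := cop (m + 10) (key (m + 4) (m + 10) h2 (by omega) (by omega))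
      have h4 := c3.dvd_of_dvd_mul_right h
      exact (Nat.Coprime.mul_right c1 c2).dvd_of_dvd_mul_left h4
  · right; right; right
    have c1 := cop (m - 2) (fun h' => key (m - 2) (m + 10) h' (by omega) (by omega) h1)
    have c2 := cop m (fun h' => key m (m + 10) h' (by omega) (by omega) h1)
    have c3 := cop (m + 4) (fun h' => key (m + 4) (m + 10) h' (by omega) (by omega) h1)
    exact (Nat.Coprime.mul_right (Nat.Coprime.mul_right c1 c2) c3).dvd_of_dvd_mul_left h

lemma card_Bad {z : ℝ} (hz : 12 ≤ z) {a b : ℕ} (ha : 3 ≤ a) (hab : a ≤ b) :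
    ((Bad z a b).card : ℝ) ≤ 8 * ((b : ℝ) - a) / z + 4 * Real.sqrt ((b : ℝ) + 10) := by
  classical
  set Q := Real.sqrt ((b : ℝ) + 10) with hQ
  have hQ0 : 0 ≤ Q := Real.sqrt_nonneg _
  have hX : (0 : ℝ) ≤ (b : ℝ) - a := by
    have : (a : ℝ) ≤ b := by exact_mod_cast hab
    linarith
  -- covering
  have hcover : Bad z a b ⊆ (PB z Q).biUnion (fun q =>
      ({2, 0, q * q - 4, q * q - 10} : Finset ℕ).biUnion
        (fun r => (Ico a b).filter (fun m => m ≡ r [MOD (q * q)]))) := by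
    intro m hm
    unfold Bad at hm
    rw [mem_filter] at hm
    obtain ⟨hm1, q, hq, hzq, hqd⟩ := hm
    have hm3 : 3 ≤ m := by rw [mem_Ico] at hm1; omega
    have hmb : m < b := by rw [mem_Ico] at hm1; exact hm1.2
    have hq12 : 12 < q := by
      have : (12 : ℝ) < q := by linarith
      exact_mod_cast this
    have hqq : 144 ≤ q * q := by nlinarith
    have hfac := sq_dvd_factor hq hq12 hm3 hqd
    have hqQ : (q : ℝ) ≤ Q := by
      rw [hQ]
      apply Real.le_sqrt_of_sq_le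
      have : q * q ≤ b + 10 := by
        rcases hfac with h | h | h | h
        · have := Nat.le_of_dvd (by omega) h; omega
        · have := Nat.le_of_dvd (by omega) h; omega
        · have := Nat.le_of_dvd (by omega) h; omega
        · have := Nat.le_of_dvd (by omega) h; omega
      have h2 : ((q * q : ℕ) : ℝ) ≤ ((b + 10 : ℕ) : ℝ) := by exact_mod_cast this
      push_cast at h2
      nlinarith
    rw [mem_biUnion]
    refine ⟨q, (mem_PB (by linarith) hQ0).2 ⟨hq, hzq, hqQ⟩, ?_⟩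
    rw [mem_biUnion]
    rcases hfac with h | h | h | h
    · refine ⟨2, by simp, mem_filter.2 ⟨hm1, ?_⟩⟩
      exact ((Nat.modEq_iff_dvd' (by omega)).2 h).symm
    · refine ⟨0, by simp, mem_filter.2 ⟨hm1, ?_⟩⟩
      exact (Nat.modEq_zero_iff_dvd).2 h
    · refine ⟨q * q - 4, by simp, mem_filter.2 ⟨hm1, ?_⟩⟩
      have e1 : m + 4 ≡ (q * q - 4) + 4 [MOD (q * q)] := by
        rw [Nat.sub_add_cancel (by omega)]
        exact ((Nat.modEq_zero_iff_dvd).2 h).trans ((Nat.modEq_zero_iff_dvd).2 (dvd_refl _)).symm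
      exact Nat.ModEq.add_right_cancel' 4 e1
    · refine ⟨q * q - 10, by simp, mem_filter.2 ⟨hm1, ?_⟩⟩
      have e1 : m + 10 ≡ (q * q - 10) + 10 [MOD (q * q)] := by
        rw [Nat.sub_add_cancel (by omega)]
        exact ((Nat.modEq_zero_iff_dvd).2 h).trans ((Nat.modEq_zero_iff_dvd).2 (dvd_refl _)).symm
      exact Nat.ModEq.add_right_cancel' 10 e1
  have h1 : ((Bad z a b).card : ℝ) ≤ ∑ q ∈ PB z Q, 4 * (((b : ℝ) - a) / (q : ℝ) ^ 2 + 1) := by
    have h2 : (Bad z a b).card ≤ ∑ q ∈ PB z Q, ∑ r ∈ ({2, 0, q * q - 4, q * q - 10} : Finset ℕ),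
        ((Ico a b).filter (fun m => m ≡ r [MOD (q * q)])).card :=
      (card_le_card hcover).trans (card_biUnion_le.trans (sum_le_sum fun q _ => card_biUnion_le))
    have h3 : ((Bad z a b).card : ℝ) ≤ ∑ q ∈ PB z Q,
        ∑ r ∈ ({2, 0, q * q - 4, q * q - 10} : Finset ℕ),
        (((Ico a b).filter (fun m => m ≡ r [MOD (q * q)])).card : ℝ) := by exact_mod_cast h2
    refine h3.trans (sum_le_sum fun q hq => ?_)
    have hqm := (mem_PB (by linarith) hQ0).1 hq
    have hq0 : 0 < q * q := Nat.mul_pos hqm.1.pos hqm.1.pos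
    have hq0' : (0 : ℝ) < q := by exact_mod_cast hqm.1.pos
    calc ∑ r ∈ ({2, 0, q * q - 4, q * q - 10} : Finset ℕ),
        (((Ico a b).filter (fun m => m ≡ r [MOD (q * q)])).card : ℝ)
        ≤ ∑ _r ∈ ({2, 0, q * q - 4, q * q - 10} : Finset ℕ),
            (((b : ℝ) - a) / (q : ℝ) ^ 2 + 1) := by
          refine sum_le_sum fun r _ => ?_
          have h4 := (abs_le.1 (card_modEq_approx a b hab hq0 r)).2
          have h5 : ((b : ℝ) - a) / ((q * q : ℕ) : ℝ) = ((b : ℝ) - a) / (q : ℝ) ^ 2 := by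
            push_cast; ring
          rw [h5] at h4
          linarith
      _ ≤ 4 * (((b : ℝ) - a) / (q : ℝ) ^ 2 + 1) := by
          rw [sum_const, nsmul_eq_mul]
          have h6 : ((({2, 0, q * q - 4, q * q - 10} : Finset ℕ).card : ℕ) : ℝ) ≤ 4 := by
            exact_mod_cast (card_le_four)
          have h7 : 0 ≤ ((b : ℝ) - a) / (q : ℝ) ^ 2 + 1 := by positivity
          gcongr
  have h8 : ∑ q ∈ PB z Q, (1 : ℝ) / (q : ℝ) ^ 2 ≤ 2 / z := by
    have hfl : ⌊z⌋₊ ≠ 0 := by
      have : 12 ≤ ⌊z⌋₊ := Nat.le_floor (by exact_mod_cast hz)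
      omega
    have hfl2 : z / 2 ≤ (⌊z⌋₊ : ℝ) := by
      have := Nat.lt_floor_add_one z
      linarith
    rcases le_or_gt ⌊z⌋₊ ⌊Q⌋₊ with hle | hgt
    · calc ∑ q ∈ PB z Q, (1 : ℝ) / (q : ℝ) ^ 2
          ≤ ∑ i ∈ Ioc ⌊z⌋₊ ⌊Q⌋₊, (1 : ℝ) / (i : ℝ) ^ 2 := by
            unfold PB
            exact sum_le_sum_of_subset_of_nonneg (filter_subset _ _) fun i _ _ => by positivity
        _ = ∑ i ∈ Ioc ⌊z⌋₊ ⌊Q⌋₊, ((i : ℝ) ^ 2)⁻¹ := by simp
        _ ≤ (⌊z⌋₊ : ℝ)⁻¹ - (⌊Q⌋₊ : ℝ)⁻¹ := sum_Ioc_inv_sq_le_sub hfl hle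
        _ ≤ (z / 2)⁻¹ := by
            have h9 : (0 : ℝ) ≤ (⌊Q⌋₊ : ℝ)⁻¹ := by positivity
            have h10 : (⌊z⌋₊ : ℝ)⁻¹ ≤ (z / 2)⁻¹ := inv_anti₀ (by linarith) hfl2
            linarith
        _ = 2 / z := by rw [inv_div]
    · have : PB z Q = ∅ := by
        unfold PB
        rw [Ioc_eq_empty (by omega), filter_empty]
      rw [this, sum_empty]
      positivity
  have h11 : ((PB z Q).card : ℝ) ≤ Q := by
    have h12 : (PB z Q).card ≤ ⌊Q⌋₊ := by
      unfold PB
      refine (card_filter_le _ _).trans ?_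
      rw [Nat.card_Ioc]
      omega
    calc ((PB z Q).card : ℝ) ≤ (⌊Q⌋₊ : ℝ) := by exact_mod_cast h12
      _ ≤ Q := Nat.floor_le hQ0
  calc ((Bad z a b).card : ℝ) ≤ ∑ q ∈ PB z Q, 4 * (((b : ℝ) - a) / (q : ℝ) ^ 2 + 1) := h1
    _ = 4 * ((b : ℝ) - a) * (∑ q ∈ PB z Q, (1 : ℝ) / (q : ℝ) ^ 2) + 4 * ((PB z Q).card : ℝ) := by
        rw [mul_sum, card_eq_sum_ones, Nat.cast_sum, mul_sum, ← sum_add_distrib]
        refine sum_congr rfl fun q _ => ?_
        push_cast
        ring
    _ ≤ 4 * ((b : ℝ) - a) * (2 / z) + 4 * Q := by gcongr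
    _ = 8 * ((b : ℝ) - a) / z + 4 * Q := by ring

end

end Pool.Agent.Work.MP_40574a_nt.Almost
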