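import Mathlib
import Pool.Agent.Work.MP_40574a_nt.Almost

/-! Almost-prime quadruples in the window `29 n ≤ p² ≤ 30 n`. -/

namespace Pool.Agent.Work.MP_40574a_nt.AlmostMain

open Finset BrunHooley Mertens _root_.Pool.Agent.Work.MP_40574a_nt.Count Params SieveMain Weighted
  Almost

noncomputable section

lemma sqrt_diff : (0.092 : ℝ) ≤ Real.sqrt 30 - Real.sqrt 29 := by
  have h1 : (5.4772 : ℝ) ≤ Real.sqrt 30 := Real.le_sqrt_of_sq_le (by norm_num)
  have h2 : Real.sqrt 29 ≤ 5.3852 := by
    rw [Real.sqrt_le_left (by norm_num)]; norm_num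
  linarith

lemma W_le_one {z y : ℝ} (hz : 0 ≤ z) (hy : 1 < y) (m : ℕ) : W z y m ≤ 1 := by
  unfold W
  have h : 0 ≤ ∑ q ∈ Dzy z y m, (1 - Real.log q / Real.log y) := by
    refine sum_nonneg fun q hq => ?_
    have hqm := (mem_PB hz (by linarith)).1 (mem_filter.1 hq).1
    have hq0 : (0 : ℝ) < q := by exact_mod_cast hqm.1.pos
    have h5 : Real.log q ≤ Real.log y := Real.log_le_log hq0 hqm.2.2
    rw [sub_nonneg, div_le_one (Real.log_pos hy)]
    exact h5
  linarith

theorem almost_main : ∃ c : ℝ, 0 < c ∧ ∃ n₀ : ℕ, ∀ n : ℕ, n₀ ≤ n → ∃ T : Finset ℕ,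
    c * Real.sqrt n / (Real.log n) ^ 4 ≤ (T.card : ℝ) ∧ ∀ p ∈ T,
      3 ≤ p ∧ 29 * n ≤ p ^ 2 ∧ p ^ 2 ≤ 30 * n ∧ Nat.Coprime p 30 ∧ Squarefree (G p) ∧
        ArithmeticFunction.cardFactors (G p) ≤ 16 ∧
        ∀ q : ℕ, q.Prime → q ∣ G p → n < q ^ 86 := by
  classical
  obtain ⟨c, C, t0, hc, hC, ht0, hw⟩ := weighted_sum_ge
  set ε : ℝ := 0.045 * c / (C + 60) with hε
  have hεpos : 0 < ε := by positivity
  have hlo := (isLittleO_pow_exp_pos_mul_atTop 4 (show (0 : ℝ) < 0.0013 by norm_num)).bound hεpos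
  obtain ⟨t1, ht1⟩ := Filter.eventually_atTop.1 hlo
  set tt := max t0 (max t1 2000) with htt
  refine ⟨0.045 * c, by positivity, ⌈Real.exp tt⌉₊, fun n hn => ?_⟩
  have hnexp : Real.exp tt ≤ n := (Nat.le_ceil _).trans (by exact_mod_cast hn)
  have hn0 : (0 : ℝ) < n := (Real.exp_pos _).trans_le hnexp
  set t := Real.log n with ht
  have hett : tt ≤ t := by rw [ht, Real.le_log_iff_exp_le hn0]; exact hnexp
  have htt0 : t0 ≤ t := (le_max_left _ _).trans hett
  have htt1 : t1 ≤ t := ((le_max_left _ _).trans (le_max_right _ _)).trans hett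
  have ht2000 : 2000 ≤ t := ((le_max_right _ _).trans (le_max_right _ _)).trans hett
  have hnt : (n : ℝ) = Real.exp t := (Real.exp_log hn0).symm
  set s := Real.exp (t / 2) with hs
  have hs2 : s ^ 2 = n := by
    rw [hs, hnt, ← Real.exp_nat_mul]; congr 1; push_cast; ring
  have hspos : 0 < s := Real.exp_pos _
  have hsqrt : Real.sqrt n = s := by rw [← hs2]; exact Real.sqrt_sq hspos.le
  have hsbig : 1001 ≤ s := by
    have := Real.add_one_le_exp (t / 2)
    linarith
  set z := Real.exp (t / 86) with hz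
  set y := Real.exp (t / 4) with hy
  have hz12 : 12 ≤ z := by
    have := Real.add_one_le_exp (t / 86)
    have : 23 ≤ t / 86 := by rw [le_div_iff₀ (by norm_num)]; linarith
    linarith
  have hy1 : 1 < y := by rw [hy]; exact Real.one_lt_exp_iff.2 (by linarith)
  -- the interval
  set a := Nat.sqrt (29 * n) + 1 with ha
  set b := Nat.sqrt (30 * n) + 1 with hb
  have hab : a ≤ b := by
    have : Nat.sqrt (29 * n) ≤ Nat.sqrt (30 * n) := Nat.sqrt_le_sqrt (by omega)
    omega
  have hsq29 : (Nat.sqrt (29 * n) : ℝ) ≤ Real.sqrt 29 * s := by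
    have h1 := Real.nat_sqrt_le_real_sqrt (a := 29 * n)
    have h2 : Real.sqrt ((29 * n : ℕ) : ℝ) = Real.sqrt 29 * s := by
      push_cast
      rw [Real.sqrt_mul (by norm_num), hsqrt]
    rw [h2] at h1
    exact h1
  have hsq30' : Real.sqrt ((30 * n : ℕ) : ℝ) = Real.sqrt 30 * s := by
    push_cast
    rw [Real.sqrt_mul (by norm_num), hsqrt]
  have hsq30 : Real.sqrt 30 * s ≤ (b : ℝ) := by
    have h1 := Real.real_sqrt_le_nat_sqrt_succ (a := 30 * n)
    rw [hsq30'] at h1
    rw [hb]
    push_cast at h1 ⊢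
    exact h1
  have hsq30u : (b : ℝ) ≤ Real.sqrt 30 * s + 1 := by
    have h1 := Real.nat_sqrt_le_real_sqrt (a := 30 * n)
    rw [hsq30'] at h1
    rw [hb]
    push_cast
    linarith
  have hs30 : Real.sqrt 30 ≤ 5.5 := by
    rw [Real.sqrt_le_left (by norm_num)]; norm_num
  have hX : 0.09 * s ≤ (b : ℝ) - a := by
    have h1 := mul_le_mul_of_nonneg_right sqrt_diff hspos.le
    have h2 : (a : ℝ) ≤ Real.sqrt 29 * s + 1 := by rw [ha]; push_cast; linarith
    nlinarith
  have hbu : (b : ℝ) + 10 ≤ 6 * s := by nlinarith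
  have hXu : (b : ℝ) - a ≤ 6 * s := by
    have : (0 : ℝ) ≤ a := Nat.cast_nonneg a
    linarith
  have ha3 : 3 ≤ a := by
    have h1 : (1 : ℝ) ≤ n := by
      have := Real.add_one_le_exp t
      rw [hnt]; linarith
    have h2 : 1 ≤ n := by exact_mod_cast h1
    have h3 : 2 ≤ Nat.sqrt (29 * n) := by
      rw [Nat.le_sqrt]; omega
    omega
  -- the good set
  set T := (Cz z a b).filter (fun m => m ∉ Bad z a b ∧ 0 < W z y m) with hT
  refine ⟨T, ?_, ?_⟩
  · have hsum := hw t htt0 a b hab
    have h1 : ∑ m ∈ Cz z a b, W z y m ≤ (T.card : ℝ) + ((Bad z a b).card : ℝ) := by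
      calc ∑ m ∈ Cz z a b, W z y m
          ≤ ∑ m ∈ Cz z a b, ((if m ∉ Bad z a b ∧ 0 < W z y m then (1 : ℝ) else 0) +
              (if m ∈ Bad z a b then 1 else 0)) := by
            refine sum_le_sum fun m _ => ?_
            have h2 := W_le_one (z := z) (y := y) (by linarith) hy1 m
            by_cases hbad : m ∈ Bad z a b
            · simp only [hbad, not_true_eq_false, false_and, if_false, if_true, zero_add]
              exact h2
            · by_cases hpos : 0 < W z y m
              · simp only [hbad, hpos, not_false_eq_true, true_and, if_true, if_false, add_zero]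
                exact h2
              · simp only [hbad, hpos, and_false, if_false, add_zero]
                exact not_lt.1 hpos
        _ = (T.card : ℝ) + (((Cz z a b).filter (fun m => m ∈ Bad z a b)).card : ℝ) := by
            rw [sum_add_distrib, ← sum_filter, ← sum_filter]
            simp [hT]
        _ ≤ _ := by
            have : ((Cz z a b).filter (fun m => m ∈ Bad z a b)).card ≤ (Bad z a b).card :=
              card_le_card fun m hm => (mem_filter.1 hm).2
            have : (((Cz z a b).filter (fun m => m ∈ Bad z a b)).card : ℝ) ≤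
                (Bad z a b).card := by exact_mod_cast this
            linarith
    have h2 := card_Bad hz12 ha3 hab
    have hE0 : 0 < Real.exp (0.4987 * t) := Real.exp_pos _
    have h3 : 8 * ((b : ℝ) - a) / z ≤ 48 * Real.exp (0.4987 * t) := by
      have h4 : 8 * ((b : ℝ) - a) / z ≤ 48 * (s / z) := by
        have hz0 : 0 < z := by linarith
        rw [mul_div_assoc', div_le_div_iff_of_pos_right hz0]
        linarith
      have h5 : s / z ≤ Real.exp (0.4987 * t) := by
        rw [hs, hz, ← Real.exp_sub, Real.exp_le_exp]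
        linarith
      linarith
    have h4 : 4 * Real.sqrt ((b : ℝ) + 10) ≤ 12 * Real.exp (0.4987 * t) := by
      have h5 : Real.sqrt ((b : ℝ) + 10) ≤ 3 * Real.exp (t / 4) := by
        rw [Real.sqrt_le_left (by positivity)]
        have h6 : (3 * Real.exp (t / 4)) ^ 2 = 9 * s := by
          have h7 : Real.exp (t / 4) ^ 2 = s := by
            rw [← Real.exp_nat_mul, hs]
            congr 1
            push_cast
            ring
          rw [mul_pow, h7]
          norm_num
        rw [h6]
        linarith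
      have h6 : Real.exp (t / 4) ≤ Real.exp (0.4987 * t) := by
        rw [Real.exp_le_exp]; linarith
      linarith
    -- asymptotics
    have h5 : (C + 60) * Real.exp (0.4987 * t) ≤ 0.045 * c * s / t ^ 4 := by
      have h6 := ht1 t htt1
      rw [Real.norm_of_nonneg (by positivity), Real.norm_of_nonneg (Real.exp_pos _).le] at h6
      have h7 : Real.exp (0.4987 * t) * Real.exp (0.0013 * t) = s := by
        rw [← Real.exp_add, hs]; congr 1; ring
      have ht4 : 0 < t ^ 4 := by positivity
      rw [le_div_iff₀ ht4]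
      have h8 : (C + 60) * ε = 0.045 * c := by
        rw [hε]; field_simp
      calc (C + 60) * Real.exp (0.4987 * t) * t ^ 4
          ≤ (C + 60) * Real.exp (0.4987 * t) * (ε * Real.exp (0.0013 * t)) := by gcongr
        _ = ((C + 60) * ε) * (Real.exp (0.4987 * t) * Real.exp (0.0013 * t)) := by ring
        _ = 0.045 * c * s := by rw [h7, h8]
    have h6 : c * (0.09 * s) / t ^ 4 ≤ c * ((b : ℝ) - a) / t ^ 4 := by gcongr
    have h7 : c * (0.09 * s) / t ^ 4 = 0.045 * c * s / t ^ 4 + 0.045 * c * s / t ^ 4 := by ring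
    rw [hsqrt]
    linarith
  · intro p hp
    rw [hT, mem_filter] at hp
    obtain ⟨hpC, hpB, hpW⟩ := hp
    unfold Cz at hpC
    rw [mem_filter, mem_Ico] at hpC
    obtain ⟨⟨hpa, hpb⟩, hsift⟩ := hpC
    have hp3 : 3 ≤ p := ha3.trans hpa
    have hnb : ∀ q : ℕ, q.Prime → z < q → ¬ q * q ∣ G p := by
      intro q hq hzq hqd
      apply hpB
      unfold Bad
      rw [mem_filter, mem_Ico]
      exact ⟨⟨hpa, hpb⟩, q, hq, hzq, hqd⟩
    have hple : (p : ℝ) + 10 ≤ 6 * Real.exp (t / 2) := by
      have : (p : ℝ) ≤ b := by exact_mod_cast hpb.le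
      linarith
    obtain ⟨hf1, hf2, hf3⟩ := few_factors (by linarith) hp3 hple hsift hnb hpW
    have hnd : ∀ q : ℕ, q.Prime → (q : ℝ) ≤ z → ¬ q ∣ p := by
      intro q hq hqz hqd
      refine hsift q hq hqz ((dq_iff hp3 q).2 ?_)
      unfold G
      exact Dvd.dvd.mul_right (Dvd.dvd.mul_right (Dvd.dvd.mul_left hqd _) _) _
    refine ⟨hp3, ?_, ?_, ?_, hf1, hf2, ?_⟩
    · have h1 : Nat.sqrt (29 * n) < p := by omega
      have h2 := Nat.sqrt_lt'.1 h1
      exact h2.le
    · have h1 : p ≤ Nat.sqrt (30 * n) := by omega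
      exact Nat.le_sqrt'.1 h1
    · have h2 : ¬ 2 ∣ p := hnd 2 Nat.prime_two (by norm_num; linarith)
      have h3 : ¬ 3 ∣ p := hnd 3 Nat.prime_three (by norm_num; linarith)
      have h5 : ¬ 5 ∣ p := hnd 5 Nat.prime_five (by norm_num; linarith)
      have e2 : Nat.Coprime p 2 := (Nat.coprime_comm).1 ((Nat.Prime.coprime_iff_not_dvd
        Nat.prime_two).2 h2)
      have e3 : Nat.Coprime p 3 := (Nat.coprime_comm).1 ((Nat.Prime.coprime_iff_not_dvd
        Nat.prime_three).2 h3)
      have e5 : Nat.Coprime p 5 := (Nat.coprime_comm).1 ((Nat.Prime.coprime_iff_not_dvd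
        Nat.prime_five).2 h5)
      have := (e2.mul_right e3).mul_right e5
      simpa using this
    · intro q hq hqd
      have h1 := hf3 q hq hqd
      have h2 : t / 86 < Real.log q := by
        rw [Real.lt_log_iff_exp_lt (by exact_mod_cast hq.pos)]
        exact h1
      have h3 : Real.log n < Real.log ((q : ℝ) ^ 86) := by
        rw [Real.log_pow]
        push_cast
        linarith
      have h4 : (n : ℝ) < (q : ℝ) ^ 86 := (Real.log_lt_log_iff hn0
        (by have : (0 : ℝ) < q := by exact_mod_cast hq.pos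
            positivity)).1 h3
      exact_mod_cast h4

end

end Pool.Agent.Work.MP_40574a_nt.AlmostMain
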