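import Pool.Agent.Work.MP_40574a_nt.Moves

set_option autoImplicit false

namespace Pool.Agent.Work.MP_40574a_nt

variable {N : ℤ}

lemma sq_mod4 (x : ℤ) : (x % 2 = 0 ∧ x ^ 2 % 4 = 0) ∨ (x % 2 = 1 ∧ x ^ 2 % 4 = 1) := by
  rcases Int.emod_two_eq_zero_or_one x with h | h
  · left
    obtain ⟨y, hy⟩ : ∃ y, x = 2 * y := ⟨x / 2, by omega⟩
    have : x ^ 2 = 4 * y ^ 2 := by rw [hy]; ring
    exact ⟨h, by omega⟩
  · right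
    obtain ⟨y, hy⟩ : ∃ y, x = 2 * y + 1 := ⟨x / 2, by omega⟩
    have : x ^ 2 = 4 * (y ^ 2 + y) + 1 := by rw [hy]; ring
    exact ⟨h, by omega⟩

lemma sq5 (x : ℤ) : x ^ 2 % 5 = 0 ∨ x ^ 2 % 5 = 1 ∨ x ^ 2 % 5 = 4 := by
  rcases sq_mod5 x with ⟨_, h⟩ | ⟨_, h⟩ | ⟨_, h⟩ | ⟨_, h⟩ | ⟨_, h⟩ <;> simp [h]

lemma sq3 (x : ℤ) : (x % 3 = 0 ∧ x ^ 2 % 3 = 0) ∨ (x % 3 ≠ 0 ∧ x ^ 2 % 3 = 1) := by
  rcases sq_mod3 x with ⟨h1, h⟩ | ⟨h1, h⟩ | ⟨h1, h⟩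
  · left; exact ⟨h1, h⟩
  · right; exact ⟨by omega, h⟩
  · right; exact ⟨by omega, h⟩

/-- the possible patterns of squares modulo `5` -/
lemma pat {a b c : ℤ} (ha : a = 0 ∨ a = 1 ∨ a = 4) (hb : b = 0 ∨ b = 1 ∨ b = 4)
    (hc : c = 0 ∨ c = 1 ∨ c = 4) (h : (a + b + c) % 5 = 1 ∨ (a + b + c) % 5 = 4) :
    (a = 0 ∧ b = 0) ∨ (a = 0 ∧ c = 0) ∨ (b = 0 ∧ c = 0) ∨
    ((a + b) % 5 = 0 ∧ (a + c) % 5 = 0 ∧ b = c) ∨ ((b + a) % 5 = 0 ∧ (b + c) % 5 = 0 ∧ a = c) ∨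
    ((c + a) % 5 = 0 ∧ (c + b) % 5 = 0 ∧ a = b) := by
  rcases ha with rfl | rfl | rfl <;> rcases hb with rfl | rfl | rfl <;>
    rcases hc with rfl | rfl | rfl <;> revert h <;> decide

lemma pat' {A B C : ℤ} (hN : A ^ 2 + B ^ 2 + C ^ 2 = N) (hN5 : N % 5 = 1 ∨ N % 5 = 4) :
    (A ^ 2 % 5 = 0 ∧ B ^ 2 % 5 = 0) ∨ (A ^ 2 % 5 = 0 ∧ C ^ 2 % 5 = 0) ∨
    (B ^ 2 % 5 = 0 ∧ C ^ 2 % 5 = 0) ∨
    ((A ^ 2 + B ^ 2) % 5 = 0 ∧ (A ^ 2 + C ^ 2) % 5 = 0 ∧ B ^ 2 % 5 = C ^ 2 % 5) ∨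
    ((B ^ 2 + A ^ 2) % 5 = 0 ∧ (B ^ 2 + C ^ 2) % 5 = 0 ∧ A ^ 2 % 5 = C ^ 2 % 5) ∨
    ((C ^ 2 + A ^ 2) % 5 = 0 ∧ (C ^ 2 + B ^ 2) % 5 = 0 ∧ A ^ 2 % 5 = B ^ 2 % 5) := by
  have h := pat (sq5 A) (sq5 B) (sq5 C) (by omega)
  rcases h with h | h | h | h | h | h
  · exact Or.inl h
  · exact Or.inr (Or.inl h)
  · exact Or.inr (Or.inr (Or.inl h))
  · exact Or.inr (Or.inr (Or.inr (Or.inl ⟨by omega, by omega, h.2.2⟩)))
  · exact Or.inr (Or.inr (Or.inr (Or.inr (Or.inl ⟨by omega, by omega, h.2.2⟩))))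
  · exact Or.inr (Or.inr (Or.inr (Or.inr (Or.inr ⟨by omega, by omega, h.2.2⟩))))

lemma not_two_zero (hN3 : N % 3 = 2) {A B C : ℤ} (hN : A ^ 2 + B ^ 2 + C ^ 2 = N)
    (hA : A % 3 = 0) (hB : B % 3 = 0) : False := by
  have e1 : A ^ 2 % 3 = 0 := by
    rcases sq3 A with ⟨_, h⟩ | ⟨h, _⟩
    · exact h
    · exact absurd hA h
  have e2 : B ^ 2 % 3 = 0 := by
    rcases sq3 B with ⟨_, h⟩ | ⟨h, _⟩
    · exact h
    · exact absurd hB h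
  have e3 : C ^ 2 % 3 = 0 ∨ C ^ 2 % 3 = 1 := by
    rcases sq3 C with ⟨_, h⟩ | ⟨_, h⟩
    · exact Or.inl h
    · exact Or.inr h
  omega

/-- All entries odd. -/
lemma goal_of_three (hN3 : N % 3 = 2) (hN5 : N % 5 = 1 ∨ N % 5 = 4) {A B C : ℤ}
    (hN : A ^ 2 + B ^ 2 + C ^ 2 = N) (hA : A % 2 = 1) (hB : B % 2 = 1) (hC : C % 2 = 1) :
    Goal N := by
  have n1 : B ^ 2 + A ^ 2 + C ^ 2 = N := by rw [← hN]; ring
  have n2 : C ^ 2 + A ^ 2 + B ^ 2 = N := by rw [← hN]; ring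
  have n3 : C ^ 2 + B ^ 2 + A ^ 2 = N := by rw [← hN]; ring
  have n4 : A ^ 2 + C ^ 2 + B ^ 2 = N := by rw [← hN]; ring
  have n5 : B ^ 2 + C ^ 2 + A ^ 2 = N := by rw [← hN]; ring
  have pAB : (A + B) % 2 = 0 := by omega
  have pAC : (A + C) % 2 = 0 := by omega
  have pBC : (B + C) % 2 = 0 := by omega
  have pBA : (B + A) % 2 = 0 := by omega
  have pCA : (C + A) % 2 = 0 := by omega
  have pCB : (C + B) % 2 = 0 := by omega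
  rcases pat' hN hN5 with h | h | h | h | h | h
  · exact G3 hN3 n2 pCB h.1 h.2
  · exact G3 hN3 n1 pBC h.1 h.2
  · exact G3 hN3 hN pAC h.1 h.2
  · by_cases hC3 : C % 3 = 0
    · by_cases hB3 : B % 3 = 0
      · exact (not_two_zero hN3 n5 hB3 hC3).elim
      · exact G2 hN3 n1 pBC h.2.1 hB3
    · exact G2 hN3 n2 pCB h.1 hC3
  · by_cases hC3 : C % 3 = 0
    · by_cases hA3 : A % 3 = 0
      · exact (not_two_zero hN3 n4 hA3 hC3).elim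
      · exact G2 hN3 hN pAC h.2.1 hA3
    · exact G2 hN3 n3 pCA h.1 hC3
  · by_cases hB3 : B % 3 = 0
    · by_cases hA3 : A % 3 = 0
      · exact (not_two_zero hN3 hN hA3 hB3).elim
      · exact G2 hN3 n4 pAB h.2.1 hA3
    · exact G2 hN3 n5 pBA h.1 hB3

lemma chain2 (hN3 : N % 3 = 2) {A B C : ℤ}
    (hN : A ^ 2 + B ^ 2 + C ^ 2 = N) (hpar : (A + C) % 2 = 0) (hB : B % 2 = 1)
    (h1 : (B ^ 2 + C ^ 2) % 5 = 0) (h2 : A ^ 2 % 5 = B ^ 2 % 5) : Goal N := by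
  rcases sign_5 h1 with h | h <;> rcases sign_5' h2 with h' | h'
  · exact chain' hN3 hN hpar hB (by omega) (by omega)
  · exact chain' (A := -A) (B := B) (C := C) hN3 (by rw [← hN]; ring) (by omega) hB (by omega) (by omega)
  · exact chain' (A := A) (B := B) (C := -C) hN3 (by rw [← hN]; ring) (by omega) hB (by omega) (by omega)
  · exact chain' (A := -A) (B := B) (C := -C) hN3 (by rw [← hN]; ring) (by omega) hB (by omega) (by omega)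

/-- the case `A = C = 0 mod 5`, after a sign normalisation -/
lemma stepF1 (hN3 : N % 3 = 2) {A B C : ℤ}
    (hN : A ^ 2 + B ^ 2 + C ^ 2 = N) (hpar : (A + C) % 2 = 0)
    (hA : A % 5 = 0) (hC : C % 5 = 0) (h3 : (A + B + C) % 3 = 0) : Goal N := by
  obtain ⟨κ, hκ⟩ : ∃ κ, A + B + C = 3 * κ := ⟨(A + B + C) / 3, by omega⟩
  have hN' : (A - 2 * κ) ^ 2 + (B - 2 * κ) ^ 2 + (C - 2 * κ) ^ 2 = N := by
    rw [← hN]; linear_combination (-4 * κ) * hκ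
  obtain ⟨u, hu⟩ : ∃ u, B - 2 * κ = 2 * B + 5 * u := ⟨(-B - 2 * κ) / 5, by omega⟩
  obtain ⟨v, hv⟩ : ∃ v, C - 2 * κ = B + 5 * v := ⟨(C - 2 * κ - B) / 5, by omega⟩
  obtain ⟨w, hw⟩ : ∃ w, A - 2 * κ = B + 5 * w := ⟨(A - 2 * κ - B) / 5, by omega⟩
  have f1 : ((B - 2 * κ) ^ 2 + (C - 2 * κ) ^ 2) % 5 = 0 := by
    rw [hu, hv]
    have : (2 * B + 5 * u) ^ 2 + (B + 5 * v) ^ 2 =
      5 * (B ^ 2 + 4 * B * u + 5 * u ^ 2 + 2 * B * v + 5 * v ^ 2) := by ring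
    rw [this]; exact Int.mul_emod_right _ _
  have f2 : ((B - 2 * κ) ^ 2 + (A - 2 * κ) ^ 2) % 5 = 0 := by
    rw [hu, hw]
    have : (2 * B + 5 * u) ^ 2 + (B + 5 * w) ^ 2 =
      5 * (B ^ 2 + 4 * B * u + 5 * u ^ 2 + 2 * B * w + 5 * w ^ 2) := by ring
    rw [this]; exact Int.mul_emod_right _ _
  by_cases hA3 : (A - 2 * κ) % 3 = 0
  · by_cases hC3 : (C - 2 * κ) % 3 = 0
    · exact (not_two_zero (A := A - 2 * κ) (B := C - 2 * κ) (C := B - 2 * κ) hN3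
        (by rw [← hN']; ring) hA3 hC3).elim
    · exact G2 (A := C - 2 * κ) (B := B - 2 * κ) (C := A - 2 * κ) hN3 (by rw [← hN']; ring)
        (by omega) f2 hC3
  · exact G2 hN3 hN' (by omega) f1 hA3

lemma stepF1' (hN3 : N % 3 = 2) {A B C : ℤ}
    (hN : A ^ 2 + B ^ 2 + C ^ 2 = N) (hpar : (A + C) % 2 = 0)
    (hA : A % 5 = 0) (hC : C % 5 = 0) : Goal N := by
  rcases sum_3 (A := A) (B := B) (C := C) (by rw [hN]; exact hN3) with h | h | h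
  · exact stepF1 hN3 hN hpar hA hC h
  · exact stepF1 (A := -A) (B := B) (C := C) hN3 (by rw [← hN]; ring) (by omega) (by omega) hC h
  · exact stepF1 (A := A) (B := B) (C := -C) hN3 (by rw [← hN]; ring) (by omega) hA (by omega) h

/-- Exactly the middle entry odd. -/
lemma goal_of_one (hN3 : N % 3 = 2) (hN5 : N % 5 = 1 ∨ N % 5 = 4) {A B C : ℤ}
    (hN : A ^ 2 + B ^ 2 + C ^ 2 = N) (hA : A % 2 = 0) (hB : B % 2 = 1) (hC : C % 2 = 0) :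
    Goal N := by
  have n3 : C ^ 2 + B ^ 2 + A ^ 2 = N := by rw [← hN]; ring
  have n4 : A ^ 2 + C ^ 2 + B ^ 2 = N := by rw [← hN]; ring
  have pAC : (A + C) % 2 = 0 := by omega
  have pCA : (C + A) % 2 = 0 := by omega
  rcases pat' hN hN5 with h | h | h | h | h | h
  · exact G3 hN3 n3 pCA h.2 h.1
  · exact stepF1' hN3 hN pAC (zero_5 h.1) (zero_5 h.2)
  · exact G3 hN3 hN pAC h.1 h.2
  · exact chain2 hN3 n3 pCA hB (by rw [add_comm]; exact h.1) h.2.2.symm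
  · by_cases hC3 : C % 3 = 0
    · by_cases hA3 : A % 3 = 0
      · exact (not_two_zero hN3 n4 hA3 hC3).elim
      · exact G2 hN3 hN pAC h.2.1 hA3
    · exact G2 hN3 n3 pCA h.1 hC3
  · exact chain2 hN3 hN pAC hB (by rw [add_comm]; exact h.2.1) h.2.2

theorem goal_all (hN0 : 0 ≤ N) (hN3 : N % 3 = 2) (hN5 : N % 5 = 1 ∨ N % 5 = 4) (hN2 : N % 2 = 1)
    (hN8 : N % 8 ≠ 7) : Goal N := by
  obtain ⟨M, rfl⟩ : ∃ M : ℕ, N = (M : ℤ) := ⟨N.toNat, by omega⟩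
  obtain ⟨A, B, C, h⟩ := three_squares M (by omega) (by omega)
  rcases sq_mod4 A with ⟨a1, a2⟩ | ⟨a1, a2⟩ <;> rcases sq_mod4 B with ⟨b1, b2⟩ | ⟨b1, b2⟩ <;>
    rcases sq_mod4 C with ⟨c1, c2⟩ | ⟨c1, c2⟩
  · omega
  · exact goal_of_one (A := A) (B := C) (C := B) hN3 hN5 (by rw [← h]; ring) a1 c1 b1
  · exact goal_of_one (A := A) (B := B) (C := C) hN3 hN5 h a1 b1 c1
  · omega
  · exact goal_of_one (A := B) (B := A) (C := C) hN3 hN5 (by rw [← h]; ring) b1 a1 c1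
  · omega
  · omega
  · exact goal_of_three hN3 hN5 h a1 b1 c1

/-- The ternary form `6 r^2 + 5 t^2 + 30 w^2`. -/
theorem exists_form (hG : Goal N) : ∃ r t w : ℤ, 6 * r ^ 2 + 5 * t ^ 2 + 30 * w ^ 2 = N := by
  obtain ⟨A, B, C, hN, h2, h3, h5⟩ := hG
  obtain ⟨r, hr⟩ : ∃ r, A + 2 * B + C = 6 * r := ⟨(A + 2 * B + C) / 6, by omega⟩
  obtain ⟨t, ht⟩ : ∃ t, B - 2 * C = 5 * t := ⟨(B - 2 * C) / 5, by omega⟩
  obtain ⟨w, hw⟩ : ∃ w, -5 * A + 2 * B + C = 30 * w := ⟨(-5 * A + 2 * B + C) / 30, by omega⟩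
  refine ⟨r, t, w, ?_⟩
  have hA : A = r - 5 * w := by omega
  have hB : B = t + 2 * r + 2 * w := by omega
  have hC : C = r - 2 * t + w := by omega
  rw [← hN, hA, hB, hC]; ring

lemma sign_r {r p : ℤ} (h : (6 * r ^ 2 + p ^ 2) % 5 = 0) :
    (r - 2 * p) % 5 = 0 ∨ (-r - 2 * p) % 5 = 0 := by
  have h' : (r ^ 2 + p ^ 2) % 5 = 0 := by omega
  rcases sign_5 h' with h | h <;> omega

lemma sign_t {t p : ℤ} (h : (5 * t ^ 2 + p ^ 2) % 3 = 0) :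
    (t + p) % 3 = 0 ∨ (-t + p) % 3 = 0 := by
  rcases sq_mod3 p with ⟨b1, b2⟩ | ⟨b1, b2⟩ | ⟨b1, b2⟩ <;>
  rcases sq_mod3 t with ⟨c1, c2⟩ | ⟨c1, c2⟩ | ⟨c1, c2⟩ <;> omega

/-- Main theorem, integer form. -/
theorem main_int (n p : ℤ) (hn : n % 4 ≠ 0) (hp2 : p % 2 = 1) (hp3 : p % 3 ≠ 0) (hp5 : p % 5 ≠ 0)
    (hle : p ^ 2 ≤ 30 * n) :
    ∃ x y z w : ℤ, n = x ^ 2 + y ^ 2 + z ^ 2 + w ^ 2 ∧ x + 2 * y + 5 * z = p ∧ 0 ≤ w := by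
  have hp8 : p ^ 2 % 8 = 1 := by
    obtain ⟨q, hq⟩ : ∃ q, p = 2 * q + 1 := ⟨p / 2, by omega⟩
    have h1 : p ^ 2 = 4 * (q * (q + 1)) + 1 := by rw [hq]; ring
    have h2 : Even (q * (q + 1)) := Int.even_mul_succ_self q
    obtain ⟨m, hm⟩ := h2
    omega
  have hp23 : p ^ 2 % 3 = 1 := by
    rcases sq3 p with ⟨h1, h2⟩ | ⟨h1, h2⟩
    · exact absurd h1 hp3
    · exact h2
  have hp25 : p ^ 2 % 5 = 1 ∨ p ^ 2 % 5 = 4 := by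
    rcases sq5 p with h | h | h
    · exact absurd (zero_5 h) hp5
    · exact Or.inl h
    · exact Or.inr h
  have hG : Goal (30 * n - p ^ 2) := by
    refine goal_all (by omega) (by omega) (by omega) (by omega) (by omega)
  obtain ⟨r0, t0, w0, h0⟩ := exists_form hG
  have hr6 : (6 * r0 ^ 2 + p ^ 2) % 5 = 0 := by omega
  have ht6 : (5 * t0 ^ 2 + p ^ 2) % 3 = 0 := by omega
  have ht2 : t0 % 2 = 1 := by
    rcases sq_mod4 t0 with ⟨c1, c2⟩ | ⟨c1, c2⟩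
    · exfalso; omega
    · exact c1
  -- choose signs
  obtain ⟨r, hr, hr5⟩ : ∃ r : ℤ, r ^ 2 = r0 ^ 2 ∧ (r - 2 * p) % 5 = 0 := by
    rcases sign_r hr6 with h | h
    · exact ⟨r0, rfl, h⟩
    · exact ⟨-r0, by ring, h⟩
  obtain ⟨t, ht, ht6⟩ : ∃ t : ℤ, t ^ 2 = t0 ^ 2 ∧ (t + p) % 6 = 0 := by
    rcases sign_t ht6 with h | h
    · exact ⟨t0, rfl, by omega⟩
    · exact ⟨-t0, by ring, by omega⟩
  have h0' : 6 * r ^ 2 + 5 * t ^ 2 + 30 * w0 ^ 2 = 30 * n - p ^ 2 := by rw [hr, ht]; exact h0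
  clear h0 hr ht hr6 ht2 hG hle hp8 hp23 hp25 hn
  obtain ⟨x, hx⟩ : ∃ x, p + 12 * r - 5 * t = 30 * x := ⟨(p + 12 * r - 5 * t) / 30, by omega⟩
  obtain ⟨y, hy⟩ : ∃ y, p - 3 * r - 5 * t = 15 * y := ⟨(p - 3 * r - 5 * t) / 15, by omega⟩
  obtain ⟨z, hz⟩ : ∃ z, p + t = 6 * z := ⟨(p + t) / 6, by omega⟩
  refine ⟨x, y, z, |w0|, ?_, by omega, abs_nonneg _⟩
  rw [sq_abs]
  have key : 900 * n = 900 * (x ^ 2 + y ^ 2 + z ^ 2 + w0 ^ 2) := by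
    have e1 : 900 * x ^ 2 = (p + 12 * r - 5 * t) ^ 2 := by rw [hx]; ring
    have e2 : 900 * y ^ 2 = 4 * (p - 3 * r - 5 * t) ^ 2 := by rw [hy]; ring
    have e3 : 900 * z ^ 2 = 25 * (p + t) ^ 2 := by rw [hz]; ring
    linear_combination (-30) * h0' - e1 - e2 - e3
  linarith

/-- nonnegativity in the upper range -/
lemma nonneg_of_range {n p x y z w : ℤ} (hn : n = x ^ 2 + y ^ 2 + z ^ 2 + w ^ 2)
    (hp : x + 2 * y + 5 * z = p) (hp0 : 0 ≤ p) (h29 : 29 * n ≤ p ^ 2) :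
    0 ≤ x ∧ 0 ≤ y ∧ 0 ≤ z := by
  refine ⟨?_, ?_, ?_⟩
  · by_contra hx
    push Not at hx
    nlinarith [sq_nonneg (5 * y - 2 * z), sq_nonneg w, sq_nonneg x]
  · by_contra hy
    push Not at hy
    nlinarith [sq_nonneg (5 * x - z), sq_nonneg w, sq_nonneg y, sq_nonneg x, sq_nonneg z]
  · by_contra hz
    push Not at hz
    nlinarith [sq_nonneg (2 * x - y), sq_nonneg w, sq_nonneg y, sq_nonneg x, sq_nonneg z]

end Pool.Agent.Work.MP_40574a_nt
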