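import Pool.Agent.Work.MP_40574a_nt.ThreeSq

set_option autoImplicit false

namespace Pool.Agent.Work.MP_40574a_nt

/-- The lattice condition. -/
def Goal (N : ℤ) : Prop :=
  ∃ A B C : ℤ, A ^ 2 + B ^ 2 + C ^ 2 = N ∧ (A + C) % 2 = 0 ∧ (A + 2 * B + C) % 3 = 0 ∧
    (B - 2 * C) % 5 = 0

lemma sq_mod3 (x : ℤ) : (x % 3 = 0 ∧ x ^ 2 % 3 = 0) ∨ (x % 3 = 1 ∧ x ^ 2 % 3 = 1) ∨
    (x % 3 = 2 ∧ x ^ 2 % 3 = 1) := by
  have h : x % 3 = 0 ∨ x % 3 = 1 ∨ x % 3 = 2 := by omega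
  rcases h with h | h | h
  · left; exact ⟨h, by rw [pow_two, Int.mul_emod, h]; norm_num⟩
  · right; left; exact ⟨h, by rw [pow_two, Int.mul_emod, h]; norm_num⟩
  · right; right; exact ⟨h, by rw [pow_two, Int.mul_emod, h]; norm_num⟩

lemma sq_mod5 (x : ℤ) : (x % 5 = 0 ∧ x ^ 2 % 5 = 0) ∨ (x % 5 = 1 ∧ x ^ 2 % 5 = 1) ∨
    (x % 5 = 2 ∧ x ^ 2 % 5 = 4) ∨ (x % 5 = 3 ∧ x ^ 2 % 5 = 4) ∨ (x % 5 = 4 ∧ x ^ 2 % 5 = 1) := by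
  have h : x % 5 = 0 ∨ x % 5 = 1 ∨ x % 5 = 2 ∨ x % 5 = 3 ∨ x % 5 = 4 := by omega
  rcases h with h | h | h | h | h
  · left; exact ⟨h, by rw [pow_two, Int.mul_emod, h]; norm_num⟩
  · right; left; exact ⟨h, by rw [pow_two, Int.mul_emod, h]; norm_num⟩
  · right; right; left; exact ⟨h, by rw [pow_two, Int.mul_emod, h]; norm_num⟩
  · right; right; right; left; exact ⟨h, by rw [pow_two, Int.mul_emod, h]; norm_num⟩
  · right; right; right; right; exact ⟨h, by rw [pow_two, Int.mul_emod, h]; norm_num⟩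

lemma sign_a3 {A B C : ℤ} (h : (A ^ 2 + B ^ 2 + C ^ 2) % 3 = 2) (hA : A % 3 ≠ 0) :
    (A + 2 * B + C) % 3 = 0 ∨ (-A + 2 * B + C) % 3 = 0 := by
  rcases sq_mod3 A with ⟨a1, a2⟩ | ⟨a1, a2⟩ | ⟨a1, a2⟩ <;>
  rcases sq_mod3 B with ⟨b1, b2⟩ | ⟨b1, b2⟩ | ⟨b1, b2⟩ <;>
  rcases sq_mod3 C with ⟨c1, c2⟩ | ⟨c1, c2⟩ | ⟨c1, c2⟩ <;> omega

lemma sign_c3 {A B C : ℤ} (h : (A ^ 2 + B ^ 2 + C ^ 2) % 3 = 2) (hA : A % 3 = 0) :
    (A + 2 * B + C) % 3 = 0 ∨ (A + 2 * B - C) % 3 = 0 := by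
  rcases sq_mod3 A with ⟨a1, a2⟩ | ⟨a1, a2⟩ | ⟨a1, a2⟩ <;>
  rcases sq_mod3 B with ⟨b1, b2⟩ | ⟨b1, b2⟩ | ⟨b1, b2⟩ <;>
  rcases sq_mod3 C with ⟨c1, c2⟩ | ⟨c1, c2⟩ | ⟨c1, c2⟩ <;> omega

lemma sign_c3' {A B C : ℤ} (h : (A ^ 2 + B ^ 2 + C ^ 2) % 3 = 2) (hA : A % 3 = 0)
    (hB : (B - 2 * C) % 3 ≠ 0) : (A + 2 * B + C) % 3 = 0 := by
  rcases sq_mod3 A with ⟨a1, a2⟩ | ⟨a1, a2⟩ | ⟨a1, a2⟩ <;>
  rcases sq_mod3 B with ⟨b1, b2⟩ | ⟨b1, b2⟩ | ⟨b1, b2⟩ <;>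
  rcases sq_mod3 C with ⟨c1, c2⟩ | ⟨c1, c2⟩ | ⟨c1, c2⟩ <;> omega

lemma sum_3 {A B C : ℤ} (h : (A ^ 2 + B ^ 2 + C ^ 2) % 3 = 2) :
    (A + B + C) % 3 = 0 ∨ (-A + B + C) % 3 = 0 ∨ (A + B - C) % 3 = 0 := by
  rcases sq_mod3 A with ⟨a1, a2⟩ | ⟨a1, a2⟩ | ⟨a1, a2⟩ <;>
  rcases sq_mod3 B with ⟨b1, b2⟩ | ⟨b1, b2⟩ | ⟨b1, b2⟩ <;>
  rcases sq_mod3 C with ⟨c1, c2⟩ | ⟨c1, c2⟩ | ⟨c1, c2⟩ <;> omega

lemma sign_5 {B C : ℤ} (h : (B ^ 2 + C ^ 2) % 5 = 0) :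
    (B - 2 * C) % 5 = 0 ∨ (B + 2 * C) % 5 = 0 := by
  rcases sq_mod5 B with ⟨b1, b2⟩ | ⟨b1, b2⟩ | ⟨b1, b2⟩ | ⟨b1, b2⟩ | ⟨b1, b2⟩ <;>
  rcases sq_mod5 C with ⟨c1, c2⟩ | ⟨c1, c2⟩ | ⟨c1, c2⟩ | ⟨c1, c2⟩ | ⟨c1, c2⟩ <;> omega

lemma sign_5' {A B : ℤ} (h : A ^ 2 % 5 = B ^ 2 % 5) :
    (A - B) % 5 = 0 ∨ (-A - B) % 5 = 0 := by
  rcases sq_mod5 B with ⟨b1, b2⟩ | ⟨b1, b2⟩ | ⟨b1, b2⟩ | ⟨b1, b2⟩ | ⟨b1, b2⟩ <;>
  rcases sq_mod5 A with ⟨c1, c2⟩ | ⟨c1, c2⟩ | ⟨c1, c2⟩ | ⟨c1, c2⟩ | ⟨c1, c2⟩ <;> omega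

lemma zero_5 {A : ℤ} (h : A ^ 2 % 5 = 0) : A % 5 = 0 := by
  rcases sq_mod5 A with ⟨b1, b2⟩ | ⟨b1, b2⟩ | ⟨b1, b2⟩ | ⟨b1, b2⟩ | ⟨b1, b2⟩ <;> omega

variable {N : ℤ}

lemma G1 (hN3 : N % 3 = 2) {A B C : ℤ} (hN : A ^ 2 + B ^ 2 + C ^ 2 = N)
    (hpar : (A + C) % 2 = 0) (h5 : (B - 2 * C) % 5 = 0) (hA : A % 3 ≠ 0) : Goal N := by
  rcases sign_a3 (by rw [hN]; exact hN3) hA with h | h
  · exact ⟨A, B, C, hN, hpar, h, h5⟩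
  · exact ⟨-A, B, C, by rw [← hN]; ring, by omega, h, h5⟩

lemma G2 (hN3 : N % 3 = 2) {A B C : ℤ} (hN : A ^ 2 + B ^ 2 + C ^ 2 = N)
    (hpar : (A + C) % 2 = 0) (h5 : (B ^ 2 + C ^ 2) % 5 = 0) (hA : A % 3 ≠ 0) : Goal N := by
  rcases sign_5 h5 with h | h
  · exact G1 hN3 hN hpar h hA
  · exact G1 hN3 (A := A) (B := B) (C := -C) (by rw [← hN]; ring) (by omega) (by omega) hA

lemma G3 (hN3 : N % 3 = 2) {A B C : ℤ} (hN : A ^ 2 + B ^ 2 + C ^ 2 = N)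
    (hpar : (A + C) % 2 = 0) (hB : B ^ 2 % 5 = 0) (hC : C ^ 2 % 5 = 0) : Goal N := by
  have hB5 : B % 5 = 0 := zero_5 hB
  have hC5 : C % 5 = 0 := zero_5 hC
  by_cases hA : A % 3 = 0
  · rcases sign_c3 (by rw [hN]; exact hN3) hA with h | h
    · exact ⟨A, B, C, hN, hpar, h, by omega⟩
    · exact ⟨A, B, -C, by rw [← hN]; ring, by omega, by omega, by omega⟩
  · exact G1 hN3 hN hpar (by omega) hA

/-- The descent near the vector `(-3, 2, 1)`. -/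
lemma chain (hN3 : N % 3 = 2) (k : ℕ) : ∀ A B C : ℤ, A ^ 2 + B ^ 2 + C ^ 2 = N →
    (A + C) % 2 = 0 → (5 : ℤ) ∣ A + 3 * C → (5 : ℤ) ∣ B - 2 * C →
    (3 : ℤ) ^ k ∣ A + 3 * C → (3 : ℤ) ^ k ∣ B - 2 * C →
    ¬ ((3 : ℤ) ^ (k + 1) ∣ A + 3 * C ∧ (3 : ℤ) ^ (k + 1) ∣ B - 2 * C) → Goal N := by
  induction k with
  | zero =>
    intro A B C hN hpar h5a h5b _ _ hex
    rw [zero_add, pow_one] at hex
    by_cases hA : A % 3 = 0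
    · have hb : (B - 2 * C) % 3 ≠ 0 := fun h => hex ⟨by omega, by omega⟩
      exact ⟨A, B, C, hN, hpar, sign_c3' (by rw [hN]; exact hN3) hA hb, by omega⟩
    · exact G1 hN3 hN hpar (by omega) hA
  | succ k ih =>
    intro A B C hN hpar h5a h5b h3a h3b hex
    obtain ⟨a1, ha1⟩ := h3a
    obtain ⟨b1, hb1⟩ := h3b
    have hex' : ¬ ((3 : ℤ) ∣ a1 ∧ (3 : ℤ) ∣ b1) := by
      rintro ⟨⟨a2, ha2⟩, ⟨b2, hb2⟩⟩
      exact hex ⟨⟨a2, by rw [ha1, ha2]; ring⟩, ⟨b2, by rw [hb1, hb2]; ring⟩⟩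
    have h3pos : (3 : ℤ) ^ k ≠ 0 := by positivity
    -- a general remark on exactness
    have hexact : ∀ u w : ℤ, ¬ (3 : ℤ) ∣ u →
        ¬ ((3 : ℤ) ^ (k + 1) ∣ 3 ^ k * u ∧ (3 : ℤ) ^ (k + 1) ∣ 3 ^ k * w) := by
      rintro u w hu ⟨h, _⟩
      apply hu
      rw [pow_succ] at h
      exact (mul_dvd_mul_iff_left h3pos).mp h
    by_cases hs : (3 : ℤ) ∣ a1 + b1
    · -- use the reflection in (-1,1,1)
      have hs' : ¬ (3 : ℤ) ∣ 5 * a1 + 4 * b1 := by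
        intro h
        apply hex'
        omega
      set κ : ℤ := 2 * C + 3 ^ k * (b1 - a1) with hκ
      have e1 : -A + B + C = 3 * κ := by
        rw [hκ]
        have : A = 3 ^ (k + 1) * a1 - 3 * C := by linarith
        have : B = 3 ^ (k + 1) * b1 + 2 * C := by linarith
        rw [‹A = _›, ‹B = _›]; ring
      have ea : (C - 2 * κ) + 3 * (A + 2 * κ) = 3 ^ k * (5 * a1 + 4 * b1) := by
        have h1 : A = 3 ^ (k + 1) * a1 - 3 * C := by linarith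
        rw [hκ, h1]; ring
      have eb : (2 * κ - B) - 2 * (A + 2 * κ) = 3 ^ k * (-(4 * a1 + 5 * b1)) := by
        have h1 : A = 3 ^ (k + 1) * a1 - 3 * C := by linarith
        have h2 : B = 3 ^ (k + 1) * b1 + 2 * C := by linarith
        rw [hκ, h1, h2]; ring
      refine ih (C - 2 * κ) (2 * κ - B) (A + 2 * κ) ?_ (by omega) ?_ ?_ ?_ ?_ ?_
      · rw [← hN]; linear_combination (-4 * κ) * e1
      · have : 3 * (C - 2 * κ + 3 * (A + 2 * κ)) = 5 * (A + 3 * C) + 4 * (B - 2 * C) := by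
          rw [ea, ha1, hb1]; ring
        omega
      · have : 3 * (2 * κ - B - 2 * (A + 2 * κ)) = -(4 * (A + 3 * C) + 5 * (B - 2 * C)) := by
          rw [eb, ha1, hb1]; ring
        omega
      · rw [ea]; exact Dvd.intro _ rfl
      · rw [eb]; exact Dvd.intro _ rfl
      · rw [ea, eb]; exact hexact _ _ hs'
    · -- use the reflection in (1,1,1)
      have hs' : ¬ (3 : ℤ) ∣ -5 * a1 - 8 * b1 := by
        intro h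
        apply hs
        omega
      set κ : ℤ := 3 ^ k * (a1 + b1) with hκ
      have e1 : A + B + C = 3 * κ := by
        rw [hκ]
        have h1 : A = 3 ^ (k + 1) * a1 - 3 * C := by linarith
        have h2 : B = 3 ^ (k + 1) * b1 + 2 * C := by linarith
        rw [h1, h2]; ring
      have ea : (A - 2 * κ) + 3 * (C - 2 * κ) = 3 ^ k * (-5 * a1 - 8 * b1) := by
        have h1 : A = 3 ^ (k + 1) * a1 - 3 * C := by linarith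
        rw [hκ, h1]; ring
      have eb : (B - 2 * κ) - 2 * (C - 2 * κ) = 3 ^ k * (2 * a1 + 5 * b1) := by
        have h2 : B = 3 ^ (k + 1) * b1 + 2 * C := by linarith
        rw [hκ, h2]; ring
      refine ih (A - 2 * κ) (B - 2 * κ) (C - 2 * κ) ?_ (by omega) ?_ ?_ ?_ ?_ ?_
      · rw [← hN]; linear_combination (-4 * κ) * e1
      · have : 3 * (A - 2 * κ + 3 * (C - 2 * κ)) = -5 * (A + 3 * C) - 8 * (B - 2 * C) := by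
          rw [ea, ha1, hb1]; ring
        omega
      · have : 3 * (B - 2 * κ - 2 * (C - 2 * κ)) = 2 * (A + 3 * C) + 5 * (B - 2 * C) := by
          rw [eb, ha1, hb1]; ring
        omega
      · rw [ea]; exact Dvd.intro _ rfl
      · rw [eb]; exact Dvd.intro _ rfl
      · rw [ea, eb]; exact hexact _ _ hs'

lemma chain' (hN3 : N % 3 = 2) {A B C : ℤ} (hN : A ^ 2 + B ^ 2 + C ^ 2 = N)
    (hpar : (A + C) % 2 = 0) (hb : B % 2 = 1) (h5a : (5 : ℤ) ∣ A + 3 * C)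
    (h5b : (5 : ℤ) ∣ B - 2 * C) : Goal N := by
  classical
  have hb0 : B - 2 * C ≠ 0 := by omega
  have hex : ∃ k : ℕ, ¬ ((3 : ℤ) ^ (k + 1) ∣ A + 3 * C ∧ (3 : ℤ) ^ (k + 1) ∣ B - 2 * C) := by
    refine ⟨(B - 2 * C).natAbs, ?_⟩
    rintro ⟨_, h⟩
    have h1 := Int.natAbs_dvd_natAbs.mpr h
    have h2 := Nat.le_of_dvd (Int.natAbs_pos.mpr hb0) h1
    rw [Int.natAbs_pow] at h2
    have h3 : (B - 2 * C).natAbs < 3 ^ (B - 2 * C).natAbs := Nat.lt_pow_self (by norm_num)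
    have h4 : 3 ^ (B - 2 * C).natAbs ≤ 3 ^ ((B - 2 * C).natAbs + 1) :=
      Nat.pow_le_pow_right (by norm_num) (by omega)
    have h5 : (3 : ℤ).natAbs = 3 := rfl
    rw [h5] at h2
    omega
  have hspec := Nat.find_spec hex
  have hmin : ∀ m < Nat.find hex, (3 : ℤ) ^ (m + 1) ∣ A + 3 * C ∧ (3 : ℤ) ^ (m + 1) ∣ B - 2 * C := by
    intro m hm
    have := Nat.find_min hex hm
    push Not at this
    by_contra hcon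
    exact hcon (by tauto)
  set k := Nat.find hex
  rcases Nat.eq_zero_or_pos k with h | h
  · refine chain hN3 k A B C hN hpar h5a h5b ?_ ?_ hspec <;> rw [h] <;> simp
  · have h1 := hmin (k - 1) (by omega)
    rw [Nat.sub_add_cancel h] at h1
    exact chain hN3 k A B C hN hpar h5a h5b h1.1 h1.2 hspec

end Pool.Agent.Work.MP_40574a_nt
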