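import Mathlib

set_option autoImplicit false

namespace Pool.Agent.Work.MP_40574a_nt

/-- nearest multiple -/
lemma exists_round (f a : ℤ) (ha : 0 < a) : ∃ k : ℤ, 4 * (f - k * a) ^ 2 ≤ a ^ 2 := by
  refine ⟨(2 * f + a) / (2 * a), ?_⟩
  set k := (2 * f + a) / (2 * a) with hk
  have h1 : (2 * a) * k ≤ 2 * f + a := Int.mul_ediv_self_le (by omega)
  have h2 : 2 * f + a < (2 * a) * k + 2 * a := by
    have := Int.lt_mul_ediv_self_add (x := 2 * f + a) (k := 2 * a) (by omega)
    exact this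
  have h3 : -a ≤ 2 * (f - k * a) := by nlinarith
  have h4 : 2 * (f - k * a) ≤ a := by nlinarith
  nlinarith

/-- The values of the ternary form with Gram matrix `[[a,f,e],[f,b,d],[e,d,c]]`. -/
def Rep (a b c d e f n : ℤ) : Prop :=
  ∃ x y z : ℤ, a * x ^ 2 + b * y ^ 2 + c * z ^ 2 + 2 * d * y * z + 2 * e * x * z + 2 * f * x * y = n

/-- Every integer represented by a positive ternary form of determinant one is a sum of three
squares. -/
theorem rep_three_sq (t : ℕ) : ∀ a b c d e f n : ℤ, 0 < a → 0 < a * b - f ^ 2 →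
    a * b * c + 2 * d * e * f - a * d ^ 2 - b * e ^ 2 - c * f ^ 2 = 1 →
    Rep a b c d e f n → (a + (a * b - f ^ 2)).toNat = t → ∃ x y z : ℤ, x ^ 2 + y ^ 2 + z ^ 2 = n := by
  induction t using Nat.strong_induction_on with
  | _ t ih =>
  intro a b c d e f n ha hP hdet hrep ht
  set P := a * b - f ^ 2 with hPdef
  -- step 1
  by_cases h1 : ∃ k : ℤ, b - 2 * k * f + k ^ 2 * a < a
  · obtain ⟨k, hk⟩ := h1
    have hb' : 0 < b - 2 * k * f + k ^ 2 * a := by
      have : a * (b - 2 * k * f + k ^ 2 * a) = P + (f - k * a) ^ 2 := by rw [hPdef]; ring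
      have h2 : 0 < a * (b - 2 * k * f + k ^ 2 * a) := by rw [this]; positivity
      exact (pos_iff_pos_of_mul_pos h2).mp ha
    have hP' : (b - 2 * k * f + k ^ 2 * a) * a - (f - k * a) ^ 2 = P := by rw [hPdef]; ring
    refine ih ((b - 2 * k * f + k ^ 2 * a) + P).toNat (by omega)
      (b - 2 * k * f + k ^ 2 * a) a c e (d - k * e) (f - k * a) n hb' (by rw [hP']; exact hP)
      ?_ ?_ (by rw [hP'])
    · rw [← hdet]; ring
    · obtain ⟨x, y, z, hxyz⟩ := hrep
      -- v = x e1 + y e2 + z e3 = y (e2 - k e1) + (x + k y) e1 + z e3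
      refine ⟨y, x + k * y, z, ?_⟩
      rw [← hxyz]; ring
  push Not at h1
  -- step 2
  set Q := a * c - e ^ 2 with hQ
  set R := a * d - f * e with hR
  have hPQR : P * Q - R ^ 2 = a := by
    have : P * Q - R ^ 2 = a * (a * b * c + 2 * d * e * f - a * d ^ 2 - b * e ^ 2 - c * f ^ 2) := by
      rw [hPdef, hQ, hR]; ring
    rw [this, hdet, mul_one]
  by_cases h2 : ∃ k : ℤ, Q - 2 * k * R + k ^ 2 * P < P
  · obtain ⟨k, hk⟩ := h2
    have hQ' : 0 < Q - 2 * k * R + k ^ 2 * P := by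
      have : P * (Q - 2 * k * R + k ^ 2 * P) = a + (R - k * P) ^ 2 := by
        linear_combination hPQR
      have h2 : 0 < P * (Q - 2 * k * R + k ^ 2 * P) := by rw [this]; positivity
      exact (pos_iff_pos_of_mul_pos h2).mp hP
    have hP' : a * (c - 2 * k * d + k ^ 2 * b) - (e - k * f) ^ 2 = Q - 2 * k * R + k ^ 2 * P := by
      rw [hPdef, hQ, hR]; ring
    refine ih (a + (Q - 2 * k * R + k ^ 2 * P)).toNat (by omega)
      a (c - 2 * k * d + k ^ 2 * b) b (d - k * b) f (e - k * f) n ha (by rw [hP']; exact hQ')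
      ?_ ?_ (by rw [hP'])
    · rw [← hdet]; ring
    · obtain ⟨x, y, z, hxyz⟩ := hrep
      -- v = x e1 + y e2 + z e3 = x e1 + z (e3 - k e2) + (y + k z) e2
      refine ⟨x, z, y + k * z, ?_⟩
      rw [← hxyz]; ring
  push Not at h2
  -- reduced
  obtain ⟨k1, hk1⟩ := exists_round f a ha
  obtain ⟨k2, hk2⟩ := exists_round R P hP
  have e1 := h1 k1
  have e2 := h2 k2
  have i1 : 3 * a ^ 2 ≤ 4 * P := by
    have : a * (b - 2 * k1 * f + k1 ^ 2 * a) = P + (f - k1 * a) ^ 2 := by rw [hPdef]; ring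
    nlinarith
  have i2 : 3 * P ^ 2 ≤ 4 * a := by
    have : P * (Q - 2 * k2 * R + k2 ^ 2 * P) = a + (R - k2 * P) ^ 2 := by
      linear_combination hPQR
    nlinarith
  have ha1 : a = 1 := by
    by_contra hne
    have ha2 : 2 ≤ a := by omega
    have hP3 : 3 ≤ P := by nlinarith
    have : a < P := by nlinarith
    nlinarith
  have hP1 : P = 1 := by
    rw [ha1] at i2
    nlinarith
  obtain ⟨x, y, z, hxyz⟩ := hrep
  refine ⟨x + f * y + e * z, y + (d - e * f) * z, z, ?_⟩
  rw [ha1] at hdet hPdef hxyz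
  have hb : b = f ^ 2 + 1 := by linarith
  rw [hb] at hdet hxyz
  have hc : c = e ^ 2 + (d - e * f) ^ 2 + 1 := by linear_combination hdet
  rw [hc] at hxyz
  rw [← hxyz]; ring

/-- The Gram matrix used in the proof of the three squares theorem. -/
theorem three_sq_of_residue (n d a k : ℤ) (hd : 0 < d) (hdn : 0 < d * n - 1)
    (h : a ^ 2 + d = k * (d * n - 1)) : ∃ x y z : ℤ, x ^ 2 + y ^ 2 + z ^ 2 = n := by
  have hk : 0 < k := by
    have h1 : 0 < k * (d * n - 1) := by rw [← h]; positivity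
    exact (pos_iff_pos_of_mul_pos h1).mpr hdn
  refine rep_three_sq _ k (d * n - 1) n 0 1 a n hk ?_ ?_ ⟨0, 0, 1, by ring⟩ rfl
  · have : k * (d * n - 1) - a ^ 2 = d := by rw [← h]; ring
    rw [this]; exact hd
  · linear_combination (-n) * h

end Pool.Agent.Work.MP_40574a_nt
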