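import Pool.Agent.Work.MP_40574a_nt.Ternary

set_option autoImplicit false

namespace Pool.Agent.Work.MP_40574a_nt

open NumberTheorySymbols

/-- Key quadratic residue computation. -/
lemma jacobi_key (q d : ℕ) [Fact q.Prime] (hq2 : q % 2 = 1) (hd8 : d % 8 = 1 ∨ d % 8 = 3)
    (hqd : q % 4 = 1 ∨ d % 4 = 3) (hrel : (d : ℤ) ∣ 2 * (q : ℤ) + 1) :
    J(-(d : ℤ) | q) = 1 := by
  have hqodd : Odd q := Nat.odd_iff.mpr hq2
  have hdodd : Odd d := by rw [Nat.odd_iff]; omega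
  -- J(q | d) = 1
  have h1 : J((q : ℤ) | d) = 1 := by
    have h2 : J(-2 | d) = 1 := by
      rw [jacobiSym.at_neg_two hdodd, ZMod.χ₈'_nat_eq_if_mod_eight]
      rcases hd8 with h | h <;> simp [h] <;> omega
    have h3 : J(-2 * (q : ℤ) | d) = 1 := by
      have h4 : (-2 * (q : ℤ)) % (d : ℤ) = 1 % (d : ℤ) := by
        apply Int.ModEq.symm
        rw [Int.modEq_iff_dvd]
        obtain ⟨k, hk⟩ := hrel
        exact ⟨-k, by linear_combination -hk⟩
      rw [jacobiSym.mod_left' h4, jacobiSym.one_left]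
    rw [jacobiSym.mul_left, h2, one_mul] at h3
    exact h3
  rw [jacobiSym.neg _ hqodd]
  have hq4 : q % 4 = 1 ∨ q % 4 = 3 := by omega
  rcases hq4 with hq4 | hq4
  · rw [ZMod.χ₄_nat_one_mod_four hq4, one_mul,
      ← jacobiSym.quadratic_reciprocity_one_mod_four hq4 hdodd, h1]
  · have hd4 : d % 4 = 3 := by omega
    rw [ZMod.χ₄_nat_three_mod_four hq4, jacobiSym.quadratic_reciprocity_three_mod_four hd4 hq4, h1]
    norm_num

/-- Legendre's three squares theorem for odd `n` not congruent to `7` modulo `8`. -/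
theorem three_squares (n : ℕ) (hn2 : n % 2 = 1) (hn : n % 8 ≠ 7) :
    ∃ x y z : ℤ, x ^ 2 + y ^ 2 + z ^ 2 = n := by
  by_cases hn1 : n = 1
  · exact ⟨1, 0, 0, by rw [hn1]; norm_num⟩
  -- choose c
  obtain ⟨c, M, hc, hM, hM4⟩ : ∃ c M : ℕ, (c = 1 ∨ c = 3) ∧ 2 * M + 1 = c * n ∧
      (M % 4 = 1 ∨ (M % 4 = 3 ∧ c = 3)) := by
    have h8 : n % 8 = 3 ∨ n % 8 = 1 ∨ n % 8 = 5 := by omega
    rcases h8 with h | h | h
    · exact ⟨1, (n - 1) / 2, Or.inl rfl, by omega, Or.inl (by omega)⟩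
    · exact ⟨3, (3 * n - 1) / 2, Or.inr rfl, by omega, Or.inl (by omega)⟩
    · exact ⟨3, (3 * n - 1) / 2, Or.inr rfl, by omega, Or.inr ⟨by omega, rfl⟩⟩
  have hcop : M.Coprime (4 * n) := by
    apply Nat.Coprime.mul_right
    · have : M.Coprime (2 ^ 2) := by
        apply Nat.Coprime.pow_right
        rw [Nat.coprime_comm, Nat.coprime_two_left, Nat.odd_iff]; omega
      exact this
    · have h1 : Nat.gcd M n ∣ 1 := by
        have h2 : Nat.gcd M n ∣ 2 * M := (Nat.gcd_dvd_left M n).mul_left 2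
        have h3 : Nat.gcd M n ∣ c * n := (Nat.gcd_dvd_right M n).mul_left c
        rw [← hM] at h3
        exact (Nat.dvd_add_right h2).mp h3
      exact Nat.dvd_one.mp h1
  obtain ⟨q, hqM, hq, hqmod⟩ := Nat.forall_exists_prime_gt_and_modEq M (q := 4 * n) (by omega) hcop
  have : Fact q.Prime := ⟨hq⟩
  obtain ⟨v, hv⟩ : ∃ v : ℕ, q = M + 4 * n * v := by
    have h1 : M ≡ q [MOD 4 * n] := hqmod.symm
    rw [Nat.modEq_iff_dvd' hqM.le] at h1
    obtain ⟨v, hv⟩ := h1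
    exact ⟨v, by omega⟩
  set d := 8 * v + c with hd
  have hdn : 2 * q + 1 = d * n := by
    rw [hv, hd]
    have : 2 * (M + 4 * n * v) + 1 = (2 * M + 1) + 8 * n * v := by ring
    rw [this, hM]; ring
  have hq4 : q % 4 = M % 4 := by
    rw [hv, mul_assoc, Nat.add_mul_mod_self_left]
  have hq2 : q % 2 = 1 := by omega
  have hJ : J(-(d : ℤ) | q) = 1 := by
    refine jacobi_key q d hq2 (by omega) (by omega) ⟨n, ?_⟩
    exact_mod_cast hdn
  have hsq := ZMod.isSquare_of_jacobiSym_eq_one hJ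
  obtain ⟨r, hr⟩ := hsq
  obtain ⟨a, ha, ha2⟩ : ∃ a : ℤ, (q : ℤ) ∣ a ^ 2 + d ∧ a % 2 = 1 := by
    have h1 : (q : ℤ) ∣ (r.val : ℤ) ^ 2 + d := by
      rw [← ZMod.intCast_zmod_eq_zero_iff_dvd]
      push_cast
      rw [ZMod.natCast_zmod_val]
      push_cast at hr
      linear_combination -hr
    rcases Int.emod_two_eq_zero_or_one (r.val : ℤ) with h | h
    · refine ⟨(r.val : ℤ) + q, ?_, by omega⟩
      have : ((r.val : ℤ) + q) ^ 2 + d = ((r.val : ℤ) ^ 2 + d) + q * (2 * r.val + q) := by ring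
      rw [this]
      exact dvd_add h1 (Dvd.intro _ rfl)
    · exact ⟨r.val, h1, h⟩
  have hd2 : (d : ℤ) % 2 = 1 := by omega
  have h2q : (2 * (q : ℤ)) ∣ a ^ 2 + d := by
    have hcop2 : IsCoprime (2 : ℤ) (q : ℤ) := by
      rw [Int.isCoprime_iff_gcd_eq_one]
      have : Nat.Coprime 2 q := by rw [Nat.coprime_two_left, Nat.odd_iff]; exact hq2
      exact_mod_cast this
    apply hcop2.mul_dvd _ ha
    have : (a ^ 2 + d) % 2 = 0 := by
      obtain ⟨b, hb⟩ : ∃ b, a = 2 * b + 1 := ⟨a / 2, by omega⟩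
      have : a ^ 2 + (d : ℤ) = 2 * (2 * b ^ 2 + 2 * b) + (1 + d) := by rw [hb]; ring
      omega
    exact Int.dvd_of_emod_eq_zero this
  obtain ⟨k, hk⟩ := h2q
  have hdnZ : 2 * (q : ℤ) + 1 = (d : ℤ) * n := by exact_mod_cast hdn
  refine three_sq_of_residue n d a k (by omega) (by have := hq.pos; omega) ?_
  rw [hk, ← hdnZ]; ring

/-- Legendre's three squares theorem for `n` congruent to `2` modulo `4`. -/
theorem three_squares_two_mod_four (n : ℕ) (hn : n % 4 = 2) :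
    ∃ x y z : ℤ, x ^ 2 + y ^ 2 + z ^ 2 = n := by
  obtain ⟨M, hM⟩ : ∃ M : ℕ, M + 1 = n := ⟨n - 1, by omega⟩
  have hcop : M.Coprime (4 * n) := by
    apply Nat.Coprime.mul_right
    · have : M.Coprime (2 ^ 2) := by
        apply Nat.Coprime.pow_right
        rw [Nat.coprime_comm, Nat.coprime_two_left, Nat.odd_iff]; omega
      exact this
    · rw [← hM]; exact (Nat.coprime_self_add_right).mpr (Nat.coprime_one_right M)
  obtain ⟨q, hqM, hq, hqmod⟩ := Nat.forall_exists_prime_gt_and_modEq M (q := 4 * n) (by omega) hcop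
  have : Fact q.Prime := ⟨hq⟩
  obtain ⟨v, hv⟩ : ∃ v : ℕ, q = M + 4 * n * v := by
    have h1 : M ≡ q [MOD 4 * n] := hqmod.symm
    rw [Nat.modEq_iff_dvd' hqM.le] at h1
    obtain ⟨v, hv⟩ := h1
    exact ⟨v, by omega⟩
  set d := 4 * v + 1 with hd
  have hdn : q + 1 = d * n := by
    rw [hv, hd, ← hM]; ring
  have hq4 : q % 4 = 1 := by
    rw [hv, mul_assoc, Nat.add_mul_mod_self_left]; omega
  have hd4 : d % 4 = 1 := by omega
  have hqodd : Odd q := by rw [Nat.odd_iff]; omega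
  have hdodd : Odd d := by rw [Nat.odd_iff]; omega
  have hJ : J(-(d : ℤ) | q) = 1 := by
    rw [jacobiSym.neg _ hqodd, ZMod.χ₄_nat_one_mod_four hq4, one_mul,
      ← jacobiSym.quadratic_reciprocity_one_mod_four hq4 hdodd]
    have h4 : (q : ℤ) % (d : ℤ) = (-1) % (d : ℤ) := by
      apply Int.ModEq.symm
      rw [Int.modEq_iff_dvd]
      exact ⟨n, by have : (q : ℤ) + 1 = d * n := by exact_mod_cast hdn
                   linear_combination this⟩
    rw [jacobiSym.mod_left' h4, jacobiSym.at_neg_one hdodd, ZMod.χ₄_nat_one_mod_four hd4]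
  obtain ⟨r, hr⟩ := ZMod.isSquare_of_jacobiSym_eq_one hJ
  have h1 : (q : ℤ) ∣ (r.val : ℤ) ^ 2 + d := by
    rw [← ZMod.intCast_zmod_eq_zero_iff_dvd]
    push_cast
    rw [ZMod.natCast_zmod_val]
    push_cast at hr
    linear_combination -hr
  obtain ⟨k, hk⟩ := h1
  have hdnZ : (q : ℤ) + 1 = (d : ℤ) * n := by exact_mod_cast hdn
  refine three_sq_of_residue n d r.val k (by omega) (by have := hq.pos; omega) ?_
  rw [hk, ← hdnZ]; ring

/-- Legendre's three squares theorem. -/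
theorem legendre_three_squares (a m : ℕ) (hm4 : m % 4 ≠ 0) (hm8 : m % 8 ≠ 7) :
    ∃ x y z : ℤ, x ^ 2 + y ^ 2 + z ^ 2 = ((4 ^ a * m : ℕ) : ℤ) := by
  obtain ⟨x, y, z, h⟩ : ∃ x y z : ℤ, x ^ 2 + y ^ 2 + z ^ 2 = m := by
    by_cases h2 : m % 2 = 1
    · exact three_squares m h2 hm8
    · exact three_squares_two_mod_four m (by omega)
  refine ⟨2 ^ a * x, 2 ^ a * y, 2 ^ a * z, ?_⟩
  push_cast
  rw [← h, show (4 : ℤ) = 2 ^ 2 by norm_num, ← pow_mul, mul_comm 2 a, pow_mul]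
  ring

end Pool.Agent.Work.MP_40574a_nt
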